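import Mathlib
import Pool.Agent.LNDHom.Basis
import Pool.Agent.LNDHom.Mv

/-!
# Freeness over the kernel for locally nilpotent derivations of rank at most two: definitions
-/

set_option autoImplicit false

open MvPolynomial

namespace Pool.Agent.R2F

/-- polynomials in two variables `X 0`, `X 1` -/
abbrev P2 (R : Type*) [CommRing R] := MvPolynomial (Fin 2) R

/-- change of coefficients -/
noncomputable def io (R K : Type*) [CommRing R] [CommRing K] [Algebra R K] : P2 R →+* P2 K :=
  MvPolynomial.map (algebraMap R K)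

/-- exchange of the variables -/
noncomputable def swapE (R : Type*) [CommRing R] : P2 R ≃ₐ[R] P2 R :=
  renameEquiv R (Equiv.swap 0 1)

variable {R : Type*} [CommRing R]

theorem swapE_X0 : swapE R (X 0) = X 1 := by simp [swapE]

theorem swapE_X1 : swapE R (X 1) = X 0 := by simp [swapE]

/-- the homomorphism `X 0 ↦ c X 0 + h(X 1)`, `X 1 ↦ X 1` -/
noncomputable def elemHom (c : R) (h : Polynomial R) : P2 R →ₐ[R] P2 R :=
  aeval ![C c * X 0 + Polynomial.aeval (X 1 : P2 R) h, X 1]

theorem elemHom_X0 (c : R) (h : Polynomial R) :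
    elemHom c h (X 0) = C c * X 0 + Polynomial.aeval (X 1 : P2 R) h := by simp [elemHom]

theorem elemHom_X1 (c : R) (h : Polynomial R) : elemHom c h (X 1) = X 1 := by simp [elemHom]

theorem elemHom_aeval (c : R) (h g : Polynomial R) :
    elemHom c h (Polynomial.aeval (X 1 : P2 R) g) = Polynomial.aeval (X 1 : P2 R) g := by
  rw [← Polynomial.aeval_algHom_apply, elemHom_X1]

theorem hom_eq_id {f : P2 R →ₐ[R] P2 R} (h0 : f (X 0) = X 0) (h1 : f (X 1) = X 1) :
    f = AlgHom.id R (P2 R) := by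
  refine MvPolynomial.algHom_ext (fun i => ?_)
  rcases i with ⟨i, hi⟩
  interval_cases i
  · exact h0
  · exact h1

theorem elemHom_comp (c d : R) (hdc : d * c = 1) (h : Polynomial R) :
    (elemHom c h).comp (elemHom d (-(Polynomial.C d * h))) = AlgHom.id R (P2 R) := by
  refine hom_eq_id ?_ ?_
  · have e1 : (elemHom c h).comp (elemHom d (-(Polynomial.C d * h))) (X 0) =
        elemHom c h (C d * X 0 + Polynomial.aeval (X 1 : P2 R) (-(Polynomial.C d * h))) := by
      rw [AlgHom.comp_apply, elemHom_X0]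
    have e2 : elemHom c h (C d) = C d := (elemHom c h).commutes d
    have e3 : Polynomial.aeval (X 1 : P2 R) (Polynomial.C d) = C d := Polynomial.aeval_C _ _
    rw [e1, map_add, map_mul, elemHom_X0, elemHom_aeval, e2, map_neg, map_mul, e3, mul_add,
      ← mul_assoc, ← C_mul, hdc, C_1]
    ring
  · rw [AlgHom.comp_apply, elemHom_X1, elemHom_X1]

theorem elemHom_comp' (c d : R) (hdc : d * c = 1) (h : Polynomial R) :
    (elemHom d (-(Polynomial.C d * h))).comp (elemHom c h) = AlgHom.id R (P2 R) := by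
  have h1 := elemHom_comp d c (by rw [mul_comm]; exact hdc) (-(Polynomial.C d * h))
  have h2 : -(Polynomial.C c * -(Polynomial.C d * h)) = h := by
    rw [mul_neg, neg_neg, ← mul_assoc, ← Polynomial.C_mul, mul_comm c d, hdc, Polynomial.C_1, one_mul]
  rwa [h2] at h1

/-- the automorphism `X 0 ↦ c X 0 + h(X 1)`, `X 1 ↦ X 1` -/
noncomputable def elemE (c : Rˣ) (h : Polynomial R) : P2 R ≃ₐ[R] P2 R :=
  AlgEquiv.ofAlgHom (elemHom (c : R) h)
    (elemHom ((c⁻¹ : Rˣ) : R) (-(Polynomial.C ((c⁻¹ : Rˣ) : R) * h)))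
    (elemHom_comp _ _ (Units.inv_mul c) h) (elemHom_comp' _ _ (Units.inv_mul c) h)

theorem elemE_X0 (c : Rˣ) (h : Polynomial R) :
    elemE c h (X 0) = C (c : R) * X 0 + Polynomial.aeval (X 1 : P2 R) h := elemHom_X0 _ _

theorem elemE_X1 (c : Rˣ) (h : Polynomial R) : elemE c h (X 1) = X 1 := elemHom_X1 _ _

/-- the tame automorphisms -/
noncomputable def tameGroup (K : Type*) [Field K] : Subgroup (P2 K ≃ₐ[K] P2 K) :=
  Subgroup.closure {φ | φ = swapE K ∨ ∃ (c : Kˣ) (h : Polynomial K), φ = elemE c h}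

theorem swapE_mem {K : Type*} [Field K] : swapE K ∈ tameGroup K :=
  Subgroup.subset_closure (Or.inl rfl)

theorem elemE_mem {K : Type*} [Field K] (c : Kˣ) (h : Polynomial K) : elemE c h ∈ tameGroup K :=
  Subgroup.subset_closure (Or.inr ⟨c, h, rfl⟩)

/-- the dilation `X 0 ↦ π X 0`, `X 1 ↦ X 1` -/
noncomputable def dil (p : R) : P2 R →ₐ[R] P2 R := aeval ![C p * X 0, X 1]

theorem dil_X0 (p : R) : dil p (X 0) = C p * X 0 := by simp [dil]

theorem dil_X1 (p : R) : dil p (X 1) = X 1 := by simp [dil]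

/-- `res : R → κ` is surjective onto a field with kernel generated by `p ≠ 0` -/
structure ResData {κ : Type*} [Field κ] (res : R →+* κ) (p : R) : Prop where
  surj : Function.Surjective res
  ker : ∀ a, res a = 0 ↔ p ∣ a
  ne : p ≠ 0

/-- the reduction of `b` modulo `p` is transcendental over the residue field -/
def NC (p : R) (b : P2 R) : Prop :=
  ∀ F : Polynomial R, C p ∣ Polynomial.aeval b F → Polynomial.C p ∣ F

/-- `Good p M ε`: the image of `ε` is connected with the whole ring by `M` dilations -/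
inductive Good (p : R) : ℕ → (P2 R →ₐ[R] P2 R) → Prop
  | top (ε : P2 R →ₐ[R] P2 R) (h : Function.Bijective ε) : Good p 0 ε
  | step (M : ℕ) (ε : P2 R →ₐ[R] P2 R) (α : P2 R ≃ₐ[R] P2 R) (h : Good p M ε)
      (h1 : NC p (ε (X 1))) :
      Good p (M + 1) ((ε.comp (dil p)).comp (α : P2 R →ₐ[R] P2 R))

/-- the tower property for an element `b` of `K[X, Y]` -/
def TT {K : Type*} [Field K] [Algebra R K] (p : R) (b : P2 K) : Prop :=
  ∃ (M : ℕ) (ε : P2 R →ₐ[R] P2 R) (a c : K), Good p M ε ∧ NC p (ε (X 1)) ∧ a ≠ 0 ∧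
    io R K (ε (X 1)) = C a * b + C c

/-- adapted residual bases in the frame `ε` -/
structure AB {κ K : Type*} [Field κ] [Field K] [Algebra R K] (res : R →+* κ) (p : R) (P : P2 R)
    (Δ : Derivation K (P2 K) (P2 K)) (ε : P2 R →ₐ[R] P2 R) where
  /-- residual coordinates -/
  r : P2 R →+* Polynomial (Polynomial κ)
  rC : ∀ a, r (C a) = Polynomial.C (Polynomial.C (res a))
  rs : Function.Surjective r
  rk : ∀ f, r f = 0 → C p ∣ f
  /-- the element `P` in the frame -/
  Pe : P2 R
  hPe : ε Pe = P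
  /-- residue of `P` -/
  rho : Polynomial κ
  hrho : r Pe = Polynomial.C rho
  /-- number of basis elements -/
  N : ℕ
  hN : 0 < N
  /-- the adapted elements -/
  Q : ℕ → P2 R
  /-- their residues -/
  q : ℕ → Polynomial κ
  q0 : q 0 = 1
  hQ : ∀ n, n < N → ∀ l, r (Q (n + N * l)) = Polynomial.C (q n) * Polynomial.X ^ l
  span : ∀ f : Polynomial κ, ∃ a : ℕ → Polynomial κ, f = ∑ n ∈ Finset.range N, (a n).comp rho * q n
  ind : ∀ a : ℕ → Polynomial κ, ∑ n ∈ Finset.range N, (a n).comp rho * q n = 0 →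
    ∀ n, n < N → a n = 0
  deg : ∀ n, (⇑Δ)^[n + 1] (io R K (ε (Q n))) = 0 ∧
    ∃ l : K, l ≠ 0 ∧ (⇑Δ)^[n] (io R K (ε (Q n))) = C l

end Pool.Agent.R2F
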