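import Mathlib
import Pool.Agent.R2F.Defs

/-!
# two polynomials satisfying a homogeneous relation

Proof. `P2 F` is a UFD: `u = g u'`, `v = g v'`, `u', v'` without common prime factor (`UniqueFactorizationMonoid.exists_reduced_factors` or gcd), cancel `g ^ m`:
`∑ i ∈ range (m+1), C (c i) * u' ^ i * v' ^ (m - i) = 0`, so `v' ∣ C (c m) * u' ^ m` and `u' ∣ C (c 0) * v' ^ m`; hence `u'`, `v'` are units, i.e. nonzero constants.
-/

set_option autoImplicit false

open MvPolynomial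

namespace Pool.Agent.R2F

namespace AlgCAux

theorem unit_const {F : Type*} [Field F] {u : P2 F} (hu : IsUnit u) : ∃ r : F, r ≠ 0 ∧ u = C r := by
  obtain ⟨r, hr, h⟩ := MvPolynomial.isUnit_iff_eq_C_of_isReduced.1 hu
  exact ⟨r, hr.ne_zero, h⟩

theorem unit_C {F : Type*} [Field F] {a : F} (ha : a ≠ 0) : IsUnit (C a : P2 F) :=
  (Ne.isUnit ha).map (C : F →+* P2 F)

end AlgCAux

theorem const_ratio {F : Type*} [Field F] (u v : P2 F) (hu : u ≠ 0) (hv : v ≠ 0) (m : ℕ) (hm : 0 < m)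
    (c : ℕ → F) (h0 : c 0 ≠ 0) (h1 : c m ≠ 0)
    (h : ∑ i ∈ Finset.range (m + 1), C (c i) * u ^ i * v ^ (m - i) = 0) :
    ∃ l : F, l ≠ 0 ∧ u = C l * v := by
  obtain ⟨u', v', g, hrel, hgu, hgv⟩ := UniqueFactorizationMonoid.exists_reduced_factors u hu v
  have hg : g ≠ 0 := by
    rintro rfl
    exact hu (by rw [← hgu, zero_mul])
  have h2 : ∑ i ∈ Finset.range (m + 1), C (c i) * u' ^ i * v' ^ (m - i) = 0 := by
    have h3 : g ^ m * ∑ i ∈ Finset.range (m + 1), C (c i) * u' ^ i * v' ^ (m - i) = 0 := by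
      rw [← h, Finset.mul_sum]
      refine Finset.sum_congr rfl fun i hi => ?_
      have hi' : i ≤ m := Nat.lt_succ_iff.1 (Finset.mem_range.1 hi)
      have e : g ^ m = g ^ i * g ^ (m - i) := by rw [← pow_add, Nat.add_sub_cancel' hi']
      rw [← hgu, ← hgv, mul_pow, mul_pow, e]
      ring
    exact (mul_eq_zero.1 h3).resolve_left (pow_ne_zero _ hg)
  have hv' : IsUnit v' := by
    have hd : v' ∣ C (c m) * u' ^ m := by
      rw [Finset.sum_range_succ, Nat.sub_self, pow_zero, mul_one] at h2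
      rw [eq_neg_of_add_eq_zero_right h2]
      refine (Finset.dvd_sum fun i hi => ?_).neg_right
      have : m - i ≠ 0 := Nat.sub_ne_zero_of_lt (Finset.mem_range.1 hi)
      exact (dvd_pow_self v' this).mul_left _
    have hd' : v' ∣ u' ^ m := (AlgCAux.unit_C h1).dvd_mul_left.1 hd
    exact hrel.pow_left hd' dvd_rfl
  have hu' : IsUnit u' := by
    have hd : u' ∣ C (c 0) * v' ^ m := by
      rw [Finset.sum_range_succ', pow_zero, mul_one, Nat.sub_zero] at h2
      rw [eq_neg_of_add_eq_zero_right h2]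
      refine (Finset.dvd_sum fun i hi => ?_).neg_right
      exact ((dvd_pow_self u' (Nat.succ_ne_zero i)).mul_left _).mul_right _
    have hd' : u' ∣ v' ^ m := (AlgCAux.unit_C h0).dvd_mul_left.1 hd
    exact hrel.symm.pow_left hd' dvd_rfl
  obtain ⟨r, hr, rfl⟩ := AlgCAux.unit_const hu'
  obtain ⟨s, hs, rfl⟩ := AlgCAux.unit_const hv'
  refine ⟨r / s, div_ne_zero hr hs, ?_⟩
  rw [← hgu, ← hgv, mul_comm g (C s), ← mul_assoc, ← C_mul, div_mul_cancel₀ _ hs, mul_comm]

end Pool.Agent.R2F
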