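import Mathlib
import Pool.Agent.R2F.AlgC

/-!
# homogeneous kernel elements of a locally nilpotent derivation

Proof (`X = X 0`, `Y = X 1`; `LNDHom.fact_closed`: the kernel is factorially closed; `LNDHom.iter_mul_top`, `LNDHom.exists_top`). If `D X = 0` then `D P = ∂_Y P · D Y`, `D Y ≠ 0`, so `∂_Y P = 0`,
impossible since the coefficient of `Y^n` is not zero and `n > 0`. If `D Y = 0` then `∂_X P = 0`, so `P` is a polynomial in `Y`, `P = c Y^n`: excluded by `hne`. So `D X, D Y ≠ 0`.
Let `a, b ≥ 1` be the `D`-degrees of `X, Y`, `x0 = D^[a] X`, `y0 = D^[b] Y` (in the kernel, not zero).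
(1) By coprimality the monomials of a homogeneous element `P` with `p d_0 + q d_1 = q n` are `X^(q i) Y^(n - p i)`, `P = ∑ c_i X^(q i) Y^(n - p i)`, of `D`-degree `a q i + b (n - p i)`.
 If `a q ≠ b p` these are pairwise different, so `P ≠ 0` has positive `D`-degree (if `n > 0`): contradiction to `D P = 0`. So `a q = b p`; put `xt = x0 / a!`, `yt = y0 / b!`; the Leibniz rule gives
 `D^[b n] (X^(q i) Y^(n - p i)) = (b n)! xt^(q i) yt^(n - p i)` (divided powers `D^[j]/j!` are multiplicative on top terms), so `∑ c_i xt^(q i) yt^(n - p i) = 0` for every homogeneous `P ∈ ker D` with `n > 0`.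
(2) If `P` (as in the theorem) is such, `c_0 ≠ 0` and some `c_m ≠ 0`, `m > 0` maximal: cancel `yt^(n - p m)` and apply `const_ratio` to `u = xt^q`, `v = yt^p`: `xt^q = l yt^p`, `l ≠ 0`.
 This `l` is fixed from now on. `H := X^q - l Y^p`.
(3) CLAIM: for all `n`, every homogeneous `P ∈ ker D` of weight `q n` with non-zero coefficient of `Y^n` is `c H^m`, `p m = n`. Strong induction on `n`. If `P = c Y^n`: `n = 0` (otherwise `Y ∈ ker D`). Otherwise `n > 0` and
 `∑ c_i l^i yt^(p i) yt^(n - p i) = 0`, so `∑ c_i l^i = 0`; modulo `H`, `X^(q i) ≡ l^i Y^(p i)`, so `P ≡ Y^n ∑ c_i l^i = 0`: `P = H P1`, `P1` homogeneous of weight `q (n - p)` (`LNDHom.Gr.H_cancel`), in the kernel (`fact_closed`),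
 with non-zero coefficient of `Y^(n-p)` (compare coefficients of `Y^n`). Induction.
(4) `m > 0`, so `D H = 0`: `q X^(q-1) D X = l p Y^(p-1) D Y`. If `q ≥ 2` (then `p ≥ 2`): `X ∣ D Y` and `Y ∣ D X`, so `b - 1 ≥ a` and `a - 1 ≥ b`: contradiction. So `q = 1`.

In Lean: `P = Y^(n - p m) G(X^q, Y^p)` with `G` the homogenisation (`ShapeAux.Hm`) of a polynomial `f` of degree `m` in one variable; the claim (3) is an induction on `m`.
-/

set_option autoImplicit false

open MvPolynomial

namespace Pool.Agent.R2F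

namespace ShapeAux

variable {F : Type*} [Field F]

/-- `x` has `D`-degree at most `a`, with divided top term `t` -/
def T (D : Derivation F (P2 F) (P2 F)) (a : ℕ) (x t : P2 F) : Prop :=
  (⇑D)^[a + 1] x = 0 ∧ (⇑D)^[a] x = (a.factorial : P2 F) * t

variable {D : Derivation F (P2 F) (P2 F)}

theorem T_mul {a b : ℕ} {x y s t : P2 F} (hx : T D a x s) (hy : T D b y t) :
    T D (a + b) (x * y) (s * t) := by
  have h := LNDHom.iter_mul_top D (a + b) a b x y rfl hx.1 hy.1
  refine ⟨h.2, ?_⟩
  rw [h.1, hx.2, hy.2]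
  have h1 : (((a + b).choose a : ℕ) : P2 F) * (a.factorial : P2 F) * (b.factorial : P2 F) =
      ((a + b).factorial : P2 F) := by
    have h2 : (a + b).choose a * a.factorial * b.factorial = (a + b).factorial := by
      have h3 := Nat.choose_mul_factorial_mul_factorial (Nat.le_add_right a b)
      rwa [Nat.add_sub_cancel_left] at h3
    exact_mod_cast congrArg (Nat.cast : ℕ → P2 F) h2
  rw [← h1]
  ring

theorem T_one : T D 0 1 1 := by
  refine ⟨?_, ?_⟩
  · simp
  · simp

theorem T_pow {a : ℕ} {x s : P2 F} (hx : T D a x s) (n : ℕ) : T D (n * a) (x ^ n) (s ^ n) := by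
  induction n with
  | zero => simpa using T_one (D := D)
  | succ n ih =>
    rw [pow_succ, pow_succ, Nat.add_mul, Nat.one_mul]
    exact T_mul ih hx

theorem T_C (c : F) : T D 0 (C c) (C c) := by
  refine ⟨?_, ?_⟩
  · have h : D (algebraMap F (P2 F) c) = 0 := D.map_algebraMap c
    rw [MvPolynomial.algebraMap_eq] at h
    simp [h]
  · simp

theorem T_sum {ι : Type*} (s : Finset ι) (a : ℕ) (x t : ι → P2 F)
    (h : ∀ i ∈ s, T D a (x i) (t i)) : T D a (∑ i ∈ s, x i) (∑ i ∈ s, t i) := by
  classical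
  have hit : ∀ n : ℕ, (⇑D)^[n] (∑ i ∈ s, x i) = ∑ i ∈ s, (⇑D)^[n] (x i) := by
    intro n
    induction n with
    | zero => rfl
    | succ n ih =>
      rw [Function.iterate_succ_apply', ih, map_sum]
      exact Finset.sum_congr rfl (fun i _ => (Function.iterate_succ_apply' _ _ _).symm)
  refine ⟨?_, ?_⟩
  · rw [hit]
    exact Finset.sum_eq_zero (fun i hi => (h i hi).1)
  · rw [hit, Finset.mul_sum]
    exact Finset.sum_congr rfl (fun i hi => (h i hi).2)

theorem T_lt {a b : ℕ} {x s : P2 F} (hx : T D a x s) (hab : a < b) : T D b x 0 := by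
  refine ⟨LNDHom.iter_zero_of_le D hx.1 (by omega), ?_⟩
  rw [mul_zero]
  exact LNDHom.iter_zero_of_le D hx.1 (by omega)

theorem T_zero_of [CharZero F] {a : ℕ} (ha : 0 < a) {x s : P2 F} (hx : T D a x s)
    (h0 : D x = 0) : s = 0 := by
  obtain ⟨k, rfl⟩ : ∃ k, a = k + 1 := ⟨a - 1, by omega⟩
  have h1 := hx.2
  rw [Function.iterate_succ_apply, h0, iterate_map_zero] at h1
  rcases mul_eq_zero.mp h1.symm with h2 | h2
  · exact absurd h2 (by exact_mod_cast (Nat.factorial_pos _).ne')
  · exact h2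

theorem T_exists [CharZero F] (hln : ∀ x, ∃ n, (⇑D)^[n] x = 0) {x : P2 F} (hx : x ≠ 0) :
    ∃ a t, T D a x t ∧ t ≠ 0 ∧ (⇑D)^[a] x ≠ 0 := by
  obtain ⟨a, ha1, ha2⟩ := LNDHom.exists_top D hx (hln x)
  have hf : ((a.factorial : ℕ) : F) ≠ 0 := by exact_mod_cast (Nat.factorial_pos _).ne'
  have h1 : ((a.factorial : ℕ) : P2 F) * (C ((a.factorial : F)⁻¹) * (⇑D)^[a] x) = (⇑D)^[a] x := by
    rw [← mul_assoc, ← map_natCast (C : F →+* P2 F), ← C_mul, mul_inv_cancel₀ hf, C_1, one_mul]
  refine ⟨a, C ((a.factorial : F)⁻¹) * (⇑D)^[a] x, ⟨ha2, h1.symm⟩, ?_, ha1⟩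
  intro h0
  rw [h0, mul_zero] at h1
  exact ha1 h1.symm

/-- the homogenisation of `f` -/
noncomputable def Hm (m : ℕ) (f : Polynomial F) (u v : P2 F) : P2 F :=
  ∑ i ∈ Finset.range (m + 1), C (f.coeff i) * u ^ i * v ^ (m - i)

theorem T_Hm (m e : ℕ) (f : Polynomial F) {u v s t : P2 F} (hu : T D e u s) (hv : T D e v t) :
    T D (m * e) (Hm m f u v) (Hm m f s t) := by
  refine T_sum _ _ _ _ (fun i hi => ?_)
  have hi' : i ≤ m := by
    have := Finset.mem_range.mp hi
    omega
  have h1 := T_mul (T_mul (T_C (D := D) (f.coeff i)) (T_pow hu i)) (T_pow hv (m - i))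
  have h2 : 0 + i * e + (m - i) * e = m * e := by
    rw [zero_add, ← Nat.add_mul]
    congr 1
    omega
  rwa [h2] at h1

theorem Hm_zero_right (m : ℕ) (f : Polynomial F) (u : P2 F) : Hm m f u 0 = C (f.coeff m) * u ^ m := by
  unfold Hm
  rw [Finset.sum_range_succ, Finset.sum_eq_zero, zero_add, Nat.sub_self, pow_zero, mul_one]
  intro i hi
  have := Finset.mem_range.mp hi
  rw [zero_pow (by omega), mul_zero]

theorem Hm_zero_left (m : ℕ) (f : Polynomial F) (v : P2 F) : Hm m f 0 v = C (f.coeff 0) * v ^ m := by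
  unfold Hm
  rw [Finset.sum_range_succ', Finset.sum_eq_zero, zero_add, Nat.sub_zero, pow_zero, mul_one]
  intro i _
  rw [zero_pow (by omega), mul_zero, zero_mul]

theorem Hm_root (m : ℕ) (f : Polynomial F) (hf : f.natDegree ≤ m) (l : F) (v : P2 F) :
    Hm m f (C l * v) v = C (f.eval l) * v ^ m := by
  unfold Hm
  rw [Polynomial.eval_eq_sum_range' (Nat.lt_succ_of_le hf), map_sum, Finset.sum_mul]
  refine Finset.sum_congr rfl (fun i hi => ?_)
  have hi' : i ≤ m := by
    have := Finset.mem_range.mp hi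
    omega
  have h1 : v ^ m = v ^ i * v ^ (m - i) := by rw [← pow_add]; congr 1; omega
  rw [h1, mul_pow, C_mul, C_pow]
  ring

theorem Hm_mul (m : ℕ) (g : Polynomial F) (hg : g.natDegree ≤ m) (l : F) (u v : P2 F) :
    Hm (m + 1) ((Polynomial.X - Polynomial.C l) * g) u v = (u - C l * v) * Hm m g u v := by
  have h0 : ((Polynomial.X - Polynomial.C l) * g).coeff 0 = -(l * g.coeff 0) := by
    simp [sub_mul]
  have h1 : ∀ i, ((Polynomial.X - Polynomial.C l) * g).coeff (i + 1) =
      g.coeff i - l * g.coeff (i + 1) := by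
    intro i
    simp [sub_mul, Polynomial.coeff_X_mul]
  have h2 : g.coeff (m + 1) = 0 := Polynomial.coeff_eq_zero_of_natDegree_lt (by omega)
  have h3 : v * Hm m g u v =
      ∑ i ∈ Finset.range (m + 1), C (g.coeff (i + 1)) * u ^ (i + 1) * v ^ (m + 1 - (i + 1)) +
        C (g.coeff 0) * u ^ 0 * v ^ (m + 1 - 0) := by
    rw [← Finset.sum_range_succ' (fun i => C (g.coeff i) * u ^ i * v ^ (m + 1 - i)) (m + 1),
      Finset.sum_range_succ, h2, C_0, zero_mul, zero_mul, add_zero]
    unfold Hm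
    rw [Finset.mul_sum]
    refine Finset.sum_congr rfl (fun i hi => ?_)
    have := Finset.mem_range.mp hi
    rw [show m + 1 - i = (m - i) + 1 by omega, pow_succ]
    ring
  have h4 : u * Hm m g u v =
      ∑ i ∈ Finset.range (m + 1), C (g.coeff i) * u ^ (i + 1) * v ^ (m + 1 - (i + 1)) := by
    unfold Hm
    rw [Finset.mul_sum]
    refine Finset.sum_congr rfl (fun i _ => ?_)
    rw [show m + 1 - (i + 1) = m - i by omega, pow_succ]
    ring
  have h5 : (u - C l * v) * Hm m g u v = u * Hm m g u v - C l * (v * Hm m g u v) := by ring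
  have h6 : Hm (m + 1) ((Polynomial.X - Polynomial.C l) * g) u v =
      ∑ i ∈ Finset.range (m + 1),
        C (g.coeff i - l * g.coeff (i + 1)) * u ^ (i + 1) * v ^ (m + 1 - (i + 1)) +
        C (-(l * g.coeff 0)) * u ^ 0 * v ^ (m + 1 - 0) := by
    unfold Hm
    rw [Finset.sum_range_succ', h0]
    congr 1
    refine Finset.sum_congr rfl (fun i _ => ?_)
    rw [h1]
  rw [h6, h5, h4, h3, mul_add, Finset.mul_sum, ← sub_sub, ← Finset.sum_sub_distrib, sub_eq_add_neg]
  congr 1
  · refine Finset.sum_congr rfl (fun i _ => ?_)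
    rw [C_sub, C_mul]
    ring
  · rw [C_neg, C_mul]
    ring

/-- the representation of a homogeneous polynomial -/
theorem repr (p q : ℕ) (hq : 0 < q) (hp : 0 < p) (hpq : p.Coprime q) (P : P2 F) (n : ℕ)
    (hhom : ∀ d ∈ P.support, p * d 0 + q * d 1 = q * n) :
    ∃ f : Polynomial F, p * f.natDegree ≤ n ∧ f.coeff 0 = coeff (Finsupp.single 1 n) P ∧
      P = X 1 ^ (n - p * f.natDegree) * Hm f.natDegree f (X 0 ^ q) (X 1 ^ p) := by
  classical
  set mo : ℕ → (Fin 2 →₀ ℕ) := fun i => Finsupp.single 0 (q * i) + Finsupp.single 1 (n - p * i)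
    with hmo
  have hmo0 : ∀ i, mo i 0 = q * i := by intro i; simp [hmo]
  have hmo1 : ∀ i, mo i 1 = n - p * i := by intro i; simp [hmo]
  set N := n / p with hN
  have hNle : ∀ i, i ≤ N ↔ p * i ≤ n := by
    intro i
    rw [hN, Nat.le_div_iff_mul_le hp, mul_comm]
  set f : Polynomial F := ∑ i ∈ Finset.range (N + 1), Polynomial.monomial i (coeff (mo i) P)
    with hf
  have hfc : ∀ i, i ≤ N → f.coeff i = coeff (mo i) P := by
    intro i hi
    rw [hf, Polynomial.finsetSum_coeff]
    simp only [Polynomial.coeff_monomial]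
    rw [Finset.sum_ite_eq' , if_pos (Finset.mem_range.mpr (by omega))]
  have hfd : f.natDegree ≤ N := by
    rw [hf]
    refine Polynomial.natDegree_sum_le_of_forall_le _ _ (fun i hi => ?_)
    exact (Polynomial.natDegree_monomial_le _).trans (by
      have := Finset.mem_range.mp hi
      omega)
  have hP : P = ∑ i ∈ Finset.range (N + 1), monomial (mo i) (coeff (mo i) P) := by
    ext e
    rw [coeff_sum]
    simp only [coeff_monomial]
    by_cases he : e ∈ P.support
    · have h1 := hhom e he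
      have h2 : q ∣ e 0 := by
        have h3 : q ∣ p * e 0 := by
          have h4 : q ∣ p * e 0 + q * e 1 := by rw [h1]; exact dvd_mul_right _ _
          exact (Nat.dvd_add_left (dvd_mul_right _ _)).mp h4
        exact (Nat.Coprime.dvd_of_dvd_mul_left hpq.symm h3)
      obtain ⟨i, hi⟩ := h2
      have h5 : p * i + e 1 = n := by
        have h6 : q * (p * i + e 1) = q * n := by rw [← h1, hi]; ring
        exact Nat.eq_of_mul_eq_mul_left hq h6
      have h7 : mo i = e := by
        ext j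
        rcases j with ⟨j, hj⟩
        interval_cases j
        · exact (hmo0 i).trans hi.symm
        · exact (hmo1 i).trans (by
            change _ = e 1
            omega)
      rw [Finset.sum_eq_single i]
      · rw [if_pos h7, h7]
      · intro j _ hji
        rw [if_neg]
        intro h8
        apply hji
        have h9 : q * j = q * i := by rw [← hmo0 j, ← hmo0 i, h8, h7]
        exact Nat.eq_of_mul_eq_mul_left hq h9
      · intro h8
        exact absurd (Finset.mem_range.mpr (by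
          have := (hNle i).mpr (by omega)
          omega)) h8
    · rw [notMem_support_iff.mp he, Finset.sum_eq_zero]
      intro i _
      split_ifs with h
      · rw [h]; exact notMem_support_iff.mp he
      · rfl
  refine ⟨f, ?_, ?_, ?_⟩
  · exact (hNle _).mp hfd
  · rw [hfc 0 (Nat.zero_le _)]
    congr 1
    simp [hmo]
  · have h1 : ∀ i ∈ Finset.range (N + 1), monomial (mo i) (coeff (mo i) P) =
        C (f.coeff i) * X 0 ^ (q * i) * X 1 ^ (n - p * i) := by
      intro i hi
      rw [hfc i (by have := Finset.mem_range.mp hi; omega)]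
      rw [mul_assoc, X_pow_eq_monomial, X_pow_eq_monomial, monomial_mul, C_mul_monomial]
      simp [hmo]
    rw [Finset.sum_congr rfl h1] at hP
    have h2 : ∑ i ∈ Finset.range (N + 1), C (f.coeff i) * X 0 ^ (q * i) * X 1 ^ (n - p * i) =
        ∑ i ∈ Finset.range (f.natDegree + 1),
          (C (f.coeff i) * X 0 ^ (q * i) * X 1 ^ (n - p * i) : P2 F) := by
      symm
      refine Finset.sum_subset (fun i hi => ?_) (fun i _ hi => ?_)
      · have := Finset.mem_range.mp hi
        exact Finset.mem_range.mpr (by omega)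
      · have h3 : ¬ (i < f.natDegree + 1) := fun h => hi (Finset.mem_range.mpr h)
        rw [Polynomial.coeff_eq_zero_of_natDegree_lt (by omega), C_0, zero_mul, zero_mul]
    rw [h2] at hP
    conv_lhs => rw [hP]
    unfold Hm
    rw [Finset.mul_sum]
    refine Finset.sum_congr rfl (fun i hi => ?_)
    have h3 : i ≤ f.natDegree := by have := Finset.mem_range.mp hi; omega
    have h4 : p * f.natDegree ≤ n := (hNle _).mp hfd
    have h5 : n - p * i = (n - p * f.natDegree) + p * (f.natDegree - i) := by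
      have h6 : p * f.natDegree = p * i + p * (f.natDegree - i) := by
        rw [← Nat.mul_add]; congr 1; omega
      omega
    rw [h5, pow_add, pow_mul, pow_mul]
    ring

/-- the claim -/
theorem claim [CharZero F] (hln : ∀ x, ∃ n, (⇑D)^[n] x = 0) {U V s t : P2 F} {e : ℕ} (he : 0 < e)
    (hU : T D e U s) (hV : T D e V t) (ht : t ≠ 0) (l : F) (hl : s = C l * t) (m : ℕ) :
    ∀ f : Polynomial F, f.natDegree = m → f ≠ 0 → Hm m f U V ≠ 0 → D (Hm m f U V) = 0 →
      Hm m f U V = C f.leadingCoeff * (U - C l * V) ^ m := by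
  induction m with
  | zero =>
    intro f hf _ _ _
    have h1 : f.coeff 0 = f.leadingCoeff := by rw [Polynomial.leadingCoeff, hf]
    unfold Hm
    simp [h1]
  | succ m ih =>
    intro f hf hf0 hH0 hD
    have h1 : Hm (m + 1) f s t = 0 :=
      T_zero_of (Nat.mul_pos (Nat.succ_pos _) he) (T_Hm (m + 1) e f hU hV) hD
    rw [hl, Hm_root (m + 1) f hf.le] at h1
    have h2 : f.eval l = 0 := by
      rcases mul_eq_zero.mp h1 with h3 | h3
      · exact (C_eq_zero).mp h3
      · exact absurd h3 (pow_ne_zero _ ht)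
    obtain ⟨g, hg⟩ := Polynomial.dvd_iff_isRoot.mpr h2
    have hg0 : g ≠ 0 := by
      intro h; rw [h, mul_zero] at hg; exact hf0 hg
    have hgd : g.natDegree = m := by
      have h3 : f.natDegree = 1 + g.natDegree := by
        rw [hg, Polynomial.natDegree_mul (Polynomial.X_sub_C_ne_zero l) hg0,
          Polynomial.natDegree_X_sub_C]
      omega
    have hlead : f.leadingCoeff = g.leadingCoeff := by
      rw [hg, Polynomial.leadingCoeff_mul, Polynomial.leadingCoeff_X_sub_C, one_mul]
    have h4 : Hm (m + 1) f U V = (U - C l * V) * Hm m g U V := by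
      rw [← Hm_mul m g hgd.le l U V, ← hg]
    have h5 : Hm m g U V ≠ 0 := by
      intro h; rw [h4, h, mul_zero] at hH0; exact hH0 rfl
    have h6 : D (Hm m g U V) = 0 := by
      refine LNDHom.fact_closed D hln (Hm m g U V) (U - C l * V) ?_ ?_
      · rw [mul_comm, ← h4]; exact hD
      · rw [mul_comm, ← h4]; exact hH0
    rw [h4, ih g hgd hg0 h5 h6, hlead, pow_succ]
    ring

/-- the degree of a factor -/
theorem deg_lt [CharZero F] (hln : ∀ x, ∃ n, (⇑D)^[n] x = 0) {y z : P2 F} {b k : ℕ}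
    (hy : (⇑D)^[b] y ≠ 0) (hz : z ≠ 0) (hk : (⇑D)^[k] (y * z) = 0) : b < k := by
  by_contra hlt
  have hy0 : y ≠ 0 := by
    intro h; rw [h, iterate_map_zero] at hy; exact hy rfl
  obtain ⟨b', t', hb', ht', hb2⟩ := T_exists hln hy0
  obtain ⟨c, u, hc, hu, _⟩ := T_exists hln hz
  have h1 : b ≤ b' := by
    by_contra h
    exact hy (LNDHom.iter_zero_of_le D hb'.1 (by omega))
  have h2 := (T_mul hb' hc).2
  rw [LNDHom.iter_zero_of_le D hk (by omega)] at h2
  rcases mul_eq_zero.mp h2.symm with h3 | h3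
  · exact absurd h3 (by exact_mod_cast (Nat.factorial_pos _).ne')
  · exact mul_ne_zero ht' hu h3

theorem X_not_dvd {i j : Fin 2} (hij : i ≠ j) (k : ℕ) : ¬ (X i : P2 F) ∣ X j ^ k := by
  intro h
  have h1 := (X_prime (R := F) (i := i)).dvd_of_dvd_pow h
  rw [X_dvd_X] at h1
  exact hij h1

end ShapeAux

open ShapeAux in
theorem shape {F : Type*} [Field F] [CharZero F] (p q : ℕ) (hq : 0 < q) (hqp : q ≤ p)
    (hpq : p.Coprime q) (D : Derivation F (P2 F) (P2 F)) (hln : ∀ x, ∃ n, (⇑D)^[n] x = 0)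
    (hD0 : ∃ x, D x ≠ 0) (P : P2 F) (n : ℕ) (hn : 0 < n)
    (hhom : ∀ d ∈ P.support, p * d 0 + q * d 1 = q * n) (hDP : D P = 0)
    (hY : coeff (Finsupp.single 1 n) P ≠ 0) (hne : P ≠ C (coeff (Finsupp.single 1 n) P) * X 1 ^ n) :
    q = 1 ∧ ∃ (m : ℕ) (c l : F), p * m = n ∧ c ≠ 0 ∧ l ≠ 0 ∧
      P = C c * (X 0 - C l * X 1 ^ p) ^ m := by
  have hp : 0 < p := by omega
  have hP0 : P ≠ 0 := by
    intro h; rw [h] at hY; simp at hY
  obtain ⟨f, hf1, hf2, hf3⟩ := repr p q hq hp hpq P n hhom
  set m := f.natDegree with hm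
  have hm0 : 0 < m := by
    rcases Nat.eq_zero_or_pos m with h | h
    · exfalso
      apply hne
      conv_lhs => rw [hf3]
      rw [h, ← hf2]
      simp [Hm, mul_comm]
    · exact h
  have hf0 : f.coeff 0 ≠ 0 := by rw [hf2]; exact hY
  have hfne : f ≠ 0 := by intro h; rw [h] at hf0; simp at hf0
  have hfm : f.coeff m ≠ 0 := by
    have : f.leadingCoeff ≠ 0 := Polynomial.leadingCoeff_ne_zero.mpr hfne
    exact this
  obtain ⟨a, xt, hXT, hxt, hX1⟩ := T_exists hln (X_ne_zero (R := F) (0 : Fin 2))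
  obtain ⟨b, yt, hYT, hyt, hY1⟩ := T_exists hln (X_ne_zero (R := F) (1 : Fin 2))
  have hH0 : Hm m f (X 0 ^ q) (X 1 ^ p) ≠ 0 := by
    intro h; rw [h, mul_zero] at hf3; exact hP0 hf3
  have hDH : D (Hm m f (X 0 ^ q) (X 1 ^ p)) = 0 := by
    refine LNDHom.fact_closed D hln _ (X 1 ^ (n - p * m)) ?_ ?_
    · rw [mul_comm, ← hf3]; exact hDP
    · rw [mul_comm, ← hf3]; exact hP0
  have hXq : T D (q * a) (X 0 ^ q) (xt ^ q) := T_pow hXT q
  have hYp : T D (p * b) (X 1 ^ p) (yt ^ p) := T_pow hYT p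
  have hab : q * a = p * b := by
    rcases lt_trichotomy (q * a) (p * b) with h | h | h
    · exfalso
      have h1 := T_zero_of (Nat.mul_pos hm0 (by omega)) (T_Hm m (p * b) f (T_lt hXq h) hYp) hDH
      rw [Hm_zero_left] at h1
      rcases mul_eq_zero.mp h1 with h2 | h2
      · exact hf0 (C_eq_zero.mp h2)
      · exact pow_ne_zero _ (pow_ne_zero _ hyt) h2
    · exact h
    · exfalso
      have h1 := T_zero_of (Nat.mul_pos hm0 (by omega)) (T_Hm m (q * a) f hXq (T_lt hYp h)) hDH
      rw [Hm_zero_right] at h1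
      rcases mul_eq_zero.mp h1 with h2 | h2
      · exact hfm (C_eq_zero.mp h2)
      · exact pow_ne_zero _ (pow_ne_zero _ hxt) h2
  have hb : 0 < b := by
    rcases Nat.eq_zero_or_pos b with h | h
    · exfalso
      rw [h, mul_zero] at hab
      have ha : a = 0 := by
        rcases Nat.mul_eq_zero.mp hab with h1 | h1
        · omega
        · exact h1
      have e0 : D (X 0) = 0 := by
        have := hXT.1
        rw [ha] at this
        simpa using this
      have e1 : D (X 1) = 0 := by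
        have := hYT.1
        rw [h] at this
        simpa using this
      obtain ⟨x, hx⟩ := hD0
      apply hx
      have hD00 : D = 0 := by
        apply derivation_ext
        intro i
        rcases i with ⟨i, hi⟩
        interval_cases i
        · simpa using e0
        · simpa using e1
      rw [hD00]; rfl
    · exact h
  have ha : 0 < a := by
    rcases Nat.eq_zero_or_pos a with h | h
    · exfalso
      rw [h, mul_zero] at hab
      have := Nat.mul_pos hp hb
      omega
    · exact h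
  have hDY : D (X 1) ≠ 0 := fun h => hyt (T_zero_of hb hYT h)
  have hDX : D (X 0) ≠ 0 := fun h => hxt (T_zero_of ha hXT h)
  have hnm : p * m = n := by
    by_contra hnm
    apply hDY
    obtain ⟨r, hr⟩ : ∃ r, n - p * m = r + 1 := ⟨n - p * m - 1, by omega⟩
    rw [hr] at hf3
    have h1 : P = X 1 * (X 1 ^ r * Hm m f (X 0 ^ q) (X 1 ^ p)) := by
      conv_lhs => rw [hf3]
      rw [pow_succ]; ring
    refine LNDHom.fact_closed D hln (X 1) (X 1 ^ r * Hm m f (X 0 ^ q) (X 1 ^ p)) ?_ ?_
    · rw [← h1]; exact hDP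
    · rw [← h1]; exact hP0
  rw [hnm, Nat.sub_self, pow_zero, one_mul] at hf3
  rw [hab] at hXq
  have he : 0 < p * b := Nat.mul_pos hp hb
  have h1 := T_zero_of (Nat.mul_pos hm0 he) (T_Hm m (p * b) f hXq hYp) hDH
  obtain ⟨l, hl0, hl⟩ := const_ratio (xt ^ q) (yt ^ p) (pow_ne_zero _ hxt) (pow_ne_zero _ hyt) m hm0
    f.coeff hf0 hfm h1
  have h2 := claim hln he hXq hYp (pow_ne_zero _ hyt) l hl m f hm.symm hfne hH0 hDH
  have hPH : P = C f.leadingCoeff * (X 0 ^ q - C l * X 1 ^ p) ^ m := by rw [hf3, h2]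
  have hDH' : D (X 0 ^ q - C l * X 1 ^ p) = 0 := by
    obtain ⟨k, hk⟩ : ∃ k, m = k + 1 := ⟨m - 1, by omega⟩
    have h3 : P = (X 0 ^ q - C l * X 1 ^ p) *
        (C f.leadingCoeff * (X 0 ^ q - C l * X 1 ^ p) ^ k) := by
      rw [hPH, hk, pow_succ]; ring
    refine LNDHom.fact_closed D hln (X 0 ^ q - C l * X 1 ^ p)
      (C f.leadingCoeff * (X 0 ^ q - C l * X 1 ^ p) ^ k) ?_ ?_
    · rw [← h3]; exact hDP
    · rw [← h3]; exact hP0
  have hq1 : q = 1 := by
    by_contra hq1
    have hq2 : 2 ≤ q := by omega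
    have hp2 : 2 ≤ p := by omega
    have hDC : D (C l) = 0 := by
      have h : D (algebraMap F (P2 F) l) = 0 := D.map_algebraMap l
      rw [MvPolynomial.algebraMap_eq] at h
      exact h
    have h3 : C (q : F) * X 0 ^ (q - 1) * D (X 0) = C (l * (p : F)) * X 1 ^ (p - 1) * D (X 1) := by
      rw [map_sub, Derivation.leibniz, hDC, smul_zero, add_zero, Derivation.leibniz_pow,
        Derivation.leibniz_pow, sub_eq_zero] at hDH'
      simp only [smul_eq_mul, nsmul_eq_mul] at hDH'
      rw [C_mul, map_natCast, map_natCast, ← mul_assoc] at *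
      rw [hDH']
      ring
    have hqF : (q : F) ≠ 0 := by exact_mod_cast (by omega : q ≠ 0)
    have hpF : (p : F) ≠ 0 := by exact_mod_cast (by omega : p ≠ 0)
    have hu1 : IsUnit (C (q : F) : P2 F) := (isUnit_iff_ne_zero.mpr hqF).map C
    have hu2 : IsUnit (C (l * (p : F)) : P2 F) :=
      (isUnit_iff_ne_zero.mpr (mul_ne_zero hl0 hpF)).map C
    have d0 : (X 0 : P2 F) ∣ D (X 1) := by
      have h4 : (X 0 : P2 F) ∣ C (l * (p : F)) * X 1 ^ (p - 1) * D (X 1) := by
        rw [← h3, show q - 1 = (q - 2) + 1 by omega, pow_succ]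
        exact ⟨C (q : F) * X 0 ^ (q - 2) * D (X 0), by ring⟩
      rcases (X_prime (R := F) (i := (0 : Fin 2))).dvd_or_dvd h4 with h5 | h5
      · rcases (X_prime (R := F) (i := (0 : Fin 2))).dvd_or_dvd h5 with h6 | h6
        · exact absurd (isUnit_of_dvd_unit h6 hu2) (X_prime (R := F) (i := (0 : Fin 2))).not_isUnit
        · exact absurd h6 (X_not_dvd (by decide) _)
      · exact h5
    have d1 : (X 1 : P2 F) ∣ D (X 0) := by
      have h4 : (X 1 : P2 F) ∣ C (q : F) * X 0 ^ (q - 1) * D (X 0) := by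
        rw [h3, show p - 1 = (p - 2) + 1 by omega, pow_succ]
        exact ⟨C (l * (p : F)) * X 1 ^ (p - 2) * D (X 1), by ring⟩
      rcases (X_prime (R := F) (i := (1 : Fin 2))).dvd_or_dvd h4 with h5 | h5
      · rcases (X_prime (R := F) (i := (1 : Fin 2))).dvd_or_dvd h5 with h6 | h6
        · exact absurd (isUnit_of_dvd_unit h6 hu1) (X_prime (R := F) (i := (1 : Fin 2))).not_isUnit
        · exact absurd h6 (X_not_dvd (by decide) _)
      · exact h5
    obtain ⟨z0, hz0⟩ := d0
    obtain ⟨z1, hz1⟩ := d1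
    have k1 : a < b := by
      refine deg_lt hln (y := X 0) (z := z0) hX1 ?_ ?_
      · intro h; rw [h, mul_zero] at hz0; exact hDY hz0
      · rw [← hz0, ← Function.iterate_succ_apply]; exact hYT.1
    have k2 : b < a := by
      refine deg_lt hln (y := X 1) (z := z1) hY1 ?_ ?_
      · intro h; rw [h, mul_zero] at hz1; exact hDX hz1
      · rw [← hz1, ← Function.iterate_succ_apply]; exact hXT.1
    omega
  refine ⟨hq1, m, f.leadingCoeff, l, hnm, Polynomial.leadingCoeff_ne_zero.mpr hfne, hl0, ?_⟩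
  rw [hPH, hq1, pow_one]

end Pool.Agent.R2F
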