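import Mathlib
import Pool.Agent.R2F.Defs

/-!
# leading part of a locally nilpotent derivation

Proof. `G := LNDHom.mvGr F w hw` (grading by the weights; `top_mul`, `H_mul`, `exists_top`, `fin`, `mv_HD` in Pool/Agent/LNDHom/Gr.lean, Mv.lean).
Since `D ≠ 0`, some `D (X i) ≠ 0` (`derivation_ext`). Let `δ` be the maximum over the `i` with `D (X i) ≠ 0` of (top weight of `D (X i)`) `- w i`,
`D' := mkDerivation F (fun i => weightedHomogeneousComponent w (w i + δ) (D (X i)))`; `D' (X i) ≠ 0` for the `i` attaining the maximum, and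
`weightedHomogeneousComponent w d (D (X i)) = 0` for `d > w i + δ` (all `i`). CLAIM: if all components of `P` of weight `> N` vanish, then all components
of `D P` of weight `> N + δ` vanish and `comp (N + δ) (D P) = D' (comp N P)`. By linearity (`D P = ∑ i, D (X i) * pderiv i P`, `D' P = ∑ i, D' (X i) * pderiv i P`,
`pderiv i` maps weight `d` to weight `d - w i`: `IsWeightedHomogeneous.pderiv`) and `G.top_mul`. Hence for homogeneous `x` of weight `N`: `D'^[n] x = comp (N + n δ) (D^[n] x)`,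
so `D'^[n] x = 0` if `D^[n] x = 0`; every `x` is a finite sum of homogeneous ones, so `D'` is locally nilpotent. The last statement is the claim with `D P = 0`.
-/

set_option autoImplicit false

open MvPolynomial

namespace Pool.Agent.R2F

namespace LeadAux

open Pool.Agent.LNDHom

variable {F : Type*} [Field F] (w : Fin 2 → ℤ) (hw : ∀ i, 0 < w i)

/-- top weights of products -/
theorem mul_top (G : Gr F (P2 F)) {x y : P2 F} {P Y : ℤ} (hP : ∀ d, P < d → G.comp d x = 0)
    (hY : ∀ d, Y < d → G.comp d y = 0) (d : ℤ) (hd : P + Y < d) : G.comp d (x * y) = 0 := by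
  have h1 := G.top_mul (P := P) (Y := d - P) hP (fun e he => hY e (by omega))
  rw [show P + (d - P) = d by ring, hY (d - P) (by omega), mul_zero] at h1
  exact h1

theorem pderiv_HD (i : Fin 2) : (mvGr F w hw).HD (pderiv i) (-w i) := by
  apply mv_HD hw
  intro j
  by_cases h : j = i
  · subst h
    rw [pderiv_X_self, add_neg_cancel]
    exact isWeightedHomogeneous_one F w
  · rw [pderiv_X_of_ne h]
    exact isWeightedHomogeneous_zero F w _

theorem der_eq (D : Derivation F (P2 F) (P2 F)) (P : P2 F) :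
    D P = D (X 0) * pderiv 0 P + D (X 1) * pderiv 1 P := by
  have h : D = D (X 0) • pderiv 0 + D (X 1) • pderiv 1 := by
    apply derivation_ext
    intro i
    rcases i with ⟨i, hi⟩
    interval_cases i
    · change D (X 0) = D (X 0) * pderiv 0 (X 0) + D (X 1) * pderiv 1 (X 0)
      rw [pderiv_X_self, pderiv_X_of_ne (by decide)]
      ring
    · change D (X 1) = D (X 0) * pderiv 0 (X 1) + D (X 1) * pderiv 1 (X 1)
      rw [pderiv_X_self, pderiv_X_of_ne (by decide)]
      ring
  conv_lhs => rw [h]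
  rfl

/-- the maximal shift -/
theorem exists_shift (D : Derivation F (P2 F) (P2 F)) (hD0 : ∃ x, D x ≠ 0) :
    ∃ δ : ℤ, (∀ i, ∀ d, w i + δ < d → (mvGr F w hw).comp d (D (X i)) = 0) ∧
      ∃ i, (mvGr F w hw).comp (w i + δ) (D (X i)) ≠ 0 := by
  have hb : ∀ i : Fin 2, ∃ t : ℤ, ∀ d, t < d → (mvGr F w hw).comp d (D (X i)) = 0 := by
    intro i
    by_cases h : D (X i) = 0
    · exact ⟨0, fun d _ => by rw [h, map_zero]⟩
    · obtain ⟨t, -, ht⟩ := (mvGr F w hw).exists_top h
      exact ⟨t, ht⟩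
  choose t ht using hb
  have hne : ∃ i, D (X i) ≠ 0 := by
    by_contra hcon
    push Not at hcon
    obtain ⟨x, hx⟩ := hD0
    apply hx
    rw [der_eq, hcon, hcon, zero_mul, zero_mul, add_zero]
  obtain ⟨i₀, hi₀⟩ := hne
  obtain ⟨e₀, he₀, -⟩ := (mvGr F w hw).exists_top hi₀
  obtain ⟨δ, ⟨i, hi⟩, hδ⟩ := Int.exists_greatest_of_bdd
    (P := fun e => ∃ i, (mvGr F w hw).comp (w i + e) (D (X i)) ≠ 0)
    ⟨max (t 0 - w 0) (t 1 - w 1), by
      rintro z ⟨i, hi⟩
      by_contra hz
      apply hi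
      apply ht
      rcases i with ⟨i, hi'⟩
      interval_cases i
      · have : t 0 - w 0 < z := lt_of_le_of_lt (le_max_left _ _) (not_le.1 hz)
        change t 0 < w 0 + z
        omega
      · have : t 1 - w 1 < z := lt_of_le_of_lt (le_max_right _ _) (not_le.1 hz)
        change t 1 < w 1 + z
        omega⟩
    ⟨e₀ - w i₀, i₀, by rw [show w i₀ + (e₀ - w i₀) = e₀ by ring]; exact he₀⟩
  refine ⟨δ, fun j d hd => ?_, i, hi⟩
  by_contra h
  have h1 := hδ (d - w j) ⟨j, by rw [show w j + (d - w j) = d by ring]; exact h⟩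
  omega

/-- the key claim -/
theorem claim (D : Derivation F (P2 F) (P2 F)) (δ : ℤ)
    (hδ : ∀ i, ∀ d, w i + δ < d → (mvGr F w hw).comp d (D (X i)) = 0)
    (D' : Derivation F (P2 F) (P2 F))
    (hD' : ∀ i, D' (X i) = (mvGr F w hw).comp (w i + δ) (D (X i))) (P : P2 F) (N : ℤ)
    (hP : ∀ d, N < d → (mvGr F w hw).comp d P = 0) :
    (∀ d, N + δ < d → (mvGr F w hw).comp d (D P) = 0) ∧
      (mvGr F w hw).comp (N + δ) (D P) = D' ((mvGr F w hw).comp N P) := by
  have h1 : ∀ i d, N - w i < d → (mvGr F w hw).comp d (pderiv i P) = 0 := by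
    intro i d hd
    have h2 := pderiv_HD (F := F) w hw i (d + w i) P
    rw [hP _ (by omega), map_zero, show d + w i + -w i = d by ring] at h2
    exact h2.symm
  constructor
  · intro d hd
    rw [der_eq, map_add, mul_top _ (hδ 0) (h1 0) d (by omega),
      mul_top _ (hδ 1) (h1 1) d (by omega), add_zero]
  · rw [der_eq, der_eq D', map_add, hD', hD']
    have h3 : ∀ i, (mvGr F w hw).comp (N + δ) (D (X i) * pderiv i P) =
        (mvGr F w hw).comp (w i + δ) (D (X i)) * pderiv i ((mvGr F w hw).comp N P) := by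
      intro i
      have h4 := (mvGr F w hw).top_mul (hδ i) (h1 i)
      rw [show w i + δ + (N - w i) = N + δ by ring] at h4
      rw [h4, pderiv_HD (F := F) w hw i N P, show N + -w i = N - w i by ring]
    rw [h3, h3]

theorem iter_zeroZ (D : Derivation F (P2 F) (P2 F)) {n m : ℕ} (h : n ≤ m) {x : P2 F}
    (hx : (⇑D)^[n] x = 0) : (⇑D)^[m] x = 0 := by
  obtain ⟨j, rfl⟩ := Nat.exists_eq_add_of_le' h
  rw [Function.iterate_add_apply, hx, iterate_map_zero]

theorem iter_sumZ (D : Derivation F (P2 F) (P2 F)) (n : ℕ) (s : Finset ℤ) (f : ℤ → P2 F) :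
    (⇑D)^[n] (∑ d ∈ s, f d) = ∑ d ∈ s, (⇑D)^[n] (f d) := by
  induction n generalizing f with
  | zero => rfl
  | succ n ih => rw [Function.iterate_succ_apply, map_sum, ih]; rfl

end LeadAux

open LeadAux Pool.Agent.LNDHom

theorem exists_lead {F : Type*} [Field F] (w : Fin 2 → ℤ) (hw : ∀ i, 0 < w i)
    (D : Derivation F (P2 F) (P2 F)) (hln : ∀ x, ∃ n, (⇑D)^[n] x = 0) (hD0 : ∃ x, D x ≠ 0) :
    ∃ D' : Derivation F (P2 F) (P2 F), (∀ x, ∃ n, (⇑D')^[n] x = 0) ∧ (∃ x, D' x ≠ 0) ∧
      ∀ (P : P2 F) (N : ℤ), D P = 0 → (∀ d, N < d → weightedHomogeneousComponent w d P = 0) →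
        D' (weightedHomogeneousComponent w N P) = 0 := by
  classical
  obtain ⟨δ, hδ, i, hi⟩ := exists_shift w hw D hD0
  let D' : Derivation F (P2 F) (P2 F) :=
    mkDerivation F (fun i => (mvGr F w hw).comp (w i + δ) (D (X i)))
  have hD' : ∀ i, D' (X i) = (mvGr F w hw).comp (w i + δ) (D (X i)) :=
    fun i => mkDerivation_X F _ i
  have hcl := fun P N => claim w hw D δ hδ D' hD' P N
  have hiter : ∀ (N : ℤ) (x : P2 F), (mvGr F w hw).H N x → ∀ n : ℕ,
      (∀ d, N + n * δ < d → (mvGr F w hw).comp d ((⇑D)^[n] x) = 0) ∧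
        (mvGr F w hw).comp (N + n * δ) ((⇑D)^[n] x) = (⇑D')^[n] x := by
    intro N x hx n
    induction n with
    | zero =>
      constructor
      · intro d hd
        exact (mvGr F w hw).H_ne hx (by simp at hd; omega)
      · have hx' : (mvGr F w hw).comp N x = x := hx
        simpa using hx'
    | succ n ih =>
      obtain ⟨h1, h2⟩ := hcl ((⇑D)^[n] x) (N + n * δ) ih.1
      have e : N + ((n + 1 : ℕ) : ℤ) * δ = N + n * δ + δ := by push_cast; ring
      rw [Function.iterate_succ_apply', Function.iterate_succ_apply', e]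
      exact ⟨h1, by rw [h2, ih.2]⟩
  refine ⟨D', ?_, ⟨X i, by rw [hD']; exact hi⟩, ?_⟩
  · intro x
    obtain ⟨s, -, hs⟩ := (mvGr F w hw).fin x
    choose n hn using fun d => hln ((mvGr F w hw).comp d x)
    refine ⟨s.sup n, ?_⟩
    rw [hs, iter_sumZ]
    refine Finset.sum_eq_zero fun d hd => ?_
    have h1 := iter_zeroZ D (Finset.le_sup (f := n) hd) (hn d)
    rw [← (hiter d _ ((mvGr F w hw).H_comp d x) (s.sup n)).2, h1, map_zero]
  · intro P N hP hN
    have h1 := (hcl P N hN).2
    rw [hP, map_zero] at h1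
    exact h1.symm

end Pool.Agent.R2F
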