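import Mathlib
import Pool.Agent.R2F.Defs
import Pool.Agent.LNDHom.Jac

/-!
# a locally nilpotent derivation in two variables has a nonconstant constant

Proof. If `D = 0` take `X 0`. Otherwise `LNDHom.exists_deg` gives `r` with `D r ≠ 0`, `D (D r) = 0`.
Suppose all kernel elements have total degree `0`, i.e. are constants `C a`. Then every `K`-derivation
`E` vanishes on the kernel, so `D r * E x = E r * D x` (`LNDHom.proportional`). Apply this to
`E = pderiv i`, `x = X j`: `D r = (∂_0 r) (D X_0)`, so `∂_0 r ≠ 0`, `0 = (∂_0 r) (D X_1)`, so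
`D X_1 = 0`, and `D r = (∂_1 r) (D X_1) = 0`: contradiction.
-/

set_option autoImplicit false

open MvPolynomial

namespace Pool.Agent.R2F

theorem exists_nonconst_ker {K : Type*} [Field K] [CharZero K] (D : Derivation K (P2 K) (P2 K))
    (hln : ∀ x, ∃ n, (⇑D)^[n] x = 0) : ∃ P : P2 K, D P = 0 ∧ 0 < P.totalDegree := by
  by_cases hD0 : ∃ x, D x ≠ 0
  swap
  · push Not at hD0
    exact ⟨X 0, hD0 _, by rw [totalDegree_X]; exact one_pos⟩
  by_contra hcon
  push Not at hcon
  obtain ⟨r, hr1, hr2⟩ := LNDHom.exists_deg D hln hD0 1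
  have hr0 : D r ≠ 0 := by simpa using hr1
  have hrr : D (D r) = 0 := by simpa [Function.iterate_succ_apply] using hr2
  have hE : ∀ (E : Derivation K (P2 K) (P2 K)) (x : P2 K), D x = 0 → E x = 0 := by
    intro E x hx
    have h1 : x.totalDegree = 0 := Nat.le_zero.1 (hcon x hx)
    rw [totalDegree_eq_zero_iff_eq_C.1 h1]
    exact E.map_algebraMap _
  have key := fun (i j : Fin 2) =>
    LNDHom.proportional D (pderiv i) hln (hE (pderiv i)) hrr hr0 (X j)
  have h00 := key 0 0
  have h01 := key 0 1
  have h11 := key 1 1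
  rw [pderiv_X_self, mul_one] at h00 h11
  rw [pderiv_X_of_ne (by decide), mul_zero] at h01
  rcases mul_eq_zero.1 h01.symm with h | h
  · exact hr0 (by rw [h00, h, zero_mul])
  · exact hr0 (by rw [h11, h, mul_zero])

end Pool.Agent.R2F
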