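import Mathlib
import Pool.Agent.R2F.Lead
import Pool.Agent.R2F.Shape

/-!
# normalising the leading form

Proof. `n = P.totalDegree`. `exists_lead` with `w = ![1, 1]` (`weightedHomogeneousComponent ![1,1] (n : ℤ) P` = `homogeneousComponent n P`) gives `D'` with `D' P̂ = 0`, `P̂ = homogeneousComponent n P ≠ 0`.
If the coefficient of `X 1 ^ n` in `P̂` is not zero: either `P̂ = c X 1 ^ n` (take `φ = 1`) or `shape` with `p = q = 1`: `P̂ = c (X 0 - l X 1)^n`; take `φ = swapE * elemE 1 (l X)` as functions: first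
`X 0 ↦ X 0 + l X 1` (then `X 0 - l X 1 ↦ X 0`), then `swapE`. If it is zero: `X 0 ∣ P̂`, so `D' (X 0) = 0` (`LNDHom.fact_closed`), `D' (X 1) ≠ 0`, `pderiv 1 P̂ * D' (X 1) = 0`, so `P̂ = c X 0 ^ n`; take `φ = swapE`.
These `φ` map every variable to a homogeneous element of degree 1, so `totalDegree (φ P) ≤ n` and `homogeneousComponent n (φ P) = φ (homogeneousComponent n P)`
(decompose `P` into homogeneous components). (`φ * ψ` in the group of automorphisms is composition: `AlgEquiv.mul_apply`.)
-/

set_option autoImplicit false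

open MvPolynomial

namespace Pool.Agent.R2F

namespace RedAAux

variable {K : Type*} [Field K]

theorem der_eq2 (D : Derivation K (P2 K) (P2 K)) (y : P2 K) :
    D y = D (X 0) * pderiv 0 y + D (X 1) * pderiv 1 y := by
  have h : D = D (X 0) • pderiv 0 + D (X 1) • pderiv 1 := by
    apply derivation_ext
    intro i
    fin_cases i
    · simp
    · simp
  conv_lhs => rw [h]
  simp

theorem finsupp2 (d : Fin 2 →₀ ℕ) : Finsupp.degree d = d 0 + d 1 := by
  rw [Finsupp.degree_eq_sum, Fin.sum_univ_two]

theorem weight2 (d : Fin 2 →₀ ℕ) :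
    Finsupp.weight (![1, 1] : Fin 2 → ℤ) d = ((Finsupp.degree d : ℕ) : ℤ) := by
  rw [finsupp2, Finsupp.weight_apply, Finsupp.sum_fintype _ _ (by intro i; simp)]
  simp [Fin.sum_univ_two]

theorem whc_eq (P : P2 K) (n : ℕ) :
    weightedHomogeneousComponent (![1, 1] : Fin 2 → ℤ) (n : ℤ) P = homogeneousComponent n P := by
  classical
  ext d
  rw [coeff_weightedHomogeneousComponent, coeff_homogeneousComponent, weight2]
  simp

theorem whc_zero (P : P2 K) (e : ℤ) (he : (P.totalDegree : ℤ) < e) :
    weightedHomogeneousComponent (![1, 1] : Fin 2 → ℤ) e P = 0 := by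
  obtain ⟨m, rfl⟩ : ∃ m : ℕ, e = (m : ℤ) := ⟨e.toNat, by omega⟩
  rw [whc_eq]
  exact homogeneousComponent_eq_zero _ _ (by exact_mod_cast he)

theorem top_ne (P : P2 K) (hP : 0 < P.totalDegree) : homogeneousComponent P.totalDegree P ≠ 0 := by
  intro h
  have hs : P.support.Nonempty := by
    rw [Finset.nonempty_iff_ne_empty]
    intro h0
    rw [MvPolynomial.support_eq_empty] at h0
    rw [h0] at hP
    simp at hP
  obtain ⟨d, hd, hd2⟩ := Finset.exists_mem_eq_sup P.support hs (fun m => Finsupp.degree m)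
  have h1 : P.totalDegree = Finsupp.degree d := by
    rw [← hd2, totalDegree]
    rfl
  have h2 := congrArg (coeff d) h
  rw [coeff_homogeneousComponent, if_pos h1.symm, coeff_zero] at h2
  exact (mem_support_iff.mp hd) h2

/-- an automorphism mapping variables to linear forms preserves the homogeneous submodules -/
theorem lin_map (φ : P2 K →ₐ[K] P2 K) (hφ : ∀ i, (φ (X i)).IsHomogeneous 1) {x : P2 K} {m : ℕ}
    (hx : x.IsHomogeneous m) : (φ x).IsHomogeneous m := by
  have h := hx.aeval (fun i => φ (X i)) (n := 1) hφ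
  rw [one_mul] at h
  have h2 : φ x = aeval (fun i => φ (X i)) x := by
    conv_lhs => rw [aeval_unique φ]
    rfl
  rw [h2]
  exact h

theorem lin_totalDegree (φ : P2 K →ₐ[K] P2 K) (hφ : ∀ i, (φ (X i)).IsHomogeneous 1) (P : P2 K) :
    (φ P).totalDegree ≤ P.totalDegree := by
  conv_lhs => rw [← sum_homogeneousComponent P, map_sum]
  refine totalDegree_finsetSum_le (fun i hi => ?_)
  refine (lin_map φ hφ (homogeneousComponent_isHomogeneous i P)).totalDegree_le.trans ?_
  have := Finset.mem_range.mp hi
  omega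

theorem lin_comp (φ : P2 K →ₐ[K] P2 K) (hφ : ∀ i, (φ (X i)).IsHomogeneous 1) (P : P2 K) :
    homogeneousComponent P.totalDegree (φ P) = φ (homogeneousComponent P.totalDegree P) := by
  have key : φ P = ∑ i ∈ Finset.range (P.totalDegree + 1), φ (homogeneousComponent i P) := by
    rw [← map_sum, sum_homogeneousComponent]
  rw [key, map_sum, Finset.sum_eq_single P.totalDegree]
  · rw [homogeneousComponent_of_mem (n := P.totalDegree)
      ((mem_homogeneousSubmodule _ _).mpr (lin_map φ hφ (homogeneousComponent_isHomogeneous _ P))),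
      if_pos rfl]
  · intro i _ hi
    rw [homogeneousComponent_of_mem (n := i)
      ((mem_homogeneousSubmodule _ _).mpr (lin_map φ hφ (homogeneousComponent_isHomogeneous _ P))),
      if_neg (Ne.symm hi)]
  · intro h
    exact absurd (Finset.mem_range.mpr (Nat.lt_succ_self _)) h

theorem swap_lin : ∀ i, ((swapE K).toAlgHom (X i)).IsHomogeneous 1 := by
  intro i
  fin_cases i
  · show (swapE K (X 0)).IsHomogeneous 1
    rw [swapE_X0]
    exact isHomogeneous_X _ _
  · show (swapE K (X 1)).IsHomogeneous 1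
    rw [swapE_X1]
    exact isHomogeneous_X _ _

theorem elem_lin (l : K) :
    ∀ i, ((elemE (1 : Kˣ) (Polynomial.C l * Polynomial.X)).toAlgHom (X i)).IsHomogeneous 1 := by
  intro i
  fin_cases i
  · show (elemE (1 : Kˣ) (Polynomial.C l * Polynomial.X) (X 0)).IsHomogeneous 1
    rw [elemE_X0, Units.val_one, C_1, one_mul, map_mul, Polynomial.aeval_C, Polynomial.aeval_X]
    refine (isHomogeneous_X _ _).add ?_
    have h := (isHomogeneous_C (Fin 2) l).mul (isHomogeneous_X K (1 : Fin 2))
    rw [zero_add] at h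
    exact h
  · show (elemE (1 : Kˣ) (Polynomial.C l * Polynomial.X) (X 1)).IsHomogeneous 1
    rw [elemE_X1]
    exact isHomogeneous_X _ _

theorem finish (P : P2 K) (φ : P2 K ≃ₐ[K] P2 K) (hmem : φ ∈ tameGroup K)
    (hφ : ∀ i, (φ.toAlgHom (X i)).IsHomogeneous 1) (c : K) (hc : c ≠ 0)
    (h : φ (homogeneousComponent P.totalDegree P) = C c * X 1 ^ P.totalDegree) :
    ∃ φ ∈ tameGroup K, (φ P).totalDegree ≤ P.totalDegree ∧
      ∃ c : K, c ≠ 0 ∧ homogeneousComponent P.totalDegree (φ P) = C c * X 1 ^ P.totalDegree :=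
  ⟨φ, hmem, lin_totalDegree φ.toAlgHom hφ P, c, hc, (lin_comp φ.toAlgHom hφ P).trans h⟩

/-- a homogeneous polynomial without the monomial `X 1 ^ n` is divisible by `X 0` -/
theorem dvd_of_coeff (Q : P2 K) (n : ℕ) (hQ : Q.IsHomogeneous n)
    (h0 : coeff (Finsupp.single 1 n) Q = 0) : X 0 ∣ Q := by
  rw [X_dvd_iff_modMonomial_eq_zero]
  ext d
  rw [coeff_zero]
  by_cases hd : Finsupp.single 0 1 ≤ d
  · rw [coeff_modMonomial_of_le _ hd]
  · rw [coeff_modMonomial_of_not_le _ hd]
    have hd0 : d 0 = 0 := by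
      by_contra h
      apply hd
      rw [Finsupp.single_le_iff]
      omega
    by_cases hn : Finsupp.degree d = n
    · rw [finsupp2, hd0, zero_add] at hn
      have hd1 : d = Finsupp.single 1 n := by
        ext i
        fin_cases i
        · simpa using hd0
        · simpa using hn
      rw [hd1, h0]
    · exact hQ.coeff_eq_zero hn

theorem pow_of_pderiv [CharZero K] (Q : P2 K) (n : ℕ) (hQ : Q.IsHomogeneous n)
    (h0 : pderiv 1 Q = 0) : Q = C (coeff (Finsupp.single 0 n) Q) * X 0 ^ n := by
  classical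
  ext d
  rw [coeff_C_mul, coeff_X_pow]
  by_cases hd : Finsupp.single 0 n = d
  · rw [if_pos hd, mul_one, hd]
  · rw [if_neg hd, mul_zero]
    by_cases hn : Finsupp.degree d = n
    · have hd1 : 0 < d 1 := by
        by_contra h
        apply hd
        rw [finsupp2] at hn
        have h1 : d 1 = 0 := by omega
        ext i
        fin_cases i
        · simp; omega
        · simp [h1]
      obtain ⟨e, he⟩ : ∃ e : Fin 2 →₀ ℕ, d = e + Finsupp.single 1 1 := by
        refine ⟨d - Finsupp.single 1 1, ?_⟩
        rw [tsub_add_cancel_of_le]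
        rw [Finsupp.single_le_iff]
        omega
      have h2 := congrArg (coeff e) h0
      rw [coeff_pderiv, ← he, coeff_zero] at h2
      rcases mul_eq_zero.mp h2 with h3 | h3
      · exact h3
      · exfalso
        have : ((e 1 + 1 : ℕ) : K) = 0 := by push_cast; exact h3
        rw [Nat.cast_eq_zero] at this
        omega
    · exact hQ.coeff_eq_zero hn

end RedAAux

open RedAAux in
theorem red_a {K : Type*} [Field K] [CharZero K] (D : Derivation K (P2 K) (P2 K))
    (hln : ∀ x, ∃ n, (⇑D)^[n] x = 0) (hD0 : ∃ x, D x ≠ 0) (P : P2 K) (hDP : D P = 0)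
    (hP : 0 < P.totalDegree) :
    ∃ φ ∈ tameGroup K, (φ P).totalDegree ≤ P.totalDegree ∧
      ∃ c : K, c ≠ 0 ∧ homogeneousComponent P.totalDegree (φ P) = C c * X 1 ^ P.totalDegree := by
  obtain ⟨D', hln', hD0', hcomp⟩ := exists_lead (![1, 1] : Fin 2 → ℤ)
    (by intro i; fin_cases i <;> simp) D hln hD0
  have hker := hcomp P (P.totalDegree : ℤ) hDP (fun d hd => whc_zero P d hd)
  rw [whc_eq] at hker
  have hne := top_ne P hP
  have hhom := homogeneousComponent_isHomogeneous P.totalDegree P
  set n := P.totalDegree with hn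
  set Q := homogeneousComponent n P with hQdef
  by_cases hc : coeff (Finsupp.single 1 n) Q = 0
  · -- divisible by X 0
    obtain ⟨R, hR⟩ := dvd_of_coeff Q n hhom hc
    have hDX : D' (X 0) = 0 := by
      refine LNDHom.fact_closed D' hln' (X 0) R ?_ ?_
      · rw [← hR]; exact hker
      · rw [← hR]; exact hne
    have hDY : D' (X 1) ≠ 0 := by
      intro h1
      obtain ⟨x, hx⟩ := hD0'
      apply hx
      rw [der_eq2, hDX, h1, zero_mul, zero_mul, add_zero]
    have hpd : pderiv 1 Q = 0 := by
      have h2 := der_eq2 D' Q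
      rw [hker, hDX, zero_mul, zero_add] at h2
      exact (mul_eq_zero.mp h2.symm).resolve_left hDY
    have hQ2 := pow_of_pderiv Q n hhom hpd
    have hc2 : coeff (Finsupp.single 0 n) Q ≠ 0 := by
      intro h3
      rw [h3, C_0, zero_mul] at hQ2
      exact hne hQ2
    refine finish P (swapE K) swapE_mem swap_lin _ hc2 ?_
    rw [← hn, ← hQdef]
    conv_lhs => rw [hQ2]
    rw [map_mul, map_pow, swapE_X0]
    congr 1
    exact (swapE K).commutes _
  · by_cases hX : Q = C (coeff (Finsupp.single 1 n) Q) * X 1 ^ n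
    · refine finish P 1 (one_mem _) ?_ _ hc ?_
      · intro i
        exact isHomogeneous_X _ _
      · rw [AlgEquiv.one_apply]
        exact hX
    · obtain ⟨-, m, c, l, hm, hc0, hl, hQ3⟩ := shape 1 1 one_pos le_rfl (Nat.coprime_one_left 1)
        D' hln' hD0' Q n hP (by
          intro d hd
          have h4 : Finsupp.degree d = n := by
            by_contra h5
            exact (mem_support_iff.mp hd) (hhom.coeff_eq_zero h5)
          rw [finsupp2] at h4
          omega) hker hc hX
      rw [one_mul] at hm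
      rw [hm] at hQ3
      refine finish P (swapE K * elemE (1 : Kˣ) (Polynomial.C l * Polynomial.X))
        (mul_mem swapE_mem (elemE_mem _ _)) ?_ c hc0 ?_
      · intro i
        exact lin_map (swapE K).toAlgHom swap_lin (elem_lin l i)
      · rw [← hn, ← hQdef, hQ3, AlgEquiv.mul_apply]
        have e1 : ∀ a : K, (elemE (1 : Kˣ) (Polynomial.C l * Polynomial.X)) (C a) = C a :=
          fun a => (elemE (1 : Kˣ) (Polynomial.C l * Polynomial.X)).commutes a
        have e2 : ∀ a : K, swapE K (C a) = C a := fun a => (swapE K).commutes a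
        have e3 : elemE (1 : Kˣ) (Polynomial.C l * Polynomial.X) (X 0 - C l * X 1 ^ 1) = X 0 := by
          rw [map_sub, map_mul, map_pow, e1, elemE_X0, elemE_X1, Units.val_one, C_1, one_mul,
            map_mul, Polynomial.aeval_C, Polynomial.aeval_X, pow_one, MvPolynomial.algebraMap_eq]
          ring
        have e4 : elemE (1 : Kˣ) (Polynomial.C l * Polynomial.X)
            (C c * (X 0 - C l * X 1 ^ 1) ^ n) = C c * X 0 ^ n := by
          rw [map_mul, map_pow, e3, e1]
        rw [e4, map_mul, map_pow, e2, swapE_X0]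

end Pool.Agent.R2F
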