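import Mathlib
import Pool.Agent.R2F.Lead
import Pool.Agent.R2F.Shape

/-!
# lowering the degree by an elementary automorphism

Proof. If all exponents `d` of `P` have `d 0 = 0`, then `D P = pderiv 1 P * D (X 1)`, `pderiv 1 P ≠ 0` (coefficient of `X 1 ^ n`), so `D (X 1) = 0`: left alternative. Otherwise let `q / p` (lowest terms) be such that
`p / q = min over the exponents d of P with d 0 > 0 of (n - d 1) / d 0`; this is `> 1` because `d 0 + d 1 < n` for all exponents `d ≠ (0, n)` (top component is `c X 1 ^ n`, total degree `≤ n`), so `0 < q < p`, coprime,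
all exponents satisfy `p d_0 + q d_1 ≤ q n`, and equality holds for some exponent with `d_0 > 0` and for `(0, n)`. `exists_lead` with `w = ![p, q]`, `N = q n`; `P̂ := weightedHomogeneousComponent w (q n) P`; `shape` for `P̂`:
`q = 1`, `P̂ = c (X 0 - l X 1 ^ p)^m`, `p m = n`, `p ≥ 2`. `φ := elemE 1 (C l * X ^ p)`: `X 0 ↦ X 0 + l X 1 ^ p`; `φ P̂ = c X 0 ^ m`, `φ` maps elements of weight `≤ N'` (weights `(p, 1)`) to elements of weight `≤ N'`;
`φ P = c X 0 ^ m + (weight < n)`; an exponent of weight `p d_0 + d_1 < n` has `d_0 + d_1 < n`, and `m < n`. So `totalDegree (φ P) < n`.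
-/

set_option autoImplicit false

open MvPolynomial

namespace Pool.Agent.R2F

namespace RedBAux

variable {K : Type*} [Field K]

theorem exp_ext {d e : Fin 2 →₀ ℕ} (h0 : d 0 = e 0) (h1 : d 1 = e 1) : d = e := by
  ext i
  fin_cases i
  · exact h0
  · exact h1

theorem weight_two (w : Fin 2 → ℤ) (d : Fin 2 →₀ ℕ) :
    Finsupp.weight w d = (d 0 : ℤ) * w 0 + (d 1 : ℤ) * w 1 := by
  rw [Finsupp.weight_apply, Finsupp.sum_fintype _ _ (by simp)]
  simp [Fin.sum_univ_two]

theorem degree_two (d : Fin 2 →₀ ℕ) : d.degree = d 0 + d 1 := by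
  rw [Finsupp.degree_eq_sum, Fin.sum_univ_two]

/-- a derivation in terms of the partial derivatives -/
theorem der_eq (D : Derivation K (P2 K) (P2 K)) (P : P2 K) :
    D P = pderiv 0 P * D (X 0) + pderiv 1 P * D (X 1) := by
  have h : D = D (X 0) • (pderiv 0 : Derivation K (P2 K) (P2 K)) +
      D (X 1) • (pderiv 1 : Derivation K (P2 K) (P2 K)) := by
    apply derivation_ext
    intro i
    fin_cases i
    · simp [pderiv_X]
    · simp [pderiv_X]
  conv_lhs => rw [h]
  simp only [Derivation.coe_add, Derivation.coe_smul, Pi.add_apply, Pi.smul_apply, smul_eq_mul]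
  ring

theorem le_total {P : P2 K} {n : ℕ} (hPn : P.totalDegree ≤ n) {d : Fin 2 →₀ ℕ}
    (hd : d ∈ P.support) : d 0 + d 1 ≤ n := by
  have h := (le_totalDegree hd).trans hPn
  rw [Finsupp.sum_fintype _ _ (by simp), Fin.sum_univ_two] at h
  exact h

/-- exponents of the maximal degree -/
theorem eq_of_top {P : P2 K} {n : ℕ} {c : K} (htop : homogeneousComponent n P = C c * X 1 ^ n)
    {d : Fin 2 →₀ ℕ} (hd : d ∈ P.support) (hdn : d 0 + d 1 = n) : d = Finsupp.single 1 n := by
  classical
  have h1 := congrArg (coeff d) htop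
  rw [coeff_homogeneousComponent, if_pos (by rw [degree_two]; exact hdn), coeff_C_mul,
    coeff_X_pow] at h1
  by_contra hne
  rw [if_neg (fun h => hne h.symm), mul_zero] at h1
  exact (mem_support_iff.1 hd) h1

theorem coeff_top {P : P2 K} {n : ℕ} {c : K} (htop : homogeneousComponent n P = C c * X 1 ^ n) :
    coeff (Finsupp.single 1 n) P = c := by
  classical
  have h1 := congrArg (coeff (Finsupp.single 1 n)) htop
  rw [coeff_homogeneousComponent, if_pos (by rw [degree_two]; simp), coeff_C_mul,
    coeff_X_pow, if_pos rfl, mul_one] at h1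
  exact h1

theorem monomial_two (d : Fin 2 →₀ ℕ) (a : K) :
    (monomial d a : P2 K) = C a * X 0 ^ (d 0) * X 1 ^ (d 1) := by
  rw [monomial_eq, Finsupp.prod_fintype _ _ (by simp), Fin.prod_univ_two, mul_assoc]

/-- the degree of the image of the first variable -/
theorem deg_img (p : ℕ) (hp : 1 ≤ p) (l : K) :
    (elemE (1 : Kˣ) (Polynomial.C l * Polynomial.X ^ p) (X 0) : P2 K).totalDegree ≤ p := by
  rw [elemE_X0, Units.val_one, C_1, one_mul, map_mul, map_pow, Polynomial.aeval_X,
    Polynomial.aeval_C]
  refine (totalDegree_add _ _).trans (max_le ?_ ?_)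
  · rw [totalDegree_X]
    exact hp
  · refine (totalDegree_mul _ _).trans ?_
    have h1 : (algebraMap K (P2 K) l).totalDegree = 0 := totalDegree_C l
    rw [h1, totalDegree_X_pow, zero_add]

theorem deg_monomial (p : ℕ) (hp : 1 ≤ p) (l : K) (d : Fin 2 →₀ ℕ) (a : K) :
    (elemE (1 : Kˣ) (Polynomial.C l * Polynomial.X ^ p) (monomial d a) : P2 K).totalDegree ≤
      p * d 0 + d 1 := by
  rw [monomial_two, map_mul, map_mul, map_pow, map_pow, elemE_X1]
  refine (totalDegree_mul _ _).trans ?_
  rw [totalDegree_X_pow]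
  refine Nat.add_le_add_right ?_ _
  refine (totalDegree_mul _ _).trans ?_
  have h1 : (elemE (1 : Kˣ) (Polynomial.C l * Polynomial.X ^ p) (C a) : P2 K) = C a :=
    (elemE (1 : Kˣ) (Polynomial.C l * Polynomial.X ^ p)).commutes a
  rw [h1, totalDegree_C, zero_add]
  refine (totalDegree_pow _ _).trans ?_
  rw [mul_comm]
  exact Nat.mul_le_mul_right _ (deg_img p hp l)

theorem deg_small (p : ℕ) (hp : 1 ≤ p) (l : K) (R : P2 K) (m : ℕ)
    (h : ∀ d ∈ R.support, p * d 0 + d 1 ≤ m) :
    (elemE (1 : Kˣ) (Polynomial.C l * Polynomial.X ^ p) R : P2 K).totalDegree ≤ m := by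
  conv_lhs => rw [R.as_sum]
  rw [map_sum]
  refine totalDegree_finsetSum_le fun d hd => ?_
  exact (deg_monomial p hp l d _).trans (h d hd)

end RedBAux

open RedBAux

theorem red_b {K : Type*} [Field K] [CharZero K] (D : Derivation K (P2 K) (P2 K))
    (hln : ∀ x, ∃ n, (⇑D)^[n] x = 0) (hD0 : ∃ x, D x ≠ 0) (P : P2 K) (hDP : D P = 0) (n : ℕ)
    (hn : 0 < n) (hPn : P.totalDegree ≤ n) (c : K) (hc : c ≠ 0)
    (htop : homogeneousComponent n P = C c * X 1 ^ n) :
    D (X 1) = 0 ∨ ∃ φ ∈ tameGroup K, (φ P).totalDegree < n := by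
  classical
  by_cases hall : ∀ d ∈ P.support, d 0 = 0
  · -- `P` is a polynomial in `X 1`
    left
    have h0 : pderiv 0 P = 0 := by
      rw [P.as_sum, map_sum]
      refine Finset.sum_eq_zero fun d hd => ?_
      rw [pderiv_monomial, hall d hd, Nat.cast_zero, mul_zero, map_zero]
    have h1 := der_eq D P
    rw [h0, zero_mul, zero_add, hDP] at h1
    rcases mul_eq_zero.1 h1.symm with h2 | h2
    · exfalso
      have h3 := congrArg (coeff (Finsupp.single 1 (n - 1))) h2
      rw [coeff_zero, coeff_pderiv] at h3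
      have h4 : (Finsupp.single 1 (n - 1) + Finsupp.single 1 1 : Fin 2 →₀ ℕ) =
          Finsupp.single 1 n := by
        rw [← Finsupp.single_add]
        congr 1
        omega
      rw [h4, coeff_top htop] at h3
      rcases mul_eq_zero.1 h3 with h5 | h5
      · exact hc h5
      · have h6 : ((Finsupp.single 1 (n - 1) : Fin 2 →₀ ℕ) 1 : K) + 1 = ((n - 1 + 1 : ℕ) : K) := by
          simp
        rw [h6] at h5
        have h7 : n - 1 + 1 ≠ 0 := by omega
        exact h7 (by exact_mod_cast h5)
    · exact h2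
  · right
    push Not at hall
    obtain ⟨e0, he0, he0'⟩ := hall
    set S : Finset (Fin 2 →₀ ℕ) := P.support.filter fun d => 0 < d 0 with hS
    have hSne : S.Nonempty := ⟨e0, by
      rw [hS, Finset.mem_filter]
      exact ⟨he0, Nat.pos_of_ne_zero he0'⟩⟩
    obtain ⟨e, heS, hmin⟩ := Finset.exists_min_image S
      (fun d => ((n : ℚ) - (d 1 : ℚ)) / (d 0 : ℚ)) hSne
    have he := (Finset.mem_filter.1 heS)
    have hlt : ∀ d ∈ P.support, 0 < d 0 → d 0 + d 1 < n := by
      intro d hd hd0
      rcases (le_total hPn hd).lt_or_eq with h | h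
      · exact h
      · have h2 := eq_of_top htop hd h
        rw [h2] at hd0
        simp at hd0
    have helt := hlt e he.1 he.2
    obtain ⟨p, q, hpq, hp1, hq1⟩ := Nat.exists_coprime (n - e 1) (e 0)
    set g := Nat.gcd (n - e 1) (e 0) with hg
    have hg0 : 0 < g := Nat.gcd_pos_of_pos_right _ he.2
    have hq0 : 0 < q := by
      rcases Nat.eq_zero_or_pos q with h | h
      · rw [h, zero_mul] at hq1
        have := he.2
        omega
      · exact h
    have hqp : q < p := by
      have h1 : e 0 < n - e 1 := by omega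
      rw [hp1, hq1] at h1
      exact lt_of_mul_lt_mul_right h1 (Nat.zero_le g)
    -- the exponents
    have hle : ∀ d ∈ P.support, p * d 0 + q * d 1 ≤ q * n := by
      intro d hd
      have h1 := le_total hPn hd
      rcases Nat.eq_zero_or_pos (d 0) with h0 | h0
      · rw [h0, mul_zero, zero_add]
        exact Nat.mul_le_mul_left q (by omega)
      · have h2 := hmin d (Finset.mem_filter.2 ⟨hd, h0⟩)
        have h3 : (0 : ℚ) < (e 0 : ℚ) := by exact_mod_cast he.2
        have h4 : (0 : ℚ) < (d 0 : ℚ) := by exact_mod_cast h0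
        rw [div_le_div_iff₀ h3 h4] at h2
        have h5 : ((n - e 1 : ℕ) : ℚ) * (d 0 : ℚ) ≤ ((n - d 1 : ℕ) : ℚ) * (e 0 : ℚ) := by
          rw [Nat.cast_sub (by omega), Nat.cast_sub (by omega)]
          exact h2
        have h6 : (n - e 1) * d 0 ≤ (n - d 1) * e 0 := by exact_mod_cast h5
        rw [hp1, hq1] at h6
        have h7 : (p * d 0) * g ≤ ((n - d 1) * q) * g := by
          calc (p * d 0) * g = p * g * d 0 := by ring
            _ ≤ (n - d 1) * (q * g) := h6
            _ = ((n - d 1) * q) * g := by ring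
        have h8 : p * d 0 ≤ (n - d 1) * q := le_of_mul_le_mul_right h7 hg0
        have h9 : (n - d 1) * q + q * d 1 = q * n := by
          rw [mul_comm, ← mul_add]
          congr 1
          omega
        omega
    have heq : p * e 0 + q * e 1 = q * n := by
      have h1 : p * e 0 = q * (n - e 1) := by
        rw [hp1]
        conv_lhs => rw [hq1]
        ring
      rw [h1, ← mul_add]
      congr 1
      omega
    -- the leading part
    obtain ⟨D', hln', hD0', hlead⟩ := exists_lead ![(p : ℤ), (q : ℤ)] (by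
      intro i
      fin_cases i
      · show (0 : ℤ) < (p : ℤ)
        exact_mod_cast hq0.trans hqp
      · show (0 : ℤ) < (q : ℤ)
        exact_mod_cast hq0) D hln hD0
    have hw : ∀ d : Fin 2 →₀ ℕ, Finsupp.weight ![(p : ℤ), (q : ℤ)] d =
        ((p * d 0 + q * d 1 : ℕ) : ℤ) := by
      intro d
      rw [weight_two]
      push_cast
      show (d 0 : ℤ) * (p : ℤ) + (d 1 : ℤ) * (q : ℤ) = _
      ring
    set Q : P2 K := weightedHomogeneousComponent ![(p : ℤ), (q : ℤ)] ((q * n : ℕ) : ℤ) P with hQ
    have hQc : ∀ d, coeff d Q = if p * d 0 + q * d 1 = q * n then coeff d P else 0 := by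
      intro d
      rw [hQ, coeff_weightedHomogeneousComponent, hw]
      by_cases h : p * d 0 + q * d 1 = q * n
      · rw [if_pos (by exact_mod_cast h), if_pos h]
      · rw [if_neg (by exact_mod_cast h), if_neg h]
    have hDQ : D' Q = 0 := by
      refine hlead P _ hDP fun d hd => ?_
      refine weightedHomogeneousComponent_eq_zero' _ _ fun x hx => ?_
      rw [hw]
      have h1 := hle x hx
      have h2 : ((p * x 0 + q * x 1 : ℕ) : ℤ) ≤ ((q * n : ℕ) : ℤ) := by exact_mod_cast h1
      omega
    have hQ1 : coeff (Finsupp.single 1 n) Q = c := by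
      rw [hQc, if_pos (by simp), coeff_top htop]
    obtain ⟨hq, m, c', l, hm, hc', hl, hQs⟩ := shape p q hq0 hqp.le hpq D' hln' hD0' Q n hn
      (fun d hd => by
        by_contra hne
        rw [mem_support_iff, hQc, if_neg hne] at hd
        exact hd rfl) hDQ (by rw [hQ1]; exact hc) (fun h => by
        have h1 := congrArg (coeff e) h
        rw [hQc, if_pos heq, coeff_C_mul, coeff_X_pow, if_neg, mul_zero] at h1
        · exact (mem_support_iff.1 he.1) h1
        · intro h2
          have h3 := he.2
          rw [← h2] at h3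
          simp at h3)
    subst hq
    refine ⟨elemE 1 (Polynomial.C l * Polynomial.X ^ p), elemE_mem _ _, ?_⟩
    have hsplit : P = Q + (P - Q) := by ring
    rw [hsplit, map_add]
    refine (totalDegree_add _ _).trans_lt (max_lt ?_ ?_)
    · rw [hQs, map_mul, map_pow, map_sub, map_mul, map_pow, elemE_X0, elemE_X1]
      have h1 : ∀ a : K, (elemE (1 : Kˣ) (Polynomial.C l * Polynomial.X ^ p) (C a) : P2 K) = C a :=
        fun a => (elemE (1 : Kˣ) (Polynomial.C l * Polynomial.X ^ p)).commutes a
      have h2 : Polynomial.aeval (X 1 : P2 K) (Polynomial.C l * Polynomial.X ^ p) =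
          C l * X 1 ^ p := by
        rw [map_mul, map_pow, Polynomial.aeval_X, Polynomial.aeval_C]
        rfl
      rw [h1, h1, h2, Units.val_one, C_1, one_mul, add_sub_cancel_right]
      refine (totalDegree_mul _ _).trans_lt ?_
      rw [totalDegree_C, totalDegree_X_pow, zero_add]
      have hm0 : 0 < m := by
        rcases Nat.eq_zero_or_pos m with h | h
        · rw [h, mul_zero] at hm
          omega
        · exact h
      rw [← hm]
      calc m = 1 * m := (one_mul m).symm
        _ < p * m := Nat.mul_lt_mul_of_pos_right hqp hm0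
    · refine lt_of_le_of_lt (deg_small p hqp.le l (P - Q) (n - 1) fun d hd => ?_) (by omega)
      rw [mem_support_iff, coeff_sub, hQc] at hd
      by_cases h : p * d 0 + 1 * d 1 = 1 * n
      · rw [if_pos h, sub_self] at hd
        exact absurd rfl hd
      · rw [if_neg h, sub_zero] at hd
        have h1 := hle d (mem_support_iff.2 hd)
        rw [one_mul, one_mul] at h h1
        omega

end Pool.Agent.R2F
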