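import Mathlib
import Pool.Agent.R2F.RedA
import Pool.Agent.R2F.RedB
import Pool.Agent.R2F.NonConst

/-!
# Rentschler's theorem

Proof. `P` from `exists_nonconst_ker`. Strong induction on `P.totalDegree` (over all `D`, `P`): `φ₁` from `red_a`; `D₁ = φ₁ D φ₁⁻¹` kills `φ₁ P`; `red_b` for `D₁`: either `D₁ (X 1) = 0`, i.e. `D (φ₁⁻¹ (X 1)) = 0`, or `φ₂` with
`totalDegree (φ₂ φ₁ P) < n`; apply the induction hypothesis to `(φ₂ φ₁) D (φ₂ φ₁)⁻¹` and `φ₂ φ₁ P` (total degree `> 0` since it is not constant).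
-/

set_option autoImplicit false

open MvPolynomial

namespace Pool.Agent.R2F

/-- conjugate of a derivation -/
noncomputable def conj {K : Type*} [Field K] (φ : P2 K ≃ₐ[K] P2 K)
    (D : Derivation K (P2 K) (P2 K)) : Derivation K (P2 K) (P2 K) :=
  Derivation.mk' ((φ.toLinearMap.comp (D : P2 K →ₗ[K] P2 K)).comp φ.symm.toLinearMap) (by
    intro x y
    simp [map_mul, Derivation.leibniz])

namespace RentAux

theorem conj_apply {K : Type*} [Field K] (φ : P2 K ≃ₐ[K] P2 K)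
    (D : Derivation K (P2 K) (P2 K)) (x : P2 K) : conj φ D x = φ (D (φ.symm x)) := rfl

theorem conj_iter {K : Type*} [Field K] (φ : P2 K ≃ₐ[K] P2 K)
    (D : Derivation K (P2 K) (P2 K)) (n : ℕ) (x : P2 K) :
    (⇑(conj φ D))^[n] x = φ ((⇑D)^[n] (φ.symm x)) := by
  induction n generalizing x with
  | zero => simp
  | succ n ih =>
    rw [Function.iterate_succ_apply, Function.iterate_succ_apply, ih, conj_apply,
      AlgEquiv.symm_apply_apply]

theorem conj_ln {K : Type*} [Field K] (φ : P2 K ≃ₐ[K] P2 K)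
    (D : Derivation K (P2 K) (P2 K)) (h : ∀ x, ∃ n, (⇑D)^[n] x = 0) :
    ∀ x, ∃ n, (⇑(conj φ D))^[n] x = 0 := by
  intro x
  obtain ⟨n, hn⟩ := h (φ.symm x)
  exact ⟨n, by rw [conj_iter, hn, map_zero]⟩

theorem conj_ne {K : Type*} [Field K] (φ : P2 K ≃ₐ[K] P2 K)
    (D : Derivation K (P2 K) (P2 K)) (h : ∃ x, D x ≠ 0) : ∃ x, conj φ D x ≠ 0 := by
  obtain ⟨x, hx⟩ := h
  refine ⟨φ x, ?_⟩
  rw [conj_apply, AlgEquiv.symm_apply_apply]
  intro h0
  exact hx (φ.injective (by rw [h0, map_zero]))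

theorem deg_pos {K : Type*} [Field K] (φ : P2 K ≃ₐ[K] P2 K) (P : P2 K) (hP : 0 < P.totalDegree) :
    0 < (φ P).totalDegree := by
  rcases Nat.eq_zero_or_pos (φ P).totalDegree with h | h
  · exfalso
    rw [totalDegree_eq_zero_iff_eq_C] at h
    have h1 : P = C (coeff 0 (φ P)) := by
      have h2 : φ P = φ (C (coeff 0 (φ P))) := by
        have h3 : φ (C (coeff 0 (φ P))) = C (coeff 0 (φ P)) := φ.commutes _
        rw [h3]; exact h
      exact φ.injective h2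
    rw [h1, totalDegree_C] at hP
    exact lt_irrefl _ hP
  · exact h

theorem main {K : Type*} [Field K] [CharZero K] (n : ℕ) : ∀ (D : Derivation K (P2 K) (P2 K))
    (P : P2 K), (∀ x, ∃ n, (⇑D)^[n] x = 0) → (∃ x, D x ≠ 0) → D P = 0 → 0 < P.totalDegree →
    P.totalDegree = n → ∃ φ ∈ tameGroup K, D (φ (X 1)) = 0 := by
  induction n using Nat.strong_induction_on with
  | _ n ih =>
    intro D P hln hD0 hDP hP hPn
    obtain ⟨φ₁, hφ₁, hle, c, hc, htop⟩ := red_a D hln hD0 P hDP hP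
    have hD1P : conj φ₁ D (φ₁ P) = 0 := by
      rw [conj_apply, AlgEquiv.symm_apply_apply, hDP, map_zero]
    rcases red_b (conj φ₁ D) (conj_ln φ₁ D hln) (conj_ne φ₁ D hD0) (φ₁ P) hD1P P.totalDegree hP hle c hc
      htop with h | ⟨φ₂, hφ₂, hlt⟩
    · refine ⟨φ₁⁻¹, (tameGroup K).inv_mem hφ₁, ?_⟩
      rw [conj_apply] at h
      have h1 : D (φ₁.symm (X 1)) = 0 := φ₁.injective (by rw [h, map_zero])
      exact h1
    · have hψ : φ₂ * φ₁ ∈ tameGroup K := (tameGroup K).mul_mem hφ₂ hφ₁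
      have hP2 : (φ₂ * φ₁) P = φ₂ (φ₁ P) := rfl
      obtain ⟨φ₃, hφ₃, h3⟩ := ih ((φ₂ * φ₁) P).totalDegree (by rw [hP2, ← hPn]; exact hlt)
        (conj (φ₂ * φ₁) D) ((φ₂ * φ₁) P) (conj_ln _ D hln) (conj_ne _ D hD0)
        (by rw [conj_apply, AlgEquiv.symm_apply_apply, hDP, map_zero]) (deg_pos _ P hP) rfl
      refine ⟨(φ₂ * φ₁)⁻¹ * φ₃, (tameGroup K).mul_mem ((tameGroup K).inv_mem hψ) hφ₃, ?_⟩
      rw [conj_apply] at h3
      have h4 : D ((φ₂ * φ₁).symm (φ₃ (X 1))) = 0 := (φ₂ * φ₁).injective (by rw [h3, map_zero])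
      exact h4

end RentAux

theorem rentschler {K : Type*} [Field K] [CharZero K] (D : Derivation K (P2 K) (P2 K))
    (hln : ∀ x, ∃ n, (⇑D)^[n] x = 0) (hD0 : ∃ x, D x ≠ 0) :
    ∃ φ ∈ tameGroup K, D (φ (X 1)) = 0 := by
  obtain ⟨P, hDP, hP⟩ := exists_nonconst_ker D hln
  exact RentAux.main P.totalDegree D P hln hD0 hDP hP rfl

end Pool.Agent.R2F
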