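import Mathlib
import Pool.Agent.R2F.Defs

/-!
# good frames and dilations

good_aut: both cases are immediate. good_inj: `dil p` is injective (`p ≠ 0`, domain). good_gen: induction; `K[ι ε'(X 0), ι ε'(X 1)] = ⊤` does not change under `dil p` (`p` is a unit in `K`) and under automorphisms.
mem_J: `ε f ≡ ε (f(0, X 1))` modulo `p` since `C p ∣ ε (X 0)`, and `ε (f(0, X 1)) = F(ε (X 1))` with `F = f(0, T)`; use `NC`.
canon: `ε = ε' ∘ dil p ∘ α`, `NC p (ε' (X 1))`. `mem_J` for `ε` and for `ε' ∘ dil p` (`(ε' ∘ dil p) (X 0) = C p * ε' (X 0)`): with `J = {f : C p ∣ f(0, X 1)}`, `f ∈ J ↔ C p ∣ ε f ↔ α f ∈ J`. So `α (X 0), α.symm (X 0) ∈ J`, hence `C p ∣ dil p (α (X 0))` and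
`C p ∣ dil p (α.symm (X 0))` (for `f ∈ J`: `f = X 0 * f1 + C p * f2`). Define homs `a, b` of `P2 R` by `C p * a (X 0) = dil p (α (X 0))`, `a (X 1) = dil p (α (X 1))`, `C p * b (X 0) = dil p (α.symm (X 0))`, `b (X 1) = dil p (α.symm (X 1))`: then
`a ∘ dil p = dil p ∘ α`, `b ∘ dil p = dil p ∘ α.symm`, so `a ∘ b ∘ dil p = dil p` and `a ∘ b = id` (cancel `C p` at `X 0`), same for `b ∘ a`. So `a` is an automorphism, `ε = (ε' ∘ a) ∘ dil p`; `good_aut`.
-/

set_option autoImplicit false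

open MvPolynomial

namespace Pool.Agent.R2F

namespace CanonAux

theorem hom_ext2 {R A : Type*} [CommRing R] [CommRing A] [Algebra R A] {f g : P2 R →ₐ[R] A}
    (h0 : f (X 0) = g (X 0)) (h1 : f (X 1) = g (X 1)) : f = g := by
  refine MvPolynomial.algHom_ext (fun i => ?_)
  rcases i with ⟨i, hi⟩
  interval_cases i
  · exact h0
  · exact h1

theorem coeff_dil {R : Type*} [CommRing R] (p : R) (f : P2 R) (m : Fin 2 →₀ ℕ) :
    coeff m (dil p f) = p ^ (m 0) * coeff m f := by
  induction f using MvPolynomial.induction_on' with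
  | monomial s a =>
    have h1 : dil p (monomial s a) = C (p ^ s 0) * monomial s a := by
      have h2 : (monomial s a : P2 R) = C a * (X 0 ^ s 0 * X 1 ^ s 1) := by
        rw [monomial_eq, Finsupp.prod_fintype _ _ (by simp), Fin.prod_univ_two]
      rw [h2, map_mul, map_mul, map_pow, map_pow, dil_X0, dil_X1, mul_pow, ← C_pow]
      have h3 : dil p (C a) = C a := (dil p).commutes a
      rw [h3]
      ring
    rw [h1, coeff_C_mul, coeff_monomial]
    split_ifs with h
    · rw [h]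
    · rw [mul_zero, mul_zero]
  | add f g hf hg =>
    rw [map_add, coeff_add, coeff_add, hf, hg, mul_add]

theorem dil_inj {R : Type*} [CommRing R] [IsDomain R] (p : R) (hp : p ≠ 0) :
    Function.Injective (dil p) := by
  rw [injective_iff_map_eq_zero]
  intro f hf
  ext m
  have h := coeff_dil p f m
  rw [hf, coeff_zero] at h
  rw [coeff_zero]
  exact (mul_eq_zero.1 h.symm).resolve_left (pow_ne_zero _ hp)

theorem succ_inv {R : Type*} [CommRing R] {p : R} {n : ℕ} {ε : P2 R →ₐ[R] P2 R}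
    (h : Good p n ε) : ∀ M : ℕ, n = M + 1 → ∃ (ε' : P2 R →ₐ[R] P2 R) (α : P2 R ≃ₐ[R] P2 R),
      Good p M ε' ∧ NC p (ε' (X 1)) ∧ ε = (ε'.comp (dil p)).comp (α : P2 R →ₐ[R] P2 R) := by
  intro M hM
  cases h with
  | top ε h => exact absurd hM (Nat.succ_ne_zero M).symm
  | step M' ε' α h h1 =>
    obtain rfl : M' = M := Nat.succ_injective hM
    exact ⟨ε', α, h, h1, rfl⟩

theorem io_mem {R K : Type*} [CommRing R] [Field K] [Algebra R K] (ε : P2 R →ₐ[R] P2 R) (f : P2 R) :
    io R K (ε f) ∈ Algebra.adjoin K {io R K (ε (X 0)), io R K (ε (X 1))} := by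
  induction f using MvPolynomial.induction_on with
  | C a =>
    have h : ε (C a) = C a := ε.commutes a
    rw [h, io, map_C]
    exact Subalgebra.algebraMap_mem _ _
  | add f g hf hg =>
    rw [map_add, map_add]
    exact add_mem hf hg
  | mul_X f i hf =>
    rw [map_mul, map_mul]
    refine mul_mem hf ?_
    rcases i with ⟨i, hi⟩
    interval_cases i
    · exact Algebra.subset_adjoin (Or.inl rfl)
    · exact Algebra.subset_adjoin (Or.inr rfl)

/-- the reduction of `f` modulo `X 0` -/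
noncomputable def red {R : Type*} [CommRing R] (f : P2 R) : P2 R :=
  aeval (![0, X 1] : Fin 2 → P2 R) f

theorem red_spec {R : Type*} [CommRing R] (f : P2 R) : ∃ g : P2 R, f = red f + X 0 * g := by
  induction f using MvPolynomial.induction_on with
  | C a => exact ⟨0, by rw [mul_zero, add_zero]; exact (aeval_C _ _).symm⟩
  | add f g hf hg =>
    obtain ⟨f1, hf1⟩ := hf
    obtain ⟨g1, hg1⟩ := hg
    refine ⟨f1 + g1, ?_⟩
    have h : red (f + g) = red f + red g := map_add _ _ _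
    rw [h, mul_add]
    nth_rewrite 1 [hf1, hg1]
    ring
  | mul_X f i hf =>
    obtain ⟨f1, hf1⟩ := hf
    have h : red (f * X i) = red f * (![0, X 1] : Fin 2 → P2 R) i := by
      unfold red
      rw [map_mul, aeval_X]
    rcases i with ⟨i, hi⟩
    interval_cases i
    · refine ⟨f, ?_⟩
      rw [h]
      show f * X 0 = red f * 0 + X 0 * f
      ring
    · refine ⟨f1 * X 1, ?_⟩
      rw [h]
      show f * X 1 = red f * X 1 + X 0 * (f1 * X 1)
      nth_rewrite 1 [hf1]
      ring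

theorem red_poly {R : Type*} [CommRing R] (f : P2 R) :
    ∃ F : Polynomial R, red f = Polynomial.aeval (X 1 : P2 R) F := by
  refine ⟨aeval (![0, Polynomial.X] : Fin 2 → Polynomial R) f, ?_⟩
  have h : (Polynomial.aeval (X 1 : P2 R)).comp (aeval (![0, Polynomial.X] : Fin 2 → Polynomial R)) =
      aeval (![0, X 1] : Fin 2 → P2 R) := by
    refine hom_ext2 ?_ ?_
    · rw [AlgHom.comp_apply, aeval_X, aeval_X]
      simp
    · rw [AlgHom.comp_apply, aeval_X, aeval_X]
      simp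
  exact (DFunLike.congr_fun h f).symm

theorem dvd_dil {R : Type*} [CommRing R] (p : R) (f : P2 R) (h : C p ∣ red f) : C p ∣ dil p f := by
  obtain ⟨g, hg⟩ := red_spec f
  obtain ⟨f2, hf2⟩ := h
  refine ⟨dil p f2 + X 0 * dil p g, ?_⟩
  have h3 : dil p (C p) = C p := (dil p).commutes p
  rw [hg, hf2, map_add, map_mul, map_mul, dil_X0, h3]
  ring

end CanonAux

open CanonAux

theorem good_aut {R : Type*} [CommRing R] (p : R) (M : ℕ) (ε : P2 R →ₐ[R] P2 R) (h : Good p M ε)
    (α : P2 R ≃ₐ[R] P2 R) : Good p M (ε.comp (α : P2 R →ₐ[R] P2 R)) := by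
  cases h with
  | top ε h => exact Good.top _ (h.comp α.bijective)
  | step M ε β h h1 => exact Good.step M ε (α.trans β) h h1

theorem good_inj {R : Type*} [CommRing R] [IsDomain R] (p : R) (hp : p ≠ 0) (M : ℕ)
    (ε : P2 R →ₐ[R] P2 R) (h : Good p M ε) : Function.Injective ε := by
  induction h with
  | top ε h => exact h.injective
  | step M ε α h h1 ih => exact (ih.comp (dil_inj p hp)).comp α.injective

theorem good_gen {R K : Type*} [CommRing R] [Field K] [Algebra R K] (p : R)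
    (hp : algebraMap R K p ≠ 0) (M : ℕ) (ε : P2 R →ₐ[R] P2 R) (h : Good p M ε) :
    Algebra.adjoin K {io R K (ε (X 0)), io R K (ε (X 1))} = ⊤ := by
  induction h with
  | top ε h =>
    rw [eq_top_iff, ← MvPolynomial.adjoin_range_X]
    refine Algebra.adjoin_le ?_
    rintro _ ⟨i, rfl⟩
    obtain ⟨f, hf⟩ := h.surjective (X i)
    have h1 := io_mem (K := K) ε f
    rw [hf, io, map_X] at h1
    exact h1
  | step M ε α h h1 ih =>
    rw [eq_top_iff, ← ih]
    refine Algebra.adjoin_le ?_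
    have h2 : ∀ f : P2 R, io R K (ε (dil p f)) ∈
        Algebra.adjoin K {io R K (((ε.comp (dil p)).comp (α : P2 R →ₐ[R] P2 R)) (X 0)),
          io R K (((ε.comp (dil p)).comp (α : P2 R →ₐ[R] P2 R)) (X 1))} := by
      intro f
      have h3 := io_mem (K := K) ((ε.comp (dil p)).comp (α : P2 R →ₐ[R] P2 R)) (α.symm f)
      have h4 : ((ε.comp (dil p)).comp (α : P2 R →ₐ[R] P2 R)) (α.symm f) = ε (dil p f) := by
        simp
      rwa [h4] at h3
    rintro x (rfl | rfl)
    · have h3 := h2 (X 0)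
      have h5 : ε (C p) = C p := ε.commutes p
      rw [dil_X0, map_mul, h5, map_mul, io, map_C] at h3
      have h4 := Subalgebra.smul_mem _ h3 (algebraMap R K p)⁻¹
      rw [smul_eq_C_mul, ← mul_assoc, ← C_mul, inv_mul_cancel₀ hp, C_1, one_mul] at h4
      exact h4
    · have h3 := h2 (X 1)
      rw [dil_X1] at h3
      exact h3

theorem mem_J {R : Type*} [CommRing R] (p : R) (ε : P2 R →ₐ[R] P2 R) (h0 : C p ∣ ε (X 0))
    (h1 : NC p (ε (X 1))) (f : P2 R) :
    C p ∣ ε f ↔ C p ∣ aeval (![0, X 1] : Fin 2 → P2 R) f := by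
  show C p ∣ ε f ↔ C p ∣ red f
  obtain ⟨g, hg⟩ := red_spec f
  obtain ⟨F, hF⟩ := red_poly f
  have h2 : C p ∣ ε f ↔ C p ∣ ε (red f) := by
    nth_rewrite 1 [hg]
    rw [map_add, map_mul]
    exact dvd_add_left (h0.mul_right _)
  have h5 : ε (C p) = C p := ε.commutes p
  rw [h2]
  constructor
  · intro h3
    rw [hF, ← Polynomial.aeval_algHom_apply] at h3
    obtain ⟨G, hG⟩ := h1 F h3
    rw [hF, hG, map_mul, Polynomial.aeval_C]
    exact Dvd.intro _ rfl
  · rintro ⟨g2, hg2⟩
    rw [hg2, map_mul, h5]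
    exact Dvd.intro _ rfl

theorem canon {R : Type*} [CommRing R] [IsDomain R] (p : R) (hp : p ≠ 0) (M : ℕ)
    (ε : P2 R →ₐ[R] P2 R) (h : Good p (M + 1) ε) (h0 : C p ∣ ε (X 0)) (h1 : NC p (ε (X 1))) :
    ∃ ε' : P2 R →ₐ[R] P2 R, Good p M ε' ∧ ε = ε'.comp (dil p) := by
  obtain ⟨ε', α, hε', hNC, rfl⟩ := succ_inv h M rfl
  have hCp : (C p : P2 R) ≠ 0 := by
    rw [Ne, ← C_0, (C_injective (Fin 2) R).eq_iff]
    exact hp
  have hd0 : C p ∣ (ε'.comp (dil p)) (X 0) := by
    rw [AlgHom.comp_apply, dil_X0, map_mul]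
    have h5 : ε' (C p) = C p := ε'.commutes p
    rw [h5]
    exact Dvd.intro _ rfl
  have hd1 : NC p ((ε'.comp (dil p)) (X 1)) := by
    rw [AlgHom.comp_apply, dil_X1]
    exact hNC
  have hJ : ∀ f, C p ∣ red f ↔ C p ∣ red (α f) := by
    intro f
    have e1 := mem_J p _ h0 h1 f
    have e2 := mem_J p _ hd0 hd1 (α f)
    exact e1.symm.trans e2
  have hX0 : C p ∣ red (X 0 : P2 R) := by
    have : red (X 0 : P2 R) = 0 := by
      unfold red
      rw [aeval_X]
      rfl
    rw [this]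
    exact dvd_zero _
  obtain ⟨a0, ha0⟩ := dvd_dil p _ ((hJ (X 0)).1 hX0)
  obtain ⟨b0, hb0⟩ := dvd_dil p _ ((hJ (α.symm (X 0))).2 (by rwa [AlgEquiv.apply_symm_apply]))
  set a : P2 R →ₐ[R] P2 R := aeval ![a0, dil p (α (X 1))] with ha
  set b : P2 R →ₐ[R] P2 R := aeval ![b0, dil p (α.symm (X 1))] with hb
  have hadil : a.comp (dil p) = (dil p).comp (α : P2 R →ₐ[R] P2 R) := by
    refine hom_ext2 ?_ ?_
    · rw [AlgHom.comp_apply, dil_X0, map_mul, AlgHom.comp_apply]
      have h5 : a (C p) = C p := a.commutes p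
      rw [h5, ha, aeval_X]
      exact ha0.symm
    · rw [AlgHom.comp_apply, dil_X1, AlgHom.comp_apply, ha, aeval_X]
      rfl
  have hbdil : b.comp (dil p) = (dil p).comp (α.symm : P2 R →ₐ[R] P2 R) := by
    refine hom_ext2 ?_ ?_
    · rw [AlgHom.comp_apply, dil_X0, map_mul, AlgHom.comp_apply]
      have h5 : b (C p) = C p := b.commutes p
      rw [h5, hb, aeval_X]
      exact hb0.symm
    · rw [AlgHom.comp_apply, dil_X1, AlgHom.comp_apply, hb, aeval_X]
      rfl
  have cancel : ∀ c : P2 R →ₐ[R] P2 R, c.comp (dil p) = dil p → c = AlgHom.id R (P2 R) := by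
    intro c hc
    refine hom_eq_id ?_ ?_
    · have e := DFunLike.congr_fun hc (X 0)
      rw [AlgHom.comp_apply, dil_X0, map_mul] at e
      have h5 : c (C p) = C p := c.commutes p
      rw [h5] at e
      exact mul_left_cancel₀ hCp e
    · have e := DFunLike.congr_fun hc (X 1)
      rw [AlgHom.comp_apply, dil_X1] at e
      exact e
  have hab : a.comp b = AlgHom.id R (P2 R) := by
    apply cancel
    rw [AlgHom.comp_assoc, hbdil, ← AlgHom.comp_assoc, hadil, AlgHom.comp_assoc]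
    refine AlgHom.ext fun f => ?_
    simp
  have hba : b.comp a = AlgHom.id R (P2 R) := by
    apply cancel
    rw [AlgHom.comp_assoc, hadil, ← AlgHom.comp_assoc, hbdil, AlgHom.comp_assoc]
    refine AlgHom.ext fun f => ?_
    simp
  refine ⟨ε'.comp (AlgEquiv.ofAlgHom a b hab hba : P2 R →ₐ[R] P2 R), good_aut p M ε' hε' _, ?_⟩
  have e3 : ((AlgEquiv.ofAlgHom a b hab hba : P2 R ≃ₐ[R] P2 R) : P2 R →ₐ[R] P2 R) = a :=
    AlgHom.ext fun f => rfl
  rw [e3, AlgHom.comp_assoc, AlgHom.comp_assoc, hadil]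

end Pool.Agent.R2F
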