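import Mathlib
import Pool.Agent.R2F.Canon

/-!
# adapted bases: automorphisms, start, end
-/

set_option autoImplicit false

open MvPolynomial

namespace Pool.Agent.R2F

theorem ab_aut {R K κ : Type*} [CommRing R] [IsDomain R] [Field K] [Algebra R K] [Field κ]
    (res : R →+* κ) (p : R) (P : P2 R) (Δ : Derivation K (P2 K) (P2 K)) (ε : P2 R →ₐ[R] P2 R)
    (α : P2 R ≃ₐ[R] P2 R) (h : Nonempty (AB res p P Δ (ε.comp (α : P2 R →ₐ[R] P2 R)))) :
    Nonempty (AB res p P Δ ε) := by
  obtain ⟨ab⟩ := h
  refine ⟨{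
    r := ab.r.comp (α.symm : P2 R ≃ₐ[R] P2 R).toAlgHom.toRingHom
    rC := ?_
    rs := ?_
    rk := ?_
    Pe := α ab.Pe
    hPe := ?_
    rho := ab.rho
    hrho := ?_
    N := ab.N
    hN := ab.hN
    Q := fun n => α (ab.Q n)
    q := ab.q
    q0 := ab.q0
    hQ := ?_
    span := ab.span
    ind := ab.ind
    deg := ?_ }⟩
  · intro a
    have h1 : (ab.r.comp (α.symm : P2 R ≃ₐ[R] P2 R).toAlgHom.toRingHom) (C a) =
        ab.r (α.symm (C a)) := rfl
    have h2 : α.symm (C a) = C a := α.symm.commutes a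
    rw [h1, h2, ab.rC]
  · intro y
    obtain ⟨x, hx⟩ := ab.rs y
    refine ⟨α x, ?_⟩
    have h1 : (ab.r.comp (α.symm : P2 R ≃ₐ[R] P2 R).toAlgHom.toRingHom) (α x) =
        ab.r (α.symm (α x)) := rfl
    rw [h1, AlgEquiv.symm_apply_apply, hx]
  · intro f hf
    have h1 : C p ∣ α.symm f := ab.rk _ hf
    obtain ⟨g, hg⟩ := h1
    refine ⟨α g, ?_⟩
    have h2 := congrArg α hg
    rw [AlgEquiv.apply_symm_apply, map_mul] at h2
    have h3 : α (C p) = C p := α.commutes p
    rwa [h3] at h2
  · exact ab.hPe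
  · have h1 : (ab.r.comp (α.symm : P2 R ≃ₐ[R] P2 R).toAlgHom.toRingHom) (α ab.Pe) =
        ab.r (α.symm (α ab.Pe)) := rfl
    rw [h1, AlgEquiv.symm_apply_apply, ab.hrho]
  · intro n hn l
    have h1 : (ab.r.comp (α.symm : P2 R ≃ₐ[R] P2 R).toAlgHom.toRingHom)
        (α (ab.Q (n + ab.N * l))) = ab.r (α.symm (α (ab.Q (n + ab.N * l)))) := rfl
    rw [h1, AlgEquiv.symm_apply_apply, ab.hQ n hn l]
  · intro n
    exact ab.deg n

namespace ABendAux

/-- the residue map at the start -/
noncomputable def r0 {R κ : Type*} [CommRing R] [Field κ] (res : R →+* κ) :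
    P2 R →+* Polynomial (Polynomial κ) :=
  eval₂Hom ((Polynomial.C : Polynomial κ →+* Polynomial (Polynomial κ)).comp
    ((Polynomial.C : κ →+* Polynomial κ).comp res)) ![Polynomial.X, Polynomial.C Polynomial.X]

/-- its partial inverse -/
noncomputable def s0 (κ : Type*) [Field κ] : Polynomial (Polynomial κ) →+* P2 κ :=
  Polynomial.eval₂RingHom (Polynomial.eval₂RingHom (C : κ →+* P2 κ) (X 1)) (X 0)

variable {R κ : Type*} [CommRing R] [Field κ] (res : R →+* κ)

lemma r0_C (a : R) : r0 res (C a) = Polynomial.C (Polynomial.C (res a)) := by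
  simp [r0]

lemma r0_X0 : r0 res (X 0) = Polynomial.X := by simp [r0]

lemma r0_X1 : r0 res (X 1) = Polynomial.C Polynomial.X := by simp [r0]

lemma s0_r0 (f : P2 R) : s0 κ (r0 res f) = MvPolynomial.map res f := by
  have h : (s0 κ).comp (r0 res) = MvPolynomial.map res := by
    refine MvPolynomial.ringHom_ext (fun a => ?_) (fun i => ?_)
    · rw [RingHom.comp_apply, r0_C, map_C]
      simp [s0]
    · rw [RingHom.comp_apply, map_X]
      rcases i with ⟨i, hi⟩
      interval_cases i
      · change s0 κ (r0 res (X 0)) = X 0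
        rw [r0_X0]; simp [s0]
      · change s0 κ (r0 res (X 1)) = X 1
        rw [r0_X1]; simp [s0]
  exact congrArg (fun g : P2 R →+* P2 κ => g f) h

lemma r0_surj (hs : Function.Surjective res) : Function.Surjective (r0 res) := by
  have h1 : ∀ g : Polynomial κ, ∃ x, r0 res x = Polynomial.C g := by
    intro g
    induction g using Polynomial.induction_on' with
    | add f g hf hg =>
      obtain ⟨x, hx⟩ := hf
      obtain ⟨y, hy⟩ := hg
      exact ⟨x + y, by rw [map_add, hx, hy, Polynomial.C_add]⟩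
    | monomial n a =>
      obtain ⟨b, rfl⟩ := hs a
      refine ⟨C b * X 1 ^ n, ?_⟩
      rw [map_mul, map_pow, r0_C, r0_X1, ← Polynomial.C_pow, ← Polynomial.C_mul,
        Polynomial.C_mul_X_pow_eq_monomial]
  intro f
  induction f using Polynomial.induction_on' with
  | add f g hf hg =>
    obtain ⟨x, hx⟩ := hf
    obtain ⟨y, hy⟩ := hg
    exact ⟨x + y, by rw [map_add, hx, hy]⟩
  | monomial n a =>
    obtain ⟨x, hx⟩ := h1 a
    refine ⟨x * X 0 ^ n, ?_⟩
    rw [map_mul, map_pow, hx, r0_X0, Polynomial.C_mul_X_pow_eq_monomial]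

end ABendAux

open ABendAux

theorem ab_start {R K κ : Type*} [CommRing R] [IsDomain R] [Field K] [CharZero K] [Algebra R K]
    [Field κ] (res : R →+* κ) (p : R) (hR : ResData res p) (P : P2 R)
    (Δ : Derivation K (P2 K) (P2 K)) (ε : P2 R →ₐ[R] P2 R) (h1 : ε (X 1) = P) (l : K) (hl : l ≠ 0)
    (h0 : Δ (io R K (ε (X 0))) = C l) : Nonempty (AB res p P Δ ε) := by
  refine ⟨{
    r := r0 res
    rC := r0_C res
    rs := r0_surj res hR.surj
    rk := ?_
    Pe := X 1
    hPe := h1
    rho := Polynomial.X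
    hrho := r0_X1 res
    N := 1
    hN := Nat.one_pos
    Q := fun n => X 0 ^ n
    q := fun _ => 1
    q0 := rfl
    hQ := ?_
    span := ?_
    ind := ?_
    deg := ?_ }⟩
  · intro f hf
    rw [C_dvd_iff_dvd_coeff]
    intro i
    have h2 := s0_r0 res f
    rw [hf, map_zero] at h2
    have h3 := congrArg (coeff i) h2
    rw [coeff_zero, coeff_map] at h3
    exact (hR.ker _).1 h3.symm
  · intro n hn l
    have hn0 : n = 0 := by omega
    subst hn0
    rw [map_pow, r0_X0, Nat.zero_add, Nat.one_mul, Polynomial.C_1, one_mul]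
  · intro f
    refine ⟨fun _ => f, ?_⟩
    simp
  · intro a ha n hn
    have hn0 : n = 0 := by omega
    subst hn0
    simpa using ha
  · intro n
    have h2 : Δ (Δ (io R K (ε (X 0)))) = 0 := by
      rw [h0]
      exact Δ.map_algebraMap l
    have h3 := LNDHom.pow_top Δ h2 n
    have h4 : io R K (ε (X 0 ^ n)) = io R K (ε (X 0)) ^ n := by rw [map_pow, map_pow]
    rw [h4]
    refine ⟨h3.2, (n.factorial : K) * l ^ n, ?_, ?_⟩
    · exact mul_ne_zero (by exact_mod_cast Nat.factorial_ne_zero n) (pow_ne_zero n hl)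
    · rw [h3.1, h0, C_mul, C_pow, map_natCast]

namespace ABendAux

lemma io_aeval {R K : Type*} [CommRing R] [Field K] [Algebra R K] (P : P2 R) (g : Polynomial R) :
    io R K (Polynomial.aeval P g) =
      Polynomial.aeval (io R K P) (g.map (algebraMap R K)) := by
  rw [Polynomial.aeval_def, Polynomial.aeval_def, Polynomial.hom_eval₂, Polynomial.eval₂_map]
  have h1 : (io R K).comp (algebraMap R (P2 R)) = (algebraMap K (P2 K)).comp (algebraMap R K) := by
    ext a
    simp [io, MvPolynomial.algebraMap_eq]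
  rw [h1]

lemma clear_one {R K : Type*} [CommRing R] [Field K] [Algebra R K] (p : R)
    (hval : ∀ x : K, ∃ (e : ℕ) (a : R), algebraMap R K p ^ e * x = algebraMap R K a)
    (F : Polynomial K) : ∃ (e : ℕ) (G : Polynomial R),
      G.map (algebraMap R K) = Polynomial.C (algebraMap R K p ^ e) * F := by
  induction F using Polynomial.induction_on' with
  | add f g hf hg =>
    obtain ⟨e, G, hG⟩ := hf
    obtain ⟨e', G', hG'⟩ := hg
    refine ⟨e + e', Polynomial.C (p ^ e') * G + Polynomial.C (p ^ e) * G', ?_⟩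
    rw [Polynomial.map_add, Polynomial.map_mul, Polynomial.map_mul, hG, hG', Polynomial.map_C,
      Polynomial.map_C, map_pow (algebraMap R K), map_pow (algebraMap R K), pow_add,
      Polynomial.C_mul]
    ring
  | monomial n a =>
    obtain ⟨e, b, hb⟩ := hval a
    refine ⟨e, Polynomial.monomial n b, ?_⟩
    rw [Polynomial.map_monomial, ← hb, Polynomial.C_mul_monomial]

lemma clear_many {R K : Type*} [CommRing R] [Field K] [Algebra R K] (p : R)
    (hval : ∀ x : K, ∃ (e : ℕ) (a : R), algebraMap R K p ^ e * x = algebraMap R K a)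
    (F : ℕ → Polynomial K) (m : ℕ) : ∃ e : ℕ, ∀ i < m, ∃ G : Polynomial R,
      G.map (algebraMap R K) = Polynomial.C (algebraMap R K p ^ e) * F i := by
  induction m with
  | zero => exact ⟨0, fun i hi => absurd hi (Nat.not_lt_zero i)⟩
  | succ m ih =>
    obtain ⟨e, he⟩ := ih
    obtain ⟨e', G', hG'⟩ := clear_one p hval (F m)
    refine ⟨e + e', fun i hi => ?_⟩
    rcases Nat.lt_succ_iff_lt_or_eq.mp hi with h | h
    · obtain ⟨G, hG⟩ := he i h
      refine ⟨Polynomial.C (p ^ e') * G, ?_⟩
      rw [Polynomial.map_mul, hG, Polynomial.map_C, map_pow (algebraMap R K), pow_add,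
        Polynomial.C_mul]
      ring
    · subst h
      refine ⟨Polynomial.C (p ^ e) * G', ?_⟩
      rw [Polynomial.map_mul, hG', Polynomial.map_C, map_pow (algebraMap R K), pow_add,
        Polynomial.C_mul]
      ring

/-- comparison of coefficients in the residue ring -/
lemma compare {κ : Type*} [Field κ] {N : ℕ} (hN : 0 < N) (M : ℕ) (f : ℕ → Polynomial κ)
    (h : ∑ i ∈ Finset.range (N * M), Polynomial.C (f i) * Polynomial.X ^ (i / N) =
      (0 : Polynomial (Polynomial κ))) (l : ℕ) (hl : l < M) :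
    ∑ m ∈ Finset.range N, f (m + N * l) = 0 := by
  have h1 := congrArg (fun g : Polynomial (Polynomial κ) => g.coeff l) h
  simp only [Polynomial.finsetSum_coeff, Polynomial.coeff_C_mul, Polynomial.coeff_X_pow,
    Polynomial.coeff_zero, mul_ite, mul_one, mul_zero] at h1
  rw [← h1, ← Finset.sum_filter]
  refine Finset.sum_nbij' (fun m => m + N * l) (fun i => i % N) ?_ ?_ ?_ ?_ ?_
  · intro m hm
    rw [Finset.mem_range] at hm
    rw [Finset.mem_filter, Finset.mem_range]
    refine ⟨?_, ?_⟩
    · calc m + N * l < N + N * l := by omega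
        _ = N * (l + 1) := by ring
        _ ≤ N * M := Nat.mul_le_mul_left _ hl
    · rw [Nat.add_mul_div_left _ _ hN, Nat.div_eq_of_lt hm, Nat.zero_add]
  · intro i hi
    rw [Finset.mem_range]
    exact Nat.mod_lt _ hN
  · intro m hm
    rw [Finset.mem_range] at hm
    rw [Nat.add_mul_mod_self_left, Nat.mod_eq_of_lt hm]
  · intro i hi
    rw [Finset.mem_filter] at hi
    rw [hi.2]
    exact Nat.mod_add_div i N
  · intro m hm
    rfl

end ABendAux

open ABendAux

theorem ab_end {R K κ : Type*} [CommRing R] [IsDomain R] [Field K] [CharZero K] [Algebra R K]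
    [Field κ] (res : R →+* κ) (p : R) (hR : ResData res p)
    (hinj : Function.Injective (algebraMap R K))
    (hval : ∀ x : K, ∃ (e : ℕ) (a : R), algebraMap R K p ^ e * x = algebraMap R K a)
    (P : P2 R) (Δ : Derivation K (P2 K) (P2 K)) (hln : ∀ x, ∃ n, (⇑Δ)^[n] x = 0)
    (hker : ∀ y, Δ y = 0 → ∃ g : Polynomial K, y = Polynomial.aeval (io R K P) g)
    (ε : P2 R →ₐ[R] P2 R) (hε : Function.Bijective ε) (h : Nonempty (AB res p P Δ ε)) (n : ℕ) :
    ∃ (Q : P2 R) (l : K), l ≠ 0 ∧ (⇑Δ)^[n + 1] (io R K Q) = 0 ∧ (⇑Δ)^[n] (io R K Q) = C l ∧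
      ∀ x : P2 R, (⇑Δ)^[n + 1] (io R K x) = 0 →
        ∃ g : Polynomial R, (⇑Δ)^[n] (io R K x) = C l * io R K (Polynomial.aeval P g) := by
  classical
  obtain ⟨ab⟩ := h
  choose l hl0 hl using fun n => (ab.deg n).2
  have hdeg := fun n => (ab.deg n).1
  refine ⟨ε (ab.Q n), l n, hl0 n, hdeg n, hl n, fun x hx => ?_⟩
  have hio : Function.Injective (io R K) := MvPolynomial.map_injective _ hinj
  -- expansion over `K`
  have hexp := LNDHom.expand' (D := Δ) (Q := fun i => io R K (ε (ab.Q i))) (c := fun i => C (l i))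
    hl (fun i => by
      intro h1
      exact hl0 i (by rwa [MvPolynomial.C_eq_zero] at h1)) (fun i => Δ.map_algebraMap (l i))
    (fun i y _ => by
      have h1 : IsUnit (C (l i) : P2 K) := (isUnit_iff_ne_zero.2 (hl0 i)).map C
      exact h1.dvd) (n + 1) (io R K x) hx
  obtain ⟨lam, hlam0, hlam1, hlam2⟩ := hexp
  choose F0 hF0 using fun i => hker (lam i) (hlam0 i)
  set M := n + 1 with hM
  let F : ℕ → Polynomial K := fun i => if i < M then F0 i else 0
  have hNM : M ≤ ab.N * M := Nat.le_mul_of_pos_left _ ab.hN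
  have hF1 : ∀ i, Polynomial.aeval (io R K P) (F i) = lam i := by
    intro i
    by_cases hi : i < M
    · simp only [F, if_pos hi]
      exact (hF0 i).symm
    · simp only [F, if_neg hi, map_zero]
      exact (hlam1 i (not_lt.1 hi)).symm
  have hF2 : ∀ i, M ≤ i → F i = 0 := by
    intro i hi
    simp only [F, if_neg (not_lt.2 hi)]
  have hxsum : io R K x = ∑ i ∈ Finset.range (ab.N * M),
      Polynomial.aeval (io R K P) (F i) * io R K (ε (ab.Q i)) := by
    rw [hlam2, Finsupp.sum]
    have h1 : lam.support ⊆ Finset.range (ab.N * M) := by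
      intro i hi
      rw [Finset.mem_range]
      by_contra h2
      exact (Finsupp.mem_support_iff.1 hi) (hlam1 i (by omega))
    rw [Finset.sum_subset h1 (fun i _ hi => by
      rw [Finsupp.notMem_support_iff.1 hi, zero_mul])]
    exact Finset.sum_congr rfl fun i _ => by rw [hF1]
  have halgp : algebraMap R K p ≠ 0 := by
    intro h1
    exact hR.ne (hinj (by rw [h1, map_zero]))
  have hpre : res p = 0 := (hR.ker p).2 dvd_rfl
  -- descent
  have hstep : ∀ e : ℕ, (∃ G : ℕ → Polynomial R, ∀ i, (G i).map (algebraMap R K) =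
      Polynomial.C (algebraMap R K p ^ (e + 1)) * F i) → ∃ G : ℕ → Polynomial R,
      ∀ i, (G i).map (algebraMap R K) = Polynomial.C (algebraMap R K p ^ e) * F i := by
    rintro e ⟨G, hG⟩
    have hG0 : ∀ i, M ≤ i → G i = 0 := by
      intro i hi
      have h1 := hG i
      rw [hF2 i hi, mul_zero] at h1
      exact Polynomial.map_injective _ hinj (by rw [h1, Polynomial.map_zero])
    obtain ⟨x', rfl⟩ := hε.2 x
    have h1 : ∑ i ∈ Finset.range (ab.N * M), Polynomial.aeval P (G i) * ε (ab.Q i) =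
        C (p ^ (e + 1)) * ε x' := by
      apply hio
      rw [map_sum, map_mul, hxsum, Finset.mul_sum]
      refine Finset.sum_congr rfl fun i _ => ?_
      have h2 : io R K (C (p ^ (e + 1))) = C (algebraMap R K p ^ (e + 1)) := by
        rw [io, map_C, map_pow]
      rw [map_mul, io_aeval, hG, map_mul, Polynomial.aeval_C, h2, mul_assoc]
      rfl
    have h2 : ∑ i ∈ Finset.range (ab.N * M), Polynomial.aeval ab.Pe (G i) * ab.Q i =
        C (p ^ (e + 1)) * x' := by
      apply hε.1
      rw [map_sum, map_mul]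
      have h3 : ε (C (p ^ (e + 1))) = C (p ^ (e + 1)) := ε.commutes _
      rw [h3, ← h1]
      refine Finset.sum_congr rfl fun i _ => ?_
      rw [map_mul, ← Polynomial.aeval_algHom_apply, ab.hPe]
    have h3 : ∀ g : Polynomial R, ab.r (Polynomial.aeval ab.Pe g) =
        Polynomial.C ((g.map res).comp ab.rho) := by
      intro g
      rw [Polynomial.aeval_def, Polynomial.hom_eval₂, ab.hrho, Polynomial.comp,
        Polynomial.eval₂_map, ← Polynomial.coe_eval₂RingHom, Polynomial.hom_eval₂]
      have h4 : ab.r.comp (algebraMap R (P2 R)) =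
          (Polynomial.C : Polynomial κ →+* Polynomial (Polynomial κ)).comp
            ((Polynomial.C : κ →+* Polynomial κ).comp res) := by
        ext1 a
        exact ab.rC a
      rw [h4]
      rfl
    have h4 : ∑ i ∈ Finset.range (ab.N * M), Polynomial.C
        (((G i).map res).comp ab.rho * ab.q (i % ab.N)) * Polynomial.X ^ (i / ab.N) = 0 := by
      have h5 := congrArg ab.r h2
      rw [map_sum, map_mul, ab.rC, map_pow, hpre, zero_pow (Nat.succ_ne_zero e), Polynomial.C_0,
        Polynomial.C_0, zero_mul] at h5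
      rw [← h5]
      refine Finset.sum_congr rfl fun i _ => ?_
      have h6 := ab.hQ (i % ab.N) (Nat.mod_lt _ ab.hN) (i / ab.N)
      rw [Nat.mod_add_div] at h6
      rw [map_mul ab.r, h3, h6, Polynomial.C_mul, mul_assoc]
    have h5 : ∀ i, (G i).map res = 0 := by
      intro i
      rcases lt_or_ge i M with hi | hi
      · have h6 := compare ab.hN M _ h4 (i / ab.N) (lt_of_le_of_lt (Nat.div_le_self _ _) hi)
        have h7 := ab.ind (fun m => (G (m + ab.N * (i / ab.N))).map res) (by
          rw [← h6]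
          refine Finset.sum_congr rfl fun m hm => ?_
          rw [Finset.mem_range] at hm
          rw [Nat.add_mul_mod_self_left, Nat.mod_eq_of_lt hm]) (i % ab.N) (Nat.mod_lt _ ab.hN)
        simpa only [Nat.mod_add_div] using h7
      · rw [hG0 i hi, Polynomial.map_zero]
    have h6 : ∀ i, ∃ G' : Polynomial R, G i = Polynomial.C p * G' := by
      intro i
      have h7 : Polynomial.C p ∣ G i := by
        rw [Polynomial.C_dvd_iff_dvd_coeff]
        intro j
        have h8 := congrArg (fun g : Polynomial κ => g.coeff j) (h5 i)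
        rw [Polynomial.coeff_map, Polynomial.coeff_zero] at h8
        exact (hR.ker _).1 h8
      exact h7
    choose G' hG' using h6
    refine ⟨G', fun i => ?_⟩
    have h7 := hG i
    rw [hG' i, Polynomial.map_mul, Polynomial.map_C, pow_succ', Polynomial.C_mul, mul_assoc] at h7
    exact mul_left_cancel₀ (Polynomial.C_ne_zero.2 halgp) h7
  have hall : ∀ e : ℕ, (∃ G : ℕ → Polynomial R, ∀ i, (G i).map (algebraMap R K) =
      Polynomial.C (algebraMap R K p ^ e) * F i) → ∃ G : ℕ → Polynomial R,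
      ∀ i, (G i).map (algebraMap R K) = F i := by
    intro e
    induction e with
    | zero =>
      rintro ⟨G, hG⟩
      exact ⟨G, fun i => by rw [hG i, pow_zero, Polynomial.C_1, one_mul]⟩
    | succ e ih => exact fun h1 => ih (hstep e h1)
  obtain ⟨e, he⟩ := clear_many p hval F M
  have he2 : ∀ i, ∃ G : Polynomial R,
      G.map (algebraMap R K) = Polynomial.C (algebraMap R K p ^ e) * F i := by
    intro i
    rcases lt_or_ge i M with hi | hi
    · exact he i hi
    · exact ⟨0, by rw [hF2 i hi, mul_zero, Polynomial.map_zero]⟩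
  choose G0 hG0 using he2
  obtain ⟨G, hG⟩ := hall e ⟨G0, hG0⟩
  refine ⟨G n, ?_⟩
  rw [hxsum, LNDHom.iter_sum, Finset.sum_eq_single n]
  · rw [LNDHom.iter_const Δ (by rw [hF1]; exact hlam0 n), hl n, io_aeval, hG, mul_comm]
  · intro i _ hin
    rw [LNDHom.iter_const Δ (by rw [hF1]; exact hlam0 i)]
    rcases lt_or_gt_of_ne hin with h1 | h1
    · rw [LNDHom.iter_zero_of_le Δ (hdeg i) h1, mul_zero]
    · rw [hF2 i h1, map_zero, zero_mul]
  · intro h1
    exact absurd (Finset.mem_range.2 (lt_of_lt_of_le (Nat.lt_succ_self n) hNM)) h1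

end Pool.Agent.R2F
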