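import Mathlib
import Pool.Agent.R2F.Defs

/-!
# the residue of the first variable involves the second residual coordinate

Proof. Suppose `h.r (X 0) = C ξ`, `ξ ∈ κ[T]`. `ξ ≠ 0` by `rk` (`C p` does not divide `X 0`). `κ[T] / (ξ)` is finite over `κ` (`AdjoinRoot ξ`, `ξ ≠ 0`; if `ξ` is a unit the ring is trivial, no problem), so `rho` is integral modulo `ξ`:
there is a monic `F ∈ κ[Z]` with `ξ ∣ F(rho)`, `F(rho) = ξ g`. Lift `F` to a polynomial `F' ∈ R[Z]` (`hR.surj`), not divisible by `p`, and `C g = r g'` (`rs`). Then `r (F'(Pe) - X 0 * g') = 0`, so `C p ∣ F'(Pe) - X 0 * g'`; apply `ε' ∘ dil p`: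
`C p ∣ F'(P) - C p * ε' (X 0) * ..`, so `C p ∣ F'(P)`, and `NC p P` gives `p ∣ F'`: contradiction.
-/

set_option autoImplicit false

open MvPolynomial

namespace Pool.Agent.R2F

theorem ab_pos {R K κ : Type*} [CommRing R] [IsDomain R] [Field K] [Algebra R K] [Field κ]
    (res : R →+* κ) (p : R) (hR : ResData res p) (P : P2 R) (hP : NC p P)
    (Δ : Derivation K (P2 K) (P2 K)) (ε : P2 R →ₐ[R] P2 R) (h : AB res p P Δ (ε.comp (dil p))) :
    0 < (h.r (X 0)).natDegree := by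
  by_contra hcon
  have hdeg : (h.r (X 0)).natDegree = 0 := by omega
  obtain ⟨ξ, hξ⟩ : ∃ ξ : Polynomial κ, h.r (X 0) = Polynomial.C ξ :=
    ⟨_, Polynomial.eq_C_of_natDegree_eq_zero hdeg⟩
  have hres_p : res p = 0 := (hR.ker p).mpr dvd_rfl
  have hξ0 : ξ ≠ 0 := by
    rintro rfl
    rw [Polynomial.C_0] at hξ
    have h1 := h.rk _ hξ
    rw [MvPolynomial.C_dvd_iff_dvd_coeff] at h1
    have h2 := h1 (Finsupp.single 0 1)
    rw [MvPolynomial.coeff_X, if_pos rfl] at h2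
    have h3 := (hR.ker 1).mpr h2
    rw [map_one] at h3
    exact one_ne_zero h3
  -- a monic polynomial with `ξ ∣ F(rho)`
  obtain ⟨F, hFm, hFd⟩ : ∃ F : Polynomial κ, F.Monic ∧ ξ ∣ Polynomial.aeval h.rho F := by
    have : Module.Finite κ (AdjoinRoot ξ) := (AdjoinRoot.powerBasis hξ0).finite
    obtain ⟨F, hFm, hF⟩ := Algebra.IsIntegral.isIntegral (R := κ) (AdjoinRoot.mk ξ h.rho)
    refine ⟨F, hFm, ?_⟩
    rw [← AdjoinRoot.mk_eq_zero, ← hF]
    have h1 : (AdjoinRoot.mk ξ) (Polynomial.aeval h.rho F) =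
        Polynomial.eval₂ ((AdjoinRoot.mk ξ).comp (algebraMap κ (Polynomial κ))) (AdjoinRoot.mk ξ h.rho) F := by
      rw [Polynomial.aeval_def, Polynomial.hom_eval₂]
    rw [h1]
    rfl
  obtain ⟨g, hg⟩ := hFd
  obtain ⟨F', hF'⟩ := Polynomial.map_surjective res hR.surj F
  have hF'n : ¬ Polynomial.C p ∣ F' := by
    rintro ⟨G, rfl⟩
    rw [Polynomial.map_mul, Polynomial.map_C, hres_p, Polynomial.C_0, zero_mul] at hF'
    exact hFm.ne_zero hF'.symm
  obtain ⟨g', hg'⟩ := h.rs (Polynomial.C g)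
  have h4 : h.r (Polynomial.aeval h.Pe F') = Polynomial.C (Polynomial.aeval h.rho F) := by
    rw [Polynomial.aeval_def, Polynomial.hom_eval₂, h.hrho]
    have h5 : h.r.comp (algebraMap R (P2 R)) = ((Polynomial.C).comp (Polynomial.C)).comp res := by
      refine RingHom.ext fun a => ?_
      exact h.rC a
    rw [h5, ← Polynomial.eval₂_map, hF', Polynomial.aeval_def]
    exact (Polynomial.hom_eval₂ F Polynomial.C Polynomial.C h.rho).symm
  have h6 : h.r (Polynomial.aeval h.Pe F' - X 0 * g') = 0 := by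
    rw [map_sub, map_mul, h4, hξ, hg', hg, Polynomial.C_mul, sub_self]
  obtain ⟨u, hu⟩ := h.rk _ h6
  have h7 := congrArg (ε.comp (dil p)) hu
  rw [map_sub, map_mul, map_mul, ← Polynomial.aeval_algHom_apply, h.hPe] at h7
  have h8 : (ε.comp (dil p)) (X 0) = C p * ε (X 0) := by
    rw [AlgHom.comp_apply, dil_X0, map_mul]
    congr 1
    exact ε.commutes p
  have h9 : (ε.comp (dil p)) (C p) = C p := (ε.comp (dil p)).commutes p
  rw [h8, h9] at h7
  refine hF'n (hP F' ⟨(ε.comp (dil p)) u + ε (X 0) * (ε.comp (dil p)) g', ?_⟩)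
  rw [mul_add, ← h7]
  ring

end Pool.Agent.R2F
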