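import Mathlib
import Pool.Agent.R2F.Defs

/-!
# coordinates with a given partner; kernel of a partial derivative

exists_equiv: `aeval ![a, b]` is surjective (range = adjoin), so injective (surjective endomorphism of a noetherian ring).
elem_form: apply `φ.symm`: wlog `φ = 1`; transport to `Polynomial (Polynomial K)` (`X 1 ↦ C X`, `X 0 ↦ X`): `a' ∈ K[Y][X]` with `K[a', Y] = K[Y][X]`, so `X = G.comp a'` for some `G ∈ K[Y][X]` (elements of `adjoin K {a', C Y}` are `G.comp a'`);
`natDegree_comp` gives `natDegree a' = 1`, and leading coefficients multiply to `1`, so `a' = c X + h(Y)` with `c` a non-zero constant.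
ker_form: `y ↦ φ.symm y`; `Δ' = φ.symm ∘ Δ ∘ φ = pderiv 0`; `pderiv 0 f = 0` in characteristic zero implies that `f` is a polynomial in `X 1`.
-/

set_option autoImplicit false

open MvPolynomial

namespace Pool.Agent.R2F

namespace ElemLAux

/-- surjective endomorphisms of noetherian rings are injective -/
theorem inj_of_surj {A : Type*} [CommRing A] [IsNoetherianRing A] (f : A →+* A)
    (hf : Function.Surjective f) : Function.Injective f := by
  have hmono : Monotone fun n : ℕ => RingHom.ker (f ^ n) := by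
    refine monotone_nat_of_le_succ fun n x hx => ?_
    rw [RingHom.mem_ker] at hx ⊢
    rw [pow_succ', RingHom.mul_def, RingHom.comp_apply, hx, map_zero]
  obtain ⟨n, hn⟩ := monotone_stabilizes_iff_noetherian.mpr
    (inferInstance : IsNoetherian A A) ⟨_, hmono⟩
  rw [injective_iff_map_eq_zero]
  intro x hx
  have hs : Function.Surjective (f ^ n : A →+* A) := by
    rw [RingHom.coe_pow]
    exact hf.iterate n
  obtain ⟨y, rfl⟩ := hs x
  have h1 : y ∈ RingHom.ker (f ^ (n + 1)) := by
    rw [RingHom.mem_ker, pow_succ', RingHom.mul_def, RingHom.comp_apply, hx]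
  have h2 := hn (n + 1) (Nat.le_succ n)
  have h3 : y ∈ RingHom.ker (f ^ n) := by
    have h4 : RingHom.ker (f ^ n) = RingHom.ker (f ^ (n + 1)) := h2
    rw [h4]
    exact h1
  exact RingHom.mem_ker.mp h3

variable {K : Type*} [Field K]

/-- `K[X 0, X 1] → K[Y][X]` -/
noncomputable def T : P2 K →ₐ[K] Polynomial (Polynomial K) :=
  aeval ![Polynomial.X, Polynomial.C Polynomial.X]

theorem T_X0 : T (X 0 : P2 K) = Polynomial.X := by simp [T]

theorem T_X1 : T (X 1 : P2 K) = Polynomial.C Polynomial.X := by simp [T]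

theorem T_C (c : K) : T (C c : P2 K) = Polynomial.C (Polynomial.C c) := by
  have h : T (C c : P2 K) = algebraMap K _ c := T.commutes c
  rw [h]
  rfl

/-- `K[Y][X] → K[X 0, X 1]` -/
noncomputable def S : Polynomial (Polynomial K) →+* P2 K :=
  Polynomial.eval₂RingHom (Polynomial.aeval (X 1 : P2 K)).toRingHom (X 0)

theorem S_X : S (Polynomial.X : Polynomial (Polynomial K)) = X 0 := by
  simp [S]

theorem S_C (g : Polynomial K) : S (Polynomial.C g) = Polynomial.aeval (X 1 : P2 K) g := by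
  simp [S]

theorem S_T (f : P2 K) : S (T f) = f := by
  induction f using MvPolynomial.induction_on with
  | C c => rw [T_C, S_C, Polynomial.aeval_C]; rfl
  | add p q hp hq => rw [map_add, map_add, hp, hq]
  | mul_X p i hp =>
    rw [map_mul, map_mul, hp]
    congr 1
    fin_cases i
    · change S (T (X 0)) = X 0
      rw [T_X0, S_X]
    · change S (T (X 1)) = X 1
      rw [T_X1, S_C, Polynomial.aeval_X]

theorem T_comp (a : P2 K) (f : P2 K) : T (aeval ![a, X 1] f) = (T f).comp (T a) := by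
  induction f using MvPolynomial.induction_on with
  | C c =>
    rw [T_C, Polynomial.C_comp, MvPolynomial.aeval_C]
    exact T_C c
  | add p q hp hq => rw [map_add, map_add, hp, hq, map_add, Polynomial.add_comp]
  | mul_X p i hp =>
    rw [map_mul, map_mul, hp, map_mul, Polynomial.mul_comp]
    congr 1
    fin_cases i
    · change T (aeval ![a, X 1] (X 0)) = (T (X 0)).comp (T a)
      rw [aeval_X, T_X0, Polynomial.X_comp]
      rfl
    · change T (aeval ![a, X 1] (X 1)) = (T (X 1)).comp (T a)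
      rw [aeval_X, T_X1, Polynomial.C_comp]
      exact T_X1

theorem surj_of_adjoin (a b : P2 K) (h : Algebra.adjoin K {a, b} = ⊤) :
    Function.Surjective (aeval ![a, b] : P2 K →ₐ[K] P2 K) := by
  have h1 : Set.range ![a, b] = {a, b} := Matrix.range_cons_cons_empty a b ![]
  have h2 := Algebra.adjoin_range_eq_range_aeval K ![a, b]
  rw [h1, h] at h2
  intro y
  have h3 : y ∈ (⊤ : Subalgebra K (P2 K)) := Algebra.mem_top
  rw [h2] at h3
  exact (AlgHom.mem_range _).mp h3

theorem form (a : P2 K) (h : Function.Surjective (aeval ![a, X 1] : P2 K →ₐ[K] P2 K)) :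
    ∃ (c : K) (g : Polynomial K), c ≠ 0 ∧ a = C c * X 0 + Polynomial.aeval (X 1 : P2 K) g := by
  obtain ⟨F, hF⟩ := h (X 0)
  have h1 : (T F).comp (T a) = Polynomial.X := by
    rw [← T_comp, hF, T_X0]
  have h2 : (T F).natDegree * (T a).natDegree = 1 := by
    rw [← Polynomial.natDegree_comp, h1, Polynomial.natDegree_X]
  obtain ⟨h3, h4⟩ := mul_eq_one.mp h2
  have h5 := Polynomial.leadingCoeff_comp (p := T F) (q := T a) (by rw [h4]; exact one_ne_zero)
  rw [h1, Polynomial.leadingCoeff_X, h3, pow_one] at h5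
  have h6 : IsUnit (T a).leadingCoeff := IsUnit.of_mul_eq_one_right _ h5.symm
  obtain ⟨c, hc, hc'⟩ := Polynomial.isUnit_iff.mp h6
  refine ⟨c, (T a).coeff 0, hc.ne_zero, ?_⟩
  have h7 := Polynomial.eq_X_add_C_of_natDegree_le_one h4.le
  have h8 : (T a).coeff 1 = Polynomial.C c := by
    rw [hc', Polynomial.leadingCoeff, h4]
  rw [h8] at h7
  have h9 := congrArg S h7
  rw [S_T, map_add, map_mul, S_C, S_C, S_X, Polynomial.aeval_C] at h9
  exact h9

theorem T_deriv (Δ : Derivation K (P2 K) (P2 K)) (φ : P2 K ≃ₐ[K] P2 K) (h1 : Δ (φ (X 0)) = 1)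
    (h0 : Δ (φ (X 1)) = 0) (f : P2 K) :
    T (φ.symm (Δ (φ f))) = Polynomial.derivative (T f) := by
  induction f using MvPolynomial.induction_on with
  | C c =>
    have h2 : φ (C c) = algebraMap K (P2 K) c := φ.commutes c
    rw [T_C, Polynomial.derivative_C, h2, Derivation.map_algebraMap, map_zero, map_zero]
  | add p q hp hq =>
    rw [map_add, map_add, map_add, map_add, hp, hq, map_add, Polynomial.derivative_add]
  | mul_X p i hp =>
    rw [map_mul, Derivation.leibniz, map_add, smul_eq_mul, smul_eq_mul, map_mul, map_mul,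
      AlgEquiv.symm_apply_apply, AlgEquiv.symm_apply_apply, map_add, map_mul, map_mul, hp, map_mul,
      Polynomial.derivative_mul]
    fin_cases i
    · change T p * T (φ.symm (Δ (φ (X 0)))) + T (X 0) * _ = _ * T (X 0) + T p * Polynomial.derivative (T (X 0))
      rw [h1, map_one, map_one, T_X0, Polynomial.derivative_X]
      ring
    · change T p * T (φ.symm (Δ (φ (X 1)))) + T (X 1) * _ = _ * T (X 1) + T p * Polynomial.derivative (T (X 1))
      rw [h0, map_zero, map_zero, T_X1, Polynomial.derivative_C]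
      ring

end ElemLAux

theorem exists_equiv {K : Type*} [Field K] (a b : P2 K) (h : Algebra.adjoin K {a, b} = ⊤) :
    ∃ φ : P2 K ≃ₐ[K] P2 K, φ (X 0) = a ∧ φ (X 1) = b := by
  have hs := ElemLAux.surj_of_adjoin a b h
  have hi : Function.Injective (aeval ![a, b] : P2 K →ₐ[K] P2 K) :=
    ElemLAux.inj_of_surj (aeval ![a, b] : P2 K →ₐ[K] P2 K).toRingHom hs
  refine ⟨AlgEquiv.ofBijective (aeval ![a, b]) ⟨hi, hs⟩, ?_, ?_⟩
  · rw [AlgEquiv.ofBijective_apply, aeval_X]
    rfl
  · rw [AlgEquiv.ofBijective_apply, aeval_X]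
    rfl

theorem elem_form {K : Type*} [Field K] (φ : P2 K ≃ₐ[K] P2 K) (a : P2 K)
    (h : Algebra.adjoin K {a, φ (X 1)} = ⊤) :
    ∃ (c : K) (g : Polynomial K), c ≠ 0 ∧ a = C c * φ (X 0) + Polynomial.aeval (φ (X 1)) g := by
  have hs := ElemLAux.surj_of_adjoin a (φ (X 1)) h
  have hs' : Function.Surjective (aeval ![φ.symm a, X 1] : P2 K →ₐ[K] P2 K) := by
    intro y
    obtain ⟨x, hx⟩ := hs (φ y)
    refine ⟨x, ?_⟩
    have h1 : (aeval ![φ.symm a, X 1] : P2 K →ₐ[K] P2 K) =
        (φ.symm : P2 K →ₐ[K] P2 K).comp (aeval ![a, φ (X 1)]) := by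
      refine MvPolynomial.algHom_ext fun i => ?_
      fin_cases i
      · change aeval ![φ.symm a, X 1] (X 0) = φ.symm (aeval ![a, φ (X 1)] (X 0))
        rw [aeval_X, aeval_X]
        rfl
      · change aeval ![φ.symm a, X 1] (X 1) = φ.symm (aeval ![a, φ (X 1)] (X 1))
        rw [aeval_X, aeval_X]
        exact (φ.symm_apply_apply (X 1)).symm
    rw [h1]
    change φ.symm (aeval ![a, φ (X 1)] x) = y
    rw [hx, AlgEquiv.symm_apply_apply]
  obtain ⟨c, g, hc, hg⟩ := ElemLAux.form (φ.symm a) hs'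
  refine ⟨c, g, hc, ?_⟩
  have h2 := congrArg φ hg
  have h3 : φ (C c) = C c := φ.commutes c
  rw [AlgEquiv.apply_symm_apply, map_add, map_mul, h3] at h2
  rw [h2]
  congr 1
  exact (Polynomial.aeval_algHom_apply (φ : P2 K →ₐ[K] P2 K) (X 1) g).symm

theorem ker_form {K : Type*} [Field K] [CharZero K] (φ : P2 K ≃ₐ[K] P2 K)
    (Δ : Derivation K (P2 K) (P2 K)) (h1 : Δ (φ (X 0)) = 1) (h0 : Δ (φ (X 1)) = 0) (y : P2 K)
    (hy : Δ y = 0) : ∃ g : Polynomial K, y = Polynomial.aeval (φ (X 1)) g := by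
  have h2 := ElemLAux.T_deriv Δ φ h1 h0 (φ.symm y)
  rw [AlgEquiv.apply_symm_apply, hy, map_zero, map_zero] at h2
  have h3 := Polynomial.eq_C_of_derivative_eq_zero h2.symm
  have h4 := congrArg ElemLAux.S h3
  rw [ElemLAux.S_T, ElemLAux.S_C] at h4
  refine ⟨(ElemLAux.T (φ.symm y)).coeff 0, ?_⟩
  have h5 := congrArg φ h4
  rw [AlgEquiv.apply_symm_apply] at h5
  refine h5.trans ?_
  exact (Polynomial.aeval_algHom_apply (φ : P2 K →ₐ[K] P2 K) (X 1) _).symm

end Pool.Agent.R2F
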