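import Mathlib
import Pool.Agent.R2F.Lead
import Pool.Agent.R2F.ElemL
import Pool.Agent.LNDHom.Gr

/-!
# coordinates are monic

Proof. Transport to `P2 κ` by `θ : κ[T][W] ≃ P2 κ`, `T ↦ X 0`, `W ↦ X 1`: `a = θ G`, `b = θ G'` generate `P2 κ`, so there is an automorphism `φ` with `φ (X 0) = a`, `φ (X 1) = b` (`exists_equiv`). `E := φ ∘ pderiv 1 ∘ φ⁻¹` is a non-zero locally
nilpotent derivation with `E a = 0`. Let `m = G.natDegree > 0`, `k = G.leadingCoeff.natDegree`. With the weights `w = ![1, N]`, `N` larger than all `T`-degrees of the coefficients of `G`, the component of `a` of weight `k + N m` is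
`lc * X 0 ^ k * X 1 ^ m` (`lc ≠ 0` in `κ`) and all components of larger weight vanish. `exists_lead`: `E' ≠ 0` locally nilpotent with `E' (X 0 ^ k * X 1 ^ m) = 0`. If `k > 0`, then `E' (X 0) = E' (X 1) = 0` (`LNDHom.fact_closed`), so `E' = 0`:
contradiction. So `k = 0`.
-/

set_option autoImplicit false

open MvPolynomial

namespace Pool.Agent.R2F

namespace MonicLAux

variable {κ : Type*} [Field κ]

/-- `κ[T][W] → P2 κ`, `T ↦ X 0`, `W ↦ X 1` -/
noncomputable def th (κ : Type*) [Field κ] : Polynomial (Polynomial κ) →ₐ[κ] P2 κ where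
  toRingHom := Polynomial.eval₂RingHom
    (Polynomial.aeval (X 0 : P2 κ)).toRingHom (X 1 : P2 κ)
  commutes' := fun r => by
    have h : algebraMap κ (Polynomial (Polynomial κ)) r = Polynomial.C (Polynomial.C r) := rfl
    rw [h]
    simp

theorem th_C (f : Polynomial κ) : th κ (Polynomial.C f) = Polynomial.aeval (X 0 : P2 κ) f := by
  change Polynomial.eval₂ _ _ (Polynomial.C f) = _
  rw [Polynomial.eval₂_C]
  rfl

theorem th_X : th κ Polynomial.X = X 1 := by
  change Polynomial.eval₂ _ _ Polynomial.X = _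
  rw [Polynomial.eval₂_X]

theorem th_surj : Function.Surjective (th κ) := by
  intro y
  induction y using MvPolynomial.induction_on with
  | C a => exact ⟨algebraMap κ _ a, by rw [AlgHom.commutes]; rfl⟩
  | add p q hp hq =>
    obtain ⟨x, hx⟩ := hp
    obtain ⟨z, hz⟩ := hq
    exact ⟨x + z, by rw [map_add, hx, hz]⟩
  | mul_X p i hp =>
    obtain ⟨x, hx⟩ := hp
    rcases i with ⟨i, hi⟩
    interval_cases i
    · refine ⟨x * Polynomial.C Polynomial.X, ?_⟩
      rw [map_mul, hx, th_C, Polynomial.aeval_X]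
      rfl
    · refine ⟨x * Polynomial.X, ?_⟩
      rw [map_mul, hx, th_X]
      rfl

theorem th_coeff (f : Polynomial (Polynomial κ)) (s : Fin 2 →₀ ℕ) :
    coeff s (th κ f) = (f.coeff (s 1)).coeff (s 0) := by
  induction f using Polynomial.induction_on' with
  | add p q hp hq => rw [map_add, coeff_add, hp, hq, Polynomial.coeff_add, Polynomial.coeff_add]
  | monomial n g =>
    induction g using Polynomial.induction_on' with
    | add p q hp hq =>
      rw [map_add, map_add, coeff_add, hp, hq, Polynomial.coeff_add, Polynomial.coeff_add]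
    | monomial m c =>
      have h1 : th κ (Polynomial.monomial n (Polynomial.monomial m c)) =
          monomial (Finsupp.single 0 m + Finsupp.single 1 n) c := by
        rw [← Polynomial.C_mul_X_pow_eq_monomial, map_mul, map_pow, th_X, th_C,
          Polynomial.aeval_monomial, X_pow_eq_monomial, X_pow_eq_monomial]
        change C c * _ * _ = _
        rw [C_mul_monomial, monomial_mul, mul_one, mul_one]
      rw [h1, coeff_monomial, Polynomial.coeff_monomial]
      by_cases hn : n = s 1
      · rw [if_pos hn, Polynomial.coeff_monomial]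
        by_cases hm : m = s 0
        · rw [if_pos hm, if_pos]
          ext i
          fin_cases i
          · simp [hm]
          · simp [hn]
        · rw [if_neg hm, if_neg]
          intro h
          apply hm
          have := DFunLike.congr_fun h 0
          simpa using this
      · rw [if_neg hn, Polynomial.coeff_zero, if_neg]
        intro h
        apply hn
        have := DFunLike.congr_fun h 1
        simpa using this

/-- `pderiv` is locally nilpotent -/
theorem pd_ln (i : Fin 2) (x : P2 κ) : ∃ n, (⇑(pderiv (R := κ) i))^[n] x = 0 := by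
  have hmon : ∀ (n : ℕ) (s : Fin 2 →₀ ℕ) (c : κ), s i < n →
      (⇑(pderiv (R := κ) i))^[n] (monomial s c) = 0 := by
    intro n
    induction n with
    | zero => intro s c h; exact absurd h (Nat.not_lt_zero _)
    | succ n ih =>
      intro s c h
      rw [Function.iterate_succ_apply, pderiv_monomial]
      rcases Nat.eq_zero_or_pos (s i) with h0 | h0
      · rw [h0, Nat.cast_zero, mul_zero, monomial_zero]
        exact iterate_map_zero _ _
      · apply ih
        rw [Finsupp.tsub_apply, Finsupp.single_eq_same]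
        omega
  induction x using MvPolynomial.induction_on' with
  | monomial s c => exact ⟨s i + 1, hmon _ _ _ (Nat.lt_succ_self _)⟩
  | add p q hp hq =>
    obtain ⟨a, ha⟩ := hp
    obtain ⟨b, hb⟩ := hq
    refine ⟨a + b, ?_⟩
    rw [iterate_map_add, Function.iterate_add_apply _ a b q, hb, iterate_map_zero,
      Nat.add_comm a b, Function.iterate_add_apply _ b a p, ha, iterate_map_zero, add_zero]

/-- the conjugate of `pderiv 1` -/
noncomputable def conj (φ : P2 κ ≃ₐ[κ] P2 κ) : Derivation κ (P2 κ) (P2 κ) :=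
  Derivation.mk' (φ.toLinearMap ∘ₗ ((pderiv (1 : Fin 2) : Derivation κ (P2 κ) (P2 κ)) :
    P2 κ →ₗ[κ] P2 κ) ∘ₗ φ.symm.toLinearMap)
    (fun a b => by
      change φ (pderiv (1 : Fin 2) (φ.symm (a * b))) = a • φ (pderiv (1 : Fin 2) (φ.symm b)) +
        b • φ (pderiv (1 : Fin 2) (φ.symm a))
      rw [map_mul, Derivation.leibniz, map_add, smul_eq_mul, smul_eq_mul, smul_eq_mul, smul_eq_mul,
        map_mul, map_mul, AlgEquiv.apply_symm_apply, AlgEquiv.apply_symm_apply])

theorem conj_apply (φ : P2 κ ≃ₐ[κ] P2 κ) (x : P2 κ) :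
    conj φ x = φ (pderiv (1 : Fin 2) (φ.symm x)) := rfl

theorem conj_iter (φ : P2 κ ≃ₐ[κ] P2 κ) (n : ℕ) (x : P2 κ) :
    (⇑(conj φ))^[n] x = φ ((⇑(pderiv (R := κ) (1 : Fin 2)))^[n] (φ.symm x)) := by
  induction n generalizing x with
  | zero => simp
  | succ n ih =>
    rw [Function.iterate_succ_apply, ih, conj_apply, AlgEquiv.symm_apply_apply,
      Function.iterate_succ_apply]

end MonicLAux

open MonicLAux

theorem monic_of_coord {κ : Type*} [Field κ] [CharZero κ] (G G' : Polynomial (Polynomial κ))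
    (hgen : ∀ f : Polynomial (Polynomial κ), ∃ F : P2 κ, aeval ![G, G'] F = f)
    (hm : 0 < G.natDegree) : ∃ c : κ, c ≠ 0 ∧ G.leadingCoeff = Polynomial.C c := by
  have hG0 : G ≠ 0 := by
    rintro rfl
    simp at hm
  have hlc0 : G.leadingCoeff ≠ 0 := Polynomial.leadingCoeff_ne_zero.mpr hG0
  -- generation
  have hadj : Algebra.adjoin κ {th κ G, th κ G'} = ⊤ := by
    rw [eq_top_iff]
    rintro y -
    obtain ⟨f, rfl⟩ := th_surj y
    obtain ⟨F, rfl⟩ := hgen f
    have h1 : th κ (aeval ![G, G'] F) = aeval ![th κ G, th κ G'] F := by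
      rw [← AlgHom.comp_apply]
      congr 1
      refine MvPolynomial.algHom_ext (fun i => ?_)
      rw [AlgHom.comp_apply, aeval_X, aeval_X]
      fin_cases i <;> rfl
    rw [h1]
    have h2 : aeval ![th κ G, th κ G'] F ∈ (aeval (R := κ) ![th κ G, th κ G']).range := ⟨F, rfl⟩
    rw [← Algebra.adjoin_range_eq_range_aeval] at h2
    refine Algebra.adjoin_mono ?_ h2
    rintro z ⟨i, rfl⟩
    fin_cases i
    · exact Or.inl rfl
    · exact Or.inr rfl
  obtain ⟨φ, hφ0, hφ1⟩ := exists_equiv (th κ G) (th κ G') hadj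
  have hln : ∀ x, ∃ n, (⇑(conj φ))^[n] x = 0 := by
    intro x
    obtain ⟨n, hn⟩ := pd_ln (1 : Fin 2) (φ.symm x)
    exact ⟨n, by rw [conj_iter, hn, map_zero]⟩
  have hE0 : ∃ x, conj φ x ≠ 0 := by
    refine ⟨th κ G', ?_⟩
    rw [conj_apply, ← hφ1, AlgEquiv.symm_apply_apply, pderiv_X_self, map_one]
    exact one_ne_zero
  have hEa : conj φ (th κ G) = 0 := by
    rw [conj_apply, ← hφ0, AlgEquiv.symm_apply_apply, pderiv_X_of_ne (by decide), map_zero]
  -- weights
  set m := G.natDegree with hmdef
  set k := G.leadingCoeff.natDegree with hkdef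
  set N : ℕ := (G.support.sup fun j => (G.coeff j).natDegree) + 1 with hN
  have hNdeg : ∀ j, (G.coeff j).natDegree < N := by
    intro j
    rw [hN, Nat.lt_succ_iff]
    by_cases hj : j ∈ G.support
    · exact Finset.le_sup (f := fun j => (G.coeff j).natDegree) hj
    · rw [Polynomial.notMem_support_iff.mp hj, Polynomial.natDegree_zero]
      exact Nat.zero_le _
  let w : Fin 2 → ℤ := ![1, (N : ℤ)]
  have hw : ∀ i, 0 < w i := by
    intro i
    fin_cases i
    · exact one_pos
    · change (0 : ℤ) < (N : ℤ)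
      exact_mod_cast Nat.succ_pos _
  have hwt : ∀ s : Fin 2 →₀ ℕ, Finsupp.weight w s = (s 0 : ℤ) + (s 1 : ℤ) * N := by
    intro s
    rw [Finsupp.weight_apply, Finsupp.sum_fintype _ _ (by intro i; simp)]
    rw [Fin.sum_univ_two]
    simp [w]
  obtain ⟨D', hD'ln, hD'0, hD'⟩ := exists_lead w hw (conj φ) hln hE0
  -- bounds on the support
  have hbound : ∀ s : Fin 2 →₀ ℕ, coeff s (th κ G) ≠ 0 →
      (s 0 : ℤ) + (s 1 : ℤ) * N ≤ (k : ℤ) + m * N ∧
      ((s 0 : ℤ) + (s 1 : ℤ) * N = (k : ℤ) + m * N → s 0 = k ∧ s 1 = m) := by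
    intro s hs
    rw [th_coeff] at hs
    have h1 : s 1 ≤ m := by
      apply Polynomial.le_natDegree_of_ne_zero
      intro h
      rw [h, Polynomial.coeff_zero] at hs
      exact hs rfl
    have h0 : s 0 ≤ (G.coeff (s 1)).natDegree := Polynomial.le_natDegree_of_ne_zero hs
    rcases Nat.lt_or_ge (s 1) m with h | h
    · have h2 : s 0 < N := lt_of_le_of_lt h0 (hNdeg _)
      have h3 : s 0 + s 1 * N < k + m * N := by
        calc s 0 + s 1 * N < N + s 1 * N := by omega
          _ = (s 1 + 1) * N := by ring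
          _ ≤ m * N := Nat.mul_le_mul_right _ h
          _ ≤ k + m * N := Nat.le_add_left _ _
      have h4 : (s 0 : ℤ) + (s 1 : ℤ) * N < (k : ℤ) + m * N := by exact_mod_cast h3
      exact ⟨h4.le, fun h5 => absurd h5 h4.ne⟩
    · have h2 : s 1 = m := le_antisymm h1 h
      rw [h2] at h0 ⊢
      have h3 : s 0 ≤ k := h0
      refine ⟨?_, ?_⟩
      · have : (s 0 : ℤ) ≤ k := by exact_mod_cast h3
        linarith
      · intro h5
        have : (s 0 : ℤ) = k := by linarith
        exact ⟨by exact_mod_cast this, rfl⟩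
  have hbig : ∀ d, (k : ℤ) + m * N < d → weightedHomogeneousComponent w d (th κ G) = 0 := by
    intro d hd
    ext s
    rw [coeff_weightedHomogeneousComponent, coeff_zero]
    split_ifs with h
    · by_contra hne
      have h1 := (hbound s hne).1
      rw [hwt] at h
      linarith
    · rfl
  set c := G.leadingCoeff.leadingCoeff with hc
  have hc0 : c ≠ 0 := Polynomial.leadingCoeff_ne_zero.mpr hlc0
  have htop : weightedHomogeneousComponent w ((k : ℤ) + m * N) (th κ G) =
      monomial (Finsupp.single 0 k + Finsupp.single 1 m) c := by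
    ext s
    rw [coeff_weightedHomogeneousComponent, coeff_monomial]
    by_cases hs : Finsupp.single 0 k + Finsupp.single 1 m = s
    · rw [if_pos hs, if_pos, th_coeff, ← hs]
      · have e1 : (Finsupp.single 0 k + Finsupp.single 1 m : Fin 2 →₀ ℕ) 1 = m := by simp
        have e0 : (Finsupp.single 0 k + Finsupp.single 1 m : Fin 2 →₀ ℕ) 0 = k := by simp
        rw [e1, e0]
        rfl
      · rw [hwt, ← hs]
        simp
    · rw [if_neg hs]
      split_ifs with h
      · by_contra hne
        rw [hwt] at h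
        obtain ⟨h1, h2⟩ := (hbound s hne).2 h
        apply hs
        ext i
        fin_cases i
        · simp [h1]
        · simp [h2]
      · rfl
  have hker := hD' (th κ G) ((k : ℤ) + m * N) hEa hbig
  rw [htop] at hker
  have hmono : (monomial (Finsupp.single 0 k + Finsupp.single 1 m) c : P2 κ) =
      C c * (X 0 ^ k * X 1 ^ m) := by
    rw [X_pow_eq_monomial, X_pow_eq_monomial, monomial_mul, C_mul_monomial, mul_one, mul_one]
  -- k = 0
  have hk0 : k = 0 := by
    by_contra hk
    have hkpos : 0 < k := Nat.pos_of_ne_zero hk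
    have hne : (monomial (Finsupp.single 0 k + Finsupp.single 1 m) c : P2 κ) ≠ 0 := by
      rw [Ne, monomial_eq_zero]
      exact hc0
    have e0 : (monomial (Finsupp.single 0 k + Finsupp.single 1 m) c : P2 κ) =
        X 0 * (C c * (X 0 ^ (k - 1) * X 1 ^ m)) := by
      rw [hmono]
      obtain ⟨k', hk'⟩ : ∃ k', k = k' + 1 := ⟨k - 1, by omega⟩
      rw [hk', Nat.add_sub_cancel, pow_succ]
      ring
    have e1 : (monomial (Finsupp.single 0 k + Finsupp.single 1 m) c : P2 κ) =
        X 1 * (C c * (X 0 ^ k * X 1 ^ (m - 1))) := by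
      rw [hmono]
      obtain ⟨m', hm'⟩ : ∃ m', m = m' + 1 := ⟨m - 1, by omega⟩
      rw [hm', Nat.add_sub_cancel, pow_succ]
      ring
    have d0 : D' (X 0) = 0 :=
      Pool.Agent.LNDHom.fact_closed D' hD'ln (X 0) _ (by rw [← e0]; exact hker)
        (by rw [← e0]; exact hne)
    have d1 : D' (X 1) = 0 :=
      Pool.Agent.LNDHom.fact_closed D' hD'ln (X 1) _ (by rw [← e1]; exact hker)
        (by rw [← e1]; exact hne)
    have hD0 : D' = 0 := by
      refine MvPolynomial.derivation_ext (fun i => ?_)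
      rw [Derivation.zero_apply]
      fin_cases i
      · exact d0
      · exact d1
    obtain ⟨x, hx⟩ := hD'0
    rw [hD0] at hx
    exact hx rfl
  refine ⟨G.leadingCoeff.coeff 0, ?_, Polynomial.eq_C_of_natDegree_eq_zero hk0⟩
  intro h
  apply hlc0
  rw [Polynomial.eq_C_of_natDegree_eq_zero hk0, h, Polynomial.C_0]

end Pool.Agent.R2F
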