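import Pool.Agent.R2F.ABpos
import Pool.Agent.R2F.MonicL

set_option autoImplicit false

open MvPolynomial

namespace Pool.Agent.R2F

namespace ABstepAux

/-! ### reindexing -/

theorem sum_reindex {M : Type*} [AddCommMonoid M] (a m : ℕ) (F : ℕ → M) :
    ∑ j ∈ Finset.range (a * m), F j = ∑ l ∈ Finset.range m, ∑ n ∈ Finset.range a, F (n + a * l) := by
  induction m with
  | zero => simp
  | succ m ih =>
    rw [Nat.mul_succ, Finset.sum_range_add, ih, Finset.sum_range_succ]
    congr 1
    refine Finset.sum_congr rfl fun n _ => ?_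
    rw [add_comm]

section maps

variable {R κ : Type*} [CommRing R] [Field κ] (res : R →+* κ)

/-- setting the first variable to zero and reducing -/
noncomputable def e : P2 R →+* Polynomial κ :=
  eval₂Hom ((Polynomial.C : κ →+* Polynomial κ).comp res) ![0, Polynomial.X]

theorem e_C (a : R) : e res (C a) = Polynomial.C (res a) := by simp [e]

theorem e_X0 : e res (X 0) = 0 := by simp [e]

theorem e_X1 : e res (X 1) = Polynomial.X := by simp [e]

theorem e_aeval (x : P2 R) (A : Polynomial R) :
    e res (Polynomial.aeval x A) = (A.map res).comp (e res x) := by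
  induction A using Polynomial.induction_on' with
  | add p q hp hq => rw [map_add, map_add, Polynomial.map_add, Polynomial.add_comp, hp, hq]
  | monomial n a =>
    rw [Polynomial.aeval_monomial, map_mul, map_pow, Polynomial.map_monomial,
      Polynomial.monomial_comp]
    congr 1
    exact e_C res a

/-- lifting polynomials -/
theorem exists_lift (hs : Function.Surjective res) (f : Polynomial κ) :
    ∃ F : Polynomial R, F.map res = f := Polynomial.map_surjective res hs f

theorem C_dvd_of_map {p : R} (hk : ∀ a, res a = 0 ↔ p ∣ a) (F : Polynomial R)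
    (h : F.map res = 0) : Polynomial.C p ∣ F := by
  rw [Polynomial.C_dvd_iff_dvd_coeff]
  intro i
  rw [← hk, ← Polynomial.coeff_map, h, Polynomial.coeff_zero]

theorem mvC_dvd_of_map {p : R} (hk : ∀ a, res a = 0 ↔ p ∣ a) (F : P2 R)
    (h : MvPolynomial.map res F = 0) : C p ∣ F := by
  rw [MvPolynomial.C_dvd_iff_dvd_coeff]
  intro i
  rw [← hk, ← MvPolynomial.coeff_map, h, MvPolynomial.coeff_zero]

theorem sub_mem (S : P2 R) : X 0 ∣ S - Polynomial.aeval (X 1 : P2 R)
    (aeval (![0, Polynomial.X] : Fin 2 → Polynomial R) S) := by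
  induction S using MvPolynomial.induction_on with
  | C a =>
    rw [MvPolynomial.aeval_C, Polynomial.algebraMap_eq, Polynomial.aeval_C]
    simp [MvPolynomial.algebraMap_eq]
  | add p q hp hq =>
    rw [map_add, map_add]
    have := dvd_add hp hq
    convert this using 1
    ring
  | mul_X p i hp =>
    rw [map_mul, map_mul, MvPolynomial.aeval_X]
    rcases i with ⟨i, hi⟩
    interval_cases i
    · have h1 : (Polynomial.aeval (X 1 : P2 R)) ((![0, Polynomial.X] : Fin 2 → Polynomial R) ⟨0, hi⟩) = 0 := by
        simp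
      rw [h1, mul_zero, sub_zero]
      exact dvd_mul_left _ _
    · have h1 : (Polynomial.aeval (X 1 : P2 R)) ((![0, Polynomial.X] : Fin 2 → Polynomial R) ⟨1, hi⟩) = X 1 := by
        simp
      rw [h1]
      have h2 : p * X ⟨1, hi⟩ - (Polynomial.aeval (X 1 : P2 R))
          (aeval (![0, Polynomial.X] : Fin 2 → Polynomial R) p) * X 1 =
          (p - (Polynomial.aeval (X 1 : P2 R))
          (aeval (![0, Polynomial.X] : Fin 2 → Polynomial R) p)) * X 1 := by
        rw [sub_mul]
        rfl
      rw [h2]
      exact Dvd.dvd.mul_right hp _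

theorem e_eq (S : P2 R) :
    e res S = (aeval (![0, Polynomial.X] : Fin 2 → Polynomial R) S).map res := by
  have h1 : e res = (Polynomial.mapRingHom res).comp
      (aeval (![0, Polynomial.X] : Fin 2 → Polynomial R) : P2 R →ₐ[R] Polynomial R).toRingHom := by
    refine MvPolynomial.ringHom_ext (fun a => ?_) (fun i => ?_)
    · rw [e_C]
      change _ = (aeval (![0, Polynomial.X] : Fin 2 → Polynomial R) (C a)).map res
      rw [MvPolynomial.aeval_C, Polynomial.algebraMap_eq, Polynomial.map_C]
    · change _ = (aeval (![0, Polynomial.X] : Fin 2 → Polynomial R) (X i)).map res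
      rw [MvPolynomial.aeval_X]
      rcases i with ⟨i, hi⟩
      interval_cases i
      · exact (e_X0 res).trans (by simp)
      · exact (e_X1 res).trans (by simp)
  rw [h1]
  rfl

theorem e_ker {p : R} (hk : ∀ a, res a = 0 ↔ p ∣ a) (S : P2 R) (h : e res S = 0) :
    ∃ s1 s2 : P2 R, S = X 0 * s1 + C p * s2 := by
  obtain ⟨s1, hs1⟩ := sub_mem S
  rw [e_eq] at h
  obtain ⟨F, hF⟩ := C_dvd_of_map res hk _ h
  refine ⟨s1, Polynomial.aeval (X 1 : P2 R) F, ?_⟩
  have h2 : Polynomial.aeval (X 1 : P2 R) (aeval (![0, Polynomial.X] : Fin 2 → Polynomial R) S) =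
      C p * Polynomial.aeval (X 1 : P2 R) F := by
    rw [hF, map_mul, Polynomial.aeval_C]
    rfl
  rw [← h2, ← hs1]
  ring

/-- the new residual coordinates -/
noncomputable def r' (c0 : κ) (g : Polynomial κ) : P2 R →+* Polynomial (Polynomial κ) :=
  eval₂Hom (((Polynomial.C : Polynomial κ →+* Polynomial (Polynomial κ)).comp
    (Polynomial.C : κ →+* Polynomial κ)).comp res)
    ![Polynomial.C (Polynomial.C c0) * (Polynomial.X - Polynomial.C g), Polynomial.C Polynomial.X]

theorem r'_C (c0 : κ) (g : Polynomial κ) (a : R) :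
    r' res c0 g (C a) = Polynomial.C (Polynomial.C (res a)) := by simp [r']

theorem r'_X0 (c0 : κ) (g : Polynomial κ) : r' res c0 g (X 0) =
    Polynomial.C (Polynomial.C c0) * (Polynomial.X - Polynomial.C g) := by simp [r']

theorem r'_X1 (c0 : κ) (g : Polynomial κ) : r' res c0 g (X 1) = Polynomial.C Polynomial.X := by
  simp [r']

theorem r'_dil {p : R} (hp : res p = 0) (c0 : κ) (g : Polynomial κ) (f : P2 R) :
    r' res c0 g (dil p f) = Polynomial.C (e res f) := by
  have h1 : (r' res c0 g).comp (dil p : P2 R →ₐ[R] P2 R).toRingHom =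
      (Polynomial.C : Polynomial κ →+* Polynomial (Polynomial κ)).comp (e res) := by
    refine MvPolynomial.ringHom_ext (fun a => ?_) (fun i => ?_)
    · change r' res c0 g (dil p (C a)) = Polynomial.C (e res (C a))
      have h2 : dil p (C a) = C a := (dil p).commutes a
      rw [h2, r'_C, e_C]
    · change r' res c0 g (dil p (X i)) = Polynomial.C (e res (X i))
      rcases i with ⟨i, hi⟩
      interval_cases i
      · change r' res c0 g (dil p (X 0)) = Polynomial.C (e res (X 0))
        rw [dil_X0, map_mul, r'_C, hp, e_X0]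
        simp
      · change r' res c0 g (dil p (X 1)) = Polynomial.C (e res (X 1))
        rw [dil_X1, r'_X1, e_X1]
  exact congrArg (fun φ => φ f) h1

theorem r'_ker {p : R} (hk : ∀ a, res a = 0 ↔ p ∣ a) (c0 : κ) (hc0 : c0 ≠ 0) (g : Polynomial κ)
    (f : P2 R) (h : r' res c0 g f = 0) : C p ∣ f := by
  apply mvC_dvd_of_map res hk
  let θ : P2 κ →+* Polynomial (Polynomial κ) := eval₂Hom
    ((Polynomial.C : Polynomial κ →+* Polynomial (Polynomial κ)).comp
    (Polynomial.C : κ →+* Polynomial κ))
    ![Polynomial.C (Polynomial.C c0) * (Polynomial.X - Polynomial.C g), Polynomial.C Polynomial.X]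
  let ψ : Polynomial (Polynomial κ) →+* P2 κ := Polynomial.eval₂RingHom
    (Polynomial.eval₂RingHom (C : κ →+* P2 κ) (X 1))
    (C c0⁻¹ * X 0 + Polynomial.eval₂RingHom (C : κ →+* P2 κ) (X 1) g)
  have h1 : r' res c0 g = θ.comp (MvPolynomial.map res) := by
    refine MvPolynomial.ringHom_ext (fun a => ?_) (fun i => ?_)
    · rw [r'_C]; simp [θ]
    · rw [RingHom.comp_apply, MvPolynomial.map_X]
      simp [θ, r']
  have h2 : ψ.comp θ = RingHom.id _ := by
    refine MvPolynomial.ringHom_ext (fun a => ?_) (fun i => ?_)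
    · simp [θ, ψ]
    · rcases i with ⟨i, hi⟩
      interval_cases i
      · simp only [θ, ψ, RingHom.comp_apply, coe_eval₂Hom, eval₂_X, RingHom.id_apply]
        have e1 : (![Polynomial.C (Polynomial.C c0) * (Polynomial.X - Polynomial.C g),
          Polynomial.C Polynomial.X] : Fin 2 → Polynomial (Polynomial κ)) ⟨0, hi⟩ =
          Polynomial.C (Polynomial.C c0) * (Polynomial.X - Polynomial.C g) := rfl
        rw [e1, map_mul, map_sub]
        simp only [Polynomial.coe_eval₂RingHom, Polynomial.eval₂_C, Polynomial.eval₂_X]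
        rw [add_sub_cancel_right, ← mul_assoc, ← C_mul, mul_inv_cancel₀ hc0, C_1, one_mul]
        rfl
      · simp only [θ, ψ, RingHom.comp_apply, coe_eval₂Hom, eval₂_X, RingHom.id_apply]
        have e1 : (![Polynomial.C (Polynomial.C c0) * (Polynomial.X - Polynomial.C g),
          Polynomial.C Polynomial.X] : Fin 2 → Polynomial (Polynomial κ)) ⟨1, hi⟩ =
          Polynomial.C Polynomial.X := rfl
        rw [e1]
        simp only [Polynomial.coe_eval₂RingHom, Polynomial.eval₂_C, Polynomial.eval₂_X]
        rfl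
  have h3 : θ (MvPolynomial.map res f) = 0 := by
    rw [← h, h1]
    rfl
  have h4 := congrArg ψ h3
  rw [map_zero] at h4
  have h5 : ψ (θ (MvPolynomial.map res f)) = MvPolynomial.map res f :=
    congrArg (fun φ => φ (MvPolynomial.map res f)) h2
  rw [← h5]
  exact h4

end maps

end ABstepAux

end Pool.Agent.R2F
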