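import Pool.Agent.R2F.ABs1

set_option autoImplicit false

open MvPolynomial

namespace Pool.Agent.R2F

namespace ABstepAux

section ab

variable {R K κ : Type*} [CommRing R] [Field K] [Algebra R K]
    [Field κ] {res : R →+* κ} {p : R} {P : P2 R} {Δ : Derivation K (P2 K) (P2 K)}
    {ε : P2 R →ₐ[R] P2 R}

theorem r_aeval (h : AB res p P Δ ε) (A : Polynomial R) :
    h.r (Polynomial.aeval h.Pe A) = Polynomial.C ((A.map res).comp h.rho) := by
  induction A using Polynomial.induction_on' with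
  | add p q hp hq =>
    rw [map_add, map_add, Polynomial.map_add, Polynomial.add_comp, hp, hq, Polynomial.C_add]
  | monomial n a =>
    have h1 : (algebraMap R (P2 R)) a = C a := rfl
    rw [Polynomial.aeval_monomial, map_mul, map_pow, Polynomial.map_monomial,
      Polynomial.monomial_comp, h.hrho, h1, h.rC, Polynomial.C_mul, Polynomial.C_pow]

theorem r_Q (h : AB res p P Δ ε) (j : ℕ) :
    h.r (h.Q j) = Polynomial.C (h.q (j % h.N)) * Polynomial.X ^ (j / h.N) := by
  have h1 := h.hQ (j % h.N) (Nat.mod_lt _ h.hN) (j / h.N)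
  rwa [Nat.mod_add_div] at h1

theorem sum_eq (h : AB res p P Δ ε) (m : ℕ) (a : ℕ → Polynomial κ) :
    ∑ j ∈ Finset.range (h.N * m), Polynomial.C ((a j).comp h.rho) * h.r (h.Q j) =
      ∑ l ∈ Finset.range m, Polynomial.C (∑ n ∈ Finset.range h.N,
        (a (n + h.N * l)).comp h.rho * h.q n) * Polynomial.X ^ l := by
  rw [sum_reindex]
  refine Finset.sum_congr rfl fun l _ => ?_
  rw [map_sum, Finset.sum_mul]
  refine Finset.sum_congr rfl fun n hn => ?_
  rw [h.hQ n (Finset.mem_range.mp hn) l, Polynomial.C_mul]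
  ring

theorem expandAB (hs : Function.Surjective res) (h : AB res p P Δ ε) (m : ℕ)
    (f : Polynomial (Polynomial κ)) (hf : f.degree < m) : ∃ A : ℕ → Polynomial R,
      f = h.r (∑ j ∈ Finset.range (h.N * m), Polynomial.aeval h.Pe (A j) * h.Q j) := by
  choose a ha using h.span
  choose L hL using exists_lift res hs
  refine ⟨fun j => L (a (f.coeff (j / h.N)) (j % h.N)), ?_⟩
  rw [map_sum]
  have h1 : ∀ j ∈ Finset.range (h.N * m),
      h.r (Polynomial.aeval h.Pe (L (a (f.coeff (j / h.N)) (j % h.N))) * h.Q j) =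
      Polynomial.C ((a (f.coeff (j / h.N)) (j % h.N)).comp h.rho) * h.r (h.Q j) := by
    intro j _
    rw [map_mul, r_aeval, hL]
  rw [Finset.sum_congr rfl h1, sum_eq h m (fun j => a (f.coeff (j / h.N)) (j % h.N))]
  have h2 : ∀ l ∈ Finset.range m, (∑ n ∈ Finset.range h.N,
      (a (f.coeff ((n + h.N * l) / h.N)) ((n + h.N * l) % h.N)).comp h.rho * h.q n) =
      f.coeff l := by
    intro l _
    conv_rhs => rw [ha (f.coeff l)]
    refine Finset.sum_congr rfl fun n hn => ?_
    have hn' := Finset.mem_range.mp hn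
    rw [Nat.add_mul_div_left _ _ h.hN, Nat.div_eq_of_lt hn', zero_add,
      Nat.add_mul_mod_self_left, Nat.mod_eq_of_lt hn']
  rw [Finset.sum_congr rfl (fun l hl => by rw [h2 l hl])]
  ext1 n
  rw [Polynomial.finsetSum_coeff]
  simp only [Polynomial.coeff_C_mul_X_pow]
  rw [Finset.sum_ite_eq]
  split_ifs with hn
  · rfl
  · rw [Finset.mem_range, not_lt] at hn
    exact Polynomial.coeff_eq_zero_of_degree_lt (lt_of_lt_of_le hf (by exact_mod_cast hn))

theorem indep (h : AB res p P Δ ε) (m : ℕ) (a : ℕ → Polynomial κ)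
    (h0 : ∑ j ∈ Finset.range (h.N * m), Polynomial.C ((a j).comp h.rho) * h.r (h.Q j) = 0) :
    ∀ j, j < h.N * m → a j = 0 := by
  rw [sum_eq] at h0
  intro j hj
  have hl : j / h.N < m := by
    rw [Nat.div_lt_iff_lt_mul h.hN, mul_comm]
    exact hj
  have h1 := congrArg (fun f => Polynomial.coeff f (j / h.N)) h0
  simp only [Polynomial.finsetSum_coeff, Polynomial.coeff_C_mul_X_pow,
    Polynomial.coeff_zero] at h1
  rw [Finset.sum_ite_eq, if_pos (Finset.mem_range.mpr hl)] at h1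
  have h2 := h.ind (fun n => a (n + h.N * (j / h.N))) h1 (j % h.N) (Nat.mod_lt _ h.hN)
  simpa only [Nat.mod_add_div] using h2

theorem sum_degree (h : AB res p P Δ ε) (m : ℕ) (a : ℕ → Polynomial κ) :
    (∑ j ∈ Finset.range (h.N * m), Polynomial.C ((a j).comp h.rho) * h.r (h.Q j)).degree < m := by
  rw [sum_eq]
  rw [Polynomial.degree_lt_iff_coeff_zero]
  intro n hn
  rw [Polynomial.finsetSum_coeff]
  refine Finset.sum_eq_zero fun l hl => ?_
  rw [Polynomial.coeff_C_mul_X_pow, if_neg]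
  rw [Finset.mem_range] at hl
  omega

/-! ### degrees -/

variable (Δ) in
/-- `x` has degree `n` with constant leading term -/
def Deg (n : ℕ) (x : P2 K) : Prop :=
  (⇑Δ)^[n + 1] x = 0 ∧ ∃ l : K, l ≠ 0 ∧ (⇑Δ)^[n] x = C l

theorem Deg.mul [CharZero K] {a b : ℕ} {x y : P2 K} (hx : Deg Δ a x) (hy : Deg Δ b y) :
    Deg Δ (a + b) (x * y) := by
  obtain ⟨hx1, l, hl, hx2⟩ := hx
  obtain ⟨hy1, l', hl', hy2⟩ := hy
  obtain ⟨h1, h2⟩ := LNDHom.iter_mul_top Δ (a + b) a b x y rfl hx1 hy1
  refine ⟨h2, ((a + b).choose a : K) * (l * l'), ?_, ?_⟩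
  · refine mul_ne_zero ?_ (mul_ne_zero hl hl')
    exact_mod_cast (Nat.choose_pos (Nat.le_add_right a b)).ne'
  · rw [h1, hx2, hy2, C_mul, C_mul]
    congr 1

theorem Deg.one [CharZero K] : Deg Δ 0 1 := by
  refine ⟨?_, 1, one_ne_zero, ?_⟩
  · rw [zero_add, Function.iterate_one, Derivation.map_one_eq_zero]
  · simp

theorem Deg.pow [CharZero K] {a : ℕ} {x : P2 K} (hx : Deg Δ a x) (n : ℕ) :
    Deg Δ (a * n) (x ^ n) := by
  induction n with
  | zero => simpa using Deg.one
  | succ n ih =>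
    rw [pow_succ, Nat.mul_succ]
    exact ih.mul hx

theorem Deg.add_lower {a : ℕ} {x y : P2 K} (hx : Deg Δ a x) (hy : (⇑Δ)^[a] y = 0) :
    Deg Δ a (x + y) := by
  obtain ⟨hx1, l, hl, hx2⟩ := hx
  refine ⟨?_, l, hl, ?_⟩
  · rw [iterate_map_add, hx1, Function.iterate_succ_apply', hy, map_zero, add_zero]
  · rw [iterate_map_add, hx2, hy, add_zero]

theorem Deg.of_smul {a : ℕ} {x : P2 K} {c : K} (hc : c ≠ 0) (hx : Deg Δ a (C c * x)) :
    Deg Δ a x := by
  obtain ⟨hx1, l, hl, hx2⟩ := hx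
  have h1 : ∀ n, (⇑Δ)^[n] (C c * x) = C c * (⇑Δ)^[n] x := fun n =>
    LNDHom.iter_const Δ (by rw [← MvPolynomial.algebraMap_eq]; exact Δ.map_algebraMap c) n x
  have h2 : (C c : P2 K) ≠ 0 := by
    rw [Ne, MvPolynomial.C_eq_zero]; exact hc
  rw [h1] at hx1 hx2
  refine ⟨(mul_eq_zero.mp hx1).resolve_left h2, c⁻¹ * l, mul_ne_zero (inv_ne_zero hc) hl, ?_⟩
  apply mul_left_cancel₀ h2
  rw [hx2, ← C_mul, ← mul_assoc, mul_inv_cancel₀ hc, one_mul]

theorem Δ_aeval {y : P2 K} (hy : Δ y = 0) (g : Polynomial K) : Δ (Polynomial.aeval y g) = 0 := by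
  rw [Derivation.map_aeval, hy, smul_zero]

theorem io_aeval (A : Polynomial R) (x : P2 R) :
    io R K (Polynomial.aeval x A) = Polynomial.aeval (io R K x) (A.map (algebraMap R K)) := by
  induction A using Polynomial.induction_on' with
  | add p q hp hq => rw [map_add, map_add, Polynomial.map_add, map_add, hp, hq]
  | monomial n a =>
    have h1 : (algebraMap R (P2 R)) a = C a := rfl
    have h2 : (algebraMap K (P2 K)) (algebraMap R K a) = C (algebraMap R K a) := rfl
    rw [Polynomial.aeval_monomial, map_mul, map_pow, Polynomial.map_monomial,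
      Polynomial.aeval_monomial, h1, h2, io, MvPolynomial.map_C]

theorem io_C (a : R) : io R K (C a) = C (algebraMap R K a) := by
  rw [io, MvPolynomial.map_C]

end ab

end ABstepAux

end Pool.Agent.R2F
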