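import Pool.Agent.R2F.ABs2

set_option autoImplicit false

open MvPolynomial

namespace Pool.Agent.R2F

namespace ABstepAux

variable {R K κ : Type*} [CommRing R] [Field K] [Algebra R K]
    [Field κ] {res : R →+* κ} {p : R} {P : P2 R} {Δ : Derivation K (P2 K) (P2 K)}
    {ε : P2 R →ₐ[R] P2 R}

theorem r_eq (h : AB res p P Δ ε) (x : P2 R) :
    aeval ![h.r (X 0), h.r (X 1)] (MvPolynomial.map res x) = h.r x := by
  have h1 : ((aeval ![h.r (X 0), h.r (X 1)] : P2 κ →ₐ[κ] Polynomial (Polynomial κ)).toRingHom).comp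
      (MvPolynomial.map res) = h.r := by
    refine MvPolynomial.ringHom_ext (fun a => ?_) (fun i => ?_)
    · rw [h.rC, RingHom.comp_apply, MvPolynomial.map_C]
      exact MvPolynomial.aeval_C _ _
    · rw [RingHom.comp_apply, MvPolynomial.map_X]
      refine (MvPolynomial.aeval_X _ _).trans ?_
      rcases i with ⟨i, hi⟩
      interval_cases i
      · rfl
      · rfl
  exact congrArg (fun φ => φ x) h1

theorem e_of_dvd (hR : ResData res p) {x : P2 R} (hx : C p ∣ x) : e res x = 0 := by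
  obtain ⟨y, rfl⟩ := hx
  rw [map_mul, e_C, (hR.ker p).mpr dvd_rfl, Polynomial.C_0, zero_mul]

theorem e_sum (hPe : P2 R) (N : ℕ) (A : ℕ → Polynomial R) (Q : ℕ → P2 R) :
    e res (∑ j ∈ Finset.range N, Polynomial.aeval hPe (A j) * Q j) =
      ∑ j ∈ Finset.range N, ((A j).map res).comp (e res hPe) * e res (Q j) := by
  rw [map_sum]
  refine Finset.sum_congr rfl fun j _ => ?_
  rw [map_mul, e_aeval]

theorem r_sum (h : AB res p P Δ ε) (N : ℕ) (A : ℕ → Polynomial R) :
    h.r (∑ j ∈ Finset.range N, Polynomial.aeval h.Pe (A j) * h.Q j) =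
      ∑ j ∈ Finset.range N, Polynomial.C (((A j).map res).comp h.rho) * h.r (h.Q j) := by
  rw [map_sum]
  refine Finset.sum_congr rfl fun j _ => ?_
  rw [map_mul, r_aeval]

/-- surjectivity of the new residual coordinates -/
theorem r'_surj (hs : Function.Surjective res) (c0 : κ) (hc0 : c0 ≠ 0) (g : Polynomial κ) :
    Function.Surjective (r' res c0 g) := by
  have hC : ∀ f : Polynomial κ, Polynomial.C f ∈ (r' res c0 g).range := by
    intro f
    obtain ⟨F, rfl⟩ := exists_lift res hs f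
    refine ⟨Polynomial.aeval (X 1) F, ?_⟩
    induction F using Polynomial.induction_on' with
    | add p q hp hq => rw [map_add, map_add, Polynomial.map_add, Polynomial.C_add, hp, hq]
    | monomial n a =>
      have h1 : (algebraMap R (P2 R)) a = C a := rfl
      rw [Polynomial.aeval_monomial, map_mul, map_pow, Polynomial.map_monomial, r'_X1, h1, r'_C,
        ← Polynomial.C_mul_X_pow_eq_monomial, Polynomial.C_mul, Polynomial.C_pow]
  have hX : (Polynomial.X : Polynomial (Polynomial κ)) ∈ (r' res c0 g).range := by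
    have h1 : (r' res c0 g) (X 0) ∈ (r' res c0 g).range := ⟨_, rfl⟩
    have h2 := (r' res c0 g).range.add_mem
      ((r' res c0 g).range.mul_mem (hC (Polynomial.C c0⁻¹)) h1) (hC g)
    rw [r'_X0, ← mul_assoc, ← Polynomial.C_mul, ← Polynomial.C_mul, inv_mul_cancel₀ hc0,
      Polynomial.C_1, Polynomial.C_1, one_mul, sub_add_cancel] at h2
    exact h2
  intro f
  have h1 : f ∈ (r' res c0 g).range := by
    rw [f.as_sum_range_C_mul_X_pow]
    exact sum_mem fun i _ => mul_mem (hC _) (pow_mem hX _)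
  exact h1

end ABstepAux

open ABstepAux in
theorem ab_step {R K κ : Type*} [CommRing R] [IsDomain R] [Field K] [CharZero K] [Algebra R K]
    [Field κ] [CharZero κ] (res : R →+* κ) (p : R) (hR : ResData res p)
    (hpK : algebraMap R K p ≠ 0) (P : P2 R) (hP : NC p P) (Δ : Derivation K (P2 K) (P2 K))
    (hΔP : Δ (io R K P) = 0) (ε : P2 R →ₐ[R] P2 R)
    (h : Nonempty (AB res p P Δ (ε.comp (dil p)))) : Nonempty (AB res p P Δ ε) := by
  obtain ⟨h⟩ := h
  have hm := ab_pos res p hR P hP Δ ε h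
  have hgen : ∀ f : Polynomial (Polynomial κ), ∃ F : P2 κ,
      aeval ![h.r (X 0), h.r (X 1)] F = f := by
    intro f
    obtain ⟨x, rfl⟩ := h.rs f
    exact ⟨MvPolynomial.map res x, r_eq h x⟩
  obtain ⟨c0, hc0, hlc⟩ := monic_of_coord _ _ hgen hm
  obtain ⟨c, hc⟩ := hR.surj c0⁻¹
  have hresp : res p = 0 := (hR.ker p).mpr dvd_rfl
  obtain ⟨m, hmdef⟩ : ∃ m, m = (h.r (X 0)).natDegree := ⟨_, rfl⟩
  rw [← hmdef] at hm
  obtain ⟨G1, hG1def⟩ : ∃ G1, G1 = Polynomial.C (Polynomial.C c0⁻¹) * h.r (X 0) := ⟨_, rfl⟩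
  have hCc : (Polynomial.C (Polynomial.C c0⁻¹) : Polynomial (Polynomial κ)) ≠ 0 := by
    rw [Ne, Polynomial.C_eq_zero, Polynomial.C_eq_zero]
    exact inv_ne_zero hc0
  have hG1 : G1.Monic := by
    rw [Polynomial.Monic, hG1def, Polynomial.leadingCoeff_mul, Polynomial.leadingCoeff_C, hlc,
      ← Polynomial.C_mul, inv_mul_cancel₀ hc0, Polynomial.C_1]
  have hr0 : h.r (X 0) ≠ 0 := by
    intro h0
    rw [h0, Polynomial.natDegree_zero] at hmdef
    omega
  have hG1d : G1.natDegree = m := by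
    rw [hG1def, Polynomial.natDegree_mul hCc hr0, Polynomial.natDegree_C, zero_add, hmdef]
  have hG1deg : G1.degree = m := by
    rw [Polynomial.degree_eq_natDegree hG1.ne_zero, hG1d]
  have hG1r : h.r (C c * X 0) = G1 := by
    rw [map_mul, h.rC, hc, hG1def]
  have hdeg : (G1 - Polynomial.X ^ m).degree < (m : WithBot ℕ) := by
    rw [← hG1deg]
    refine Polynomial.degree_sub_lt_left ?_ hG1.ne_zero ?_
    · rw [hG1deg, Polynomial.degree_X_pow]
    · rw [hG1.leadingCoeff, Polynomial.leadingCoeff_X_pow]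
  obtain ⟨A, hA⟩ := expandAB hR.surj h m _ hdeg
  obtain ⟨v, hv⟩ : ∃ v, v = ∑ j ∈ Finset.range (h.N * m), Polynomial.aeval h.Pe (A j) * h.Q j :=
    ⟨_, rfl⟩
  rw [← hv] at hA
  have hrQN : h.r (h.Q (h.N * m)) = Polynomial.X ^ m := by
    have h1 := h.hQ 0 h.hN m
    rw [zero_add, h.q0, Polynomial.C_1, one_mul] at h1
    exact h1
  have hrW0 : h.r (h.Q (h.N * m) + v - C c * X 0) = 0 := by
    rw [map_sub, map_add, hG1r, hrQN, ← hA]
    ring
  obtain ⟨c1, hc1⟩ := h.rk _ hrW0
  obtain ⟨W1, hW1⟩ : ∃ W1, W1 = C c * X 0 + dil p c1 := ⟨_, rfl⟩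
  have hdW : dil p (h.Q (h.N * m) + v) = C p * W1 := by
    have h1 : h.Q (h.N * m) + v = C c * X 0 + C p * c1 := by rw [← hc1]; ring
    have h2 : ∀ a : R, dil p (C a) = C a := fun a => (dil p).commutes a
    rw [h1, map_add, map_mul, map_mul, h2, h2, dil_X0, hW1]
    ring
  have hN : 0 < h.N * m := Nat.mul_pos h.hN hm
  have hrW1 : r' res c0 (e res c1) W1 = Polynomial.X := by
    rw [hW1, map_add, map_mul, r'_C, r'_X0, r'_dil res hresp, hc, ← mul_assoc, ← Polynomial.C_mul,
      ← Polynomial.C_mul, inv_mul_cancel₀ hc0, Polynomial.C_1, Polynomial.C_1, one_mul,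
      sub_add_cancel]
  have hDegQ : ∀ n, Deg Δ n (io R K (ε (dil p (h.Q n)))) := fun n => h.deg n
  -- degree of W1
  have hDegW : Deg Δ (h.N * m) (io R K (ε W1)) := by
    apply Deg.of_smul hpK
    have h1 : C (algebraMap R K p) * io R K (ε W1) =
        io R K (ε (dil p (h.Q (h.N * m)))) + io R K (ε (dil p v)) := by
      have h2 : (ε (C p) : P2 R) = C p := ε.commutes p
      rw [← io_C, ← map_add (io R K), ← map_add ε, ← map_add (dil p), hdW, map_mul ε, h2,
        map_mul (io R K)]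
    rw [h1]
    apply Deg.add_lower (hDegQ _)
    rw [hv, map_sum, map_sum, map_sum, LNDHom.iter_sum]
    refine Finset.sum_eq_zero fun j hj => ?_
    rw [map_mul, map_mul, map_mul, ← Polynomial.aeval_algHom_apply, ← Polynomial.aeval_algHom_apply]
    have h3 : ε (dil p h.Pe) = P := h.hPe
    rw [h3]
    have h4 : Δ (io R K (Polynomial.aeval P (A j))) = 0 := by
      rw [io_aeval]
      exact Δ_aeval hΔP _
    rw [LNDHom.iter_const Δ h4, LNDHom.iter_zero_of_le Δ (hDegQ j).1
      (Finset.mem_range.mp hj), mul_zero]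
  refine ⟨{
    r := r' res c0 (e res c1)
    rC := r'_C res c0 _
    rs := r'_surj hR.surj c0 hc0 _
    rk := r'_ker res hR.ker c0 hc0 _
    Pe := dil p h.Pe
    hPe := h.hPe
    rho := e res h.Pe
    hrho := r'_dil res hresp c0 _ _
    N := h.N * m
    hN := hN
    Q := fun j => dil p (h.Q (j % (h.N * m))) * W1 ^ (j / (h.N * m))
    q := fun n => e res (h.Q n)
    q0 := ?_
    hQ := ?_
    span := ?_
    ind := ?_
    deg := ?_ }⟩
  · have h1 : h.r (h.Q 0 - 1) = 0 := by
      have h2 := h.hQ 0 h.hN 0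
      rw [mul_zero, add_zero, h.q0, pow_zero, mul_one, Polynomial.C_1] at h2
      rw [map_sub, h2, map_one, sub_self]
    have h3 := e_of_dvd hR (h.rk _ h1)
    rw [map_sub, map_one] at h3
    exact sub_eq_zero.mp h3
  · intro n hn l
    have h1 : (n + h.N * m * l) % (h.N * m) = n := by
      rw [Nat.add_mul_mod_self_left, Nat.mod_eq_of_lt hn]
    have h2 : (n + h.N * m * l) / (h.N * m) = l := by
      rw [Nat.add_mul_div_left _ _ hN, Nat.div_eq_of_lt hn, zero_add]
    change r' res c0 (e res c1) (dil p (h.Q ((n + h.N * m * l) % (h.N * m))) *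
      W1 ^ ((n + h.N * m * l) / (h.N * m))) = _
    rw [h1, h2, map_mul, map_pow, hrW1, r'_dil res hresp]
  · intro f
    obtain ⟨F, hF⟩ := exists_lift res hR.surj f
    obtain ⟨f', hf'⟩ : ∃ f' : P2 R, f' = Polynomial.aeval (X 1) F := ⟨_, rfl⟩
    have hef : e res f' = f := by
      rw [hf', e_aeval, e_X1, Polynomial.comp_X, hF]
    have hrem : (h.r f' %ₘ G1).degree < (m : WithBot ℕ) := by
      rw [← hG1deg]
      exact Polynomial.degree_modByMonic_lt _ hG1
    obtain ⟨B, hB⟩ := expandAB hR.surj h m _ hrem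
    obtain ⟨g', hg'⟩ := h.rs (h.r f' /ₘ G1)
    refine ⟨fun j => (B j).map res, ?_⟩
    have h1 : h.r (f' - ∑ j ∈ Finset.range (h.N * m), Polynomial.aeval h.Pe (B j) * h.Q j -
        C c * X 0 * g') = 0 := by
      rw [map_sub, map_sub, map_mul, hG1r, hg', ← hB]
      have h2 := Polynomial.modByMonic_add_div (h.r f') G1
      rw [sub_sub, h2, sub_self]
    have h3 := e_of_dvd hR (h.rk _ h1)
    rw [map_sub, map_sub, map_mul, map_mul, e_X0, mul_zero, zero_mul, sub_zero, hef, e_sum] at h3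
    exact sub_eq_zero.mp h3
  · intro a ha
    choose L hL using fun j => exists_lift res hR.surj (a j)
    have h1 : e res (∑ j ∈ Finset.range (h.N * m), Polynomial.aeval h.Pe (L j) * h.Q j) = 0 := by
      rw [e_sum, ← ha]
      exact Finset.sum_congr rfl fun j _ => by rw [hL]
    obtain ⟨s1, s2, hs⟩ := e_ker res hR.ker _ h1
    have h2 : ∑ j ∈ Finset.range (h.N * m), Polynomial.C ((a j).comp h.rho) * h.r (h.Q j) =
        h.r (X 0) * h.r s1 := by
      have h3 := congrArg h.r hs
      rw [r_sum, map_add, map_mul, map_mul, h.rC, hresp, Polynomial.C_0, Polynomial.C_0, zero_mul,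
        add_zero] at h3
      rw [← h3]
      exact Finset.sum_congr rfl fun j _ => by rw [hL]
    have h4 : ∑ j ∈ Finset.range (h.N * m), Polynomial.C ((a j).comp h.rho) * h.r (h.Q j) = 0 := by
      apply Polynomial.eq_zero_of_dvd_of_degree_lt (p := h.r (X 0))
      · rw [h2]; exact dvd_mul_right _ _
      · refine lt_of_lt_of_eq (sum_degree h m a) ?_
        rw [Polynomial.degree_eq_natDegree hr0, hmdef]
    exact indep h m a h4
  · intro n
    have h1 : Deg Δ (n % (h.N * m) + h.N * m * (n / (h.N * m)))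
        (io R K (ε (dil p (h.Q (n % (h.N * m))) * W1 ^ (n / (h.N * m))))) := by
      rw [map_mul, map_pow, map_mul, map_pow]
      exact (hDegQ _).mul (hDegW.pow _)
    rw [Nat.mod_add_div] at h1
    exact h1

end Pool.Agent.R2F
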