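import Mathlib
import Pool.Agent.R2F.Rent
import Pool.Agent.R2F.ElemL

/-!
# extension to the fraction field and normalisation

Proof. `D_K := mkDerivation K (fun i => ι (D (X i)))`, `D_K (ι x) = ι (D x)` (both sides are derivations along `ι`, or induction), locally nilpotent (the elements killed by a power of `D_K` form a `K`-subalgebra - `LNDHom.iter_mul_top` - containing the `X i`), non-zero.
`rentschler`: `φ0` tame with `D_K (φ0 (X 1)) = 0`. Multiply `φ0 (X 1)` by a common denominator: `C a * φ0 (X 1) = ι P0`, subtract the constant coefficient; among all `P1 : P2 R` with zero constant coefficient and `ι P1 ∈ K^* (φ0 (X 1) - const)` choose one minimal for divisibility (`P2 R` is a UFD,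
`WfDvdMonoid`): then no prime `p` of `R` divides it; so `C p ∣ P1 - C c` is impossible (constant coefficient: `p ∣ c`, so `C p ∣ P1`). `φ := φ0 * (X 1 ↦ a X 1 + c)` (tame: `swapE * elemE a (C c) * swapE`), `φ (X 1) = ι P1`. `Δ := φ ∘ pderiv 0 ∘ φ⁻¹`, `u := D_K (φ (X 0))`: `D_K = u Δ` on generators;
`D_K u = 0`: `v = φ⁻¹ u`, `E = v ∂₀` is locally nilpotent and `E v = (∂₀ v) v`; a locally nilpotent derivation `E` of a domain of characteristic zero with `f ∣ E f` has `E f = 0`; so `v ∂₀ v = 0`.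
-/

set_option autoImplicit false

open MvPolynomial

namespace Pool.Agent.R2F

namespace GlobAAux

open Pool.Agent.LNDHom (iter_mul_top)

theorem exists_deg {k B : Type*} [CommRing k] [CommRing B] [Algebra k B] (E : Derivation k B B)
    (hln : ∀ x, ∃ n, (⇑E)^[n] x = 0) (x : B) (hx : x ≠ 0) :
    ∃ a, (⇑E)^[a] x ≠ 0 ∧ (⇑E)^[a + 1] x = 0 := by
  classical
  have h := Nat.find_spec (hln x)
  have hpos : Nat.find (hln x) ≠ 0 := by
    intro h0
    rw [h0] at h
    exact hx h
  obtain ⟨a, ha⟩ := Nat.exists_eq_succ_of_ne_zero hpos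
  refine ⟨a, ?_, ?_⟩
  · exact Nat.find_min (hln x) (by omega)
  · rw [ha] at h
    exact h

/-- a locally nilpotent derivation with `f ∣ E f` kills `f` -/
theorem dvd_ker {k B : Type*} [CommRing k] [CommRing B] [IsDomain B] [CharZero B] [Algebra k B]
    (E : Derivation k B B) (hln : ∀ x, ∃ n, (⇑E)^[n] x = 0) (f g : B) (h : E f = g * f) :
    E f = 0 := by
  by_contra hne
  have hg : g ≠ 0 := by
    rintro rfl
    exact hne (by rw [h, zero_mul])
  have hf : f ≠ 0 := by
    rintro rfl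
    exact hne (map_zero E)
  obtain ⟨a, ha1, ha2⟩ := exists_deg E hln g hg
  obtain ⟨b, hb1, hb2⟩ := exists_deg E hln f hf
  have h1 := (iter_mul_top E (a + b) a b g f rfl ha2 hb2).1
  have h2 : (⇑E)^[a + b] (g * f) = 0 := by
    rw [← h, ← Function.iterate_succ_apply, show (a + b).succ = a + (b + 1) by omega,
      Function.iterate_add_apply, hb2, iterate_map_zero]
  rw [h2] at h1
  have h3 : (((a + b).choose a : ℕ) : B) ≠ 0 := by
    exact_mod_cast (Nat.choose_pos (by omega)).ne'
  exact mul_ne_zero h3 (mul_ne_zero ha1 hb1) h1.symm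

theorem io_X {R K : Type*} [CommRing R] [CommRing K] [Algebra R K] (i : Fin 2) :
    io R K (X i) = X i := by
  rw [io, map_X]

theorem io_C {R K : Type*} [CommRing R] [CommRing K] [Algebra R K] (a : R) :
    io R K (C a) = C (algebraMap R K a) := by
  rw [io, map_C]

theorem io_D {R K : Type*} [CommRing R] [CommRing K] [Algebra R K]
    (D : Derivation R (P2 R) (P2 R)) (x : P2 R) :
    mkDerivation K (fun i => io R K (D (X i))) (io R K x) = io R K (D x) := by
  induction x using MvPolynomial.induction_on with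
  | C a =>
    have h1 : D (C a) = 0 := D.map_algebraMap a
    rw [io_C, h1, map_zero]
    exact Derivation.map_algebraMap _ _
  | add p q hp hq => rw [map_add, map_add, map_add, map_add, hp, hq]
  | mul_X p i hp =>
    rw [map_mul, Derivation.leibniz, Derivation.leibniz, hp, io_X, mkDerivation_X, map_add]
    simp only [smul_eq_mul, map_mul, io_X]

theorem lnd_of_gens {K : Type*} [CommRing K] (E : Derivation K (P2 K) (P2 K))
    (hX : ∀ i, ∃ n, (⇑E)^[n] (X i) = 0) (x : P2 K) : ∃ n, (⇑E)^[n] x = 0 := by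
  have hle : ∀ (y : P2 K) (m n : ℕ), (⇑E)^[m] y = 0 → m ≤ n → (⇑E)^[n] y = 0 := by
    intro y m n hy hmn
    obtain ⟨l, rfl⟩ := Nat.exists_eq_add_of_le hmn
    rw [Nat.add_comm, Function.iterate_add_apply, hy, iterate_map_zero]
  induction x using MvPolynomial.induction_on with
  | C a => exact ⟨1, E.map_algebraMap a⟩
  | add p q hp hq =>
    obtain ⟨m, hm⟩ := hp
    obtain ⟨n, hn⟩ := hq
    refine ⟨m + n, ?_⟩
    rw [iterate_map_add, hle p m _ hm (by omega), hle q n _ hn (by omega), add_zero]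
  | mul_X p i hp =>
    obtain ⟨m, hm⟩ := hp
    obtain ⟨n, hn⟩ := hX i
    exact ⟨m + n + 1, (iter_mul_top E (m + n) m n p (X i) rfl (hle p m _ hm (by omega))
      (hle _ n _ hn (by omega))).2⟩

theorem io_inj {R K : Type*} [CommRing R] [IsDomain R] [Field K] [Algebra R K]
    [IsFractionRing R K] : Function.Injective (io R K) :=
  map_injective _ (IsFractionRing.injective R K)

/-- clearing denominators -/
theorem clear {R K : Type*} [CommRing R] [IsDomain R] [Field K] [Algebra R K]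
    [IsFractionRing R K] (y : P2 K) : ∃ (a : K) (P : P2 R), a ≠ 0 ∧ io R K P = C a * y := by
  classical
  obtain ⟨b, hb⟩ := IsLocalization.exist_integer_multiples_of_finset (nonZeroDivisors R)
    (y.support.image fun m => coeff m y)
  have h1 : ∀ m, ∃ r : R, algebraMap R K r = algebraMap R K (b : R) * coeff m y := by
    intro m
    by_cases hm : m ∈ y.support
    · obtain ⟨r, hr⟩ := hb (coeff m y) (Finset.mem_image_of_mem _ hm)
      exact ⟨r, by rw [hr, Algebra.smul_def]⟩
    · exact ⟨0, by rw [notMem_support_iff.mp hm, mul_zero, map_zero]⟩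
  choose r hr using h1
  refine ⟨algebraMap R K (b : R), ∑ m ∈ y.support, monomial m (r m), ?_, ?_⟩
  · intro h0
    exact nonZeroDivisors.coe_ne_zero b
      (IsFractionRing.injective R K (by rw [h0, map_zero]))
  · rw [map_sum]
    conv_rhs => rw [y.as_sum, Finset.mul_sum]
    refine Finset.sum_congr rfl fun m _ => ?_
    rw [io, map_monomial, hr, C_mul_monomial]

end GlobAAux

open GlobAAux

theorem glob_a {R K : Type*} [CommRing R] [IsDomain R] [IsPrincipalIdealRing R] [Field K]
    [CharZero K] [Algebra R K] [IsFractionRing R K]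
    (D : Derivation R (P2 R) (P2 R)) (hln : ∀ x, ∃ n, (⇑D)^[n] x = 0) (hD0 : ∃ x, D x ≠ 0) :
    ∃ (φ : P2 K ≃ₐ[K] P2 K) (Δ : Derivation K (P2 K) (P2 K)) (u : P2 K) (P : P2 R),
      φ ∈ tameGroup K ∧ Δ (φ (X 0)) = 1 ∧ Δ (φ (X 1)) = 0 ∧ io R K P = φ (X 1) ∧
      (∀ p c : R, Prime p → ¬ C p ∣ P - C c) ∧ u ≠ 0 ∧ Δ u = 0 ∧
      ∀ x : P2 R, io R K (D x) = u * Δ (io R K x) := by
  classical
  obtain ⟨DK, hDK⟩ : ∃ DK : Derivation K (P2 K) (P2 K), DK = mkDerivation K
    (fun i => io R K (D (X i))) := ⟨_, rfl⟩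
  have hio : ∀ x, DK (io R K x) = io R K (D x) := by
    intro x
    rw [hDK, io_D]
  have hiter : ∀ (n : ℕ) (x : P2 R), (⇑DK)^[n] (io R K x) = io R K ((⇑D)^[n] x) := by
    intro n
    induction n with
    | zero => intro x; rfl
    | succ n ih =>
      intro x
      rw [Function.iterate_succ_apply, Function.iterate_succ_apply, hio, ih]
  have hDKln : ∀ x, ∃ n, (⇑DK)^[n] x = 0 := by
    refine lnd_of_gens DK fun i => ?_
    obtain ⟨n, hn⟩ := hln (X i)
    refine ⟨n, ?_⟩
    have h1 := hiter n (X i)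
    rw [hn, map_zero, io_X] at h1
    exact h1
  have hDK0 : ∃ x, DK x ≠ 0 := by
    obtain ⟨x, hx⟩ := hD0
    refine ⟨io R K x, ?_⟩
    rw [hio]
    intro h0
    exact hx (io_inj (K := K) (by rw [h0, map_zero]))
  obtain ⟨φ0, hφ0, hker⟩ := rentschler DK hDKln hDK0
  -- the normalised kernel generator
  obtain ⟨b, hb⟩ : ∃ b : P2 K, b = φ0 (X 1) := ⟨_, rfl⟩
  obtain ⟨b0, hb0⟩ : ∃ b0 : P2 K, b0 = b - C (constantCoeff b) := ⟨_, rfl⟩
  have hb0ne : b0 ≠ 0 := by
    intro h0
    have h1 : φ0 (X 1) = C (constantCoeff b) := by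
      rw [← hb]
      exact sub_eq_zero.mp (by rw [← hb0, h0])
    have h2 : (X 1 : P2 K) = C (constantCoeff b) := by
      apply φ0.injective
      rw [h1]
      exact (φ0.commutes (constantCoeff b)).symm
    have h3 := congrArg (totalDegree) h2
    rw [totalDegree_X, totalDegree_C] at h3
    exact one_ne_zero h3
  have hccio : ∀ P : P2 R, constantCoeff (io R K P) = algebraMap R K (constantCoeff P) := by
    intro P
    rw [io, constantCoeff_map]
  let S : Set (P2 R) := {P | constantCoeff P = 0 ∧ ∃ a : K, a ≠ 0 ∧ io R K P = C a * b0}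
  have hSne : S.Nonempty := by
    obtain ⟨a, P, ha, hP⟩ := clear (R := R) b0
    refine ⟨P, ?_, a, ha, hP⟩
    have h1 := hccio P
    rw [hP, map_mul, hb0, map_sub, constantCoeff_C, constantCoeff_C, sub_self, mul_zero] at h1
    exact IsFractionRing.injective R K (by rw [← h1, map_zero])
  obtain ⟨P, hPS, hPmin⟩ := (wellFounded_dvdNotUnit (α := P2 R)).has_min S hSne
  obtain ⟨hP0, a, ha, hPa⟩ := hPS
  have hPne : P ≠ 0 := by
    rintro rfl
    rw [map_zero] at hPa
    exact mul_ne_zero (by rwa [Ne, C_eq_zero]) hb0ne hPa.symm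
  have hprime : ∀ p c : R, Prime p → ¬ C p ∣ P - C c := by
    intro p c hp hdvd
    have h1 : C p ∣ P := by
      obtain ⟨y, hy⟩ := hdvd
      have h2 := congrArg constantCoeff hy
      rw [map_sub, map_mul, hP0, constantCoeff_C, constantCoeff_C, zero_sub] at h2
      refine ⟨y - C (constantCoeff y), ?_⟩
      have h3 : C c = - (C p * C (constantCoeff y) : P2 R) := by
        rw [← C_mul, ← h2, C_neg, neg_neg]
      have h4 : P = C p * y + C c := by rw [← hy]; ring
      rw [h4, h3]
      ring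
    obtain ⟨y, hy⟩ := h1
    have hp0 : algebraMap R K p ≠ 0 := by
      intro h0
      exact hp.ne_zero (IsFractionRing.injective R K (by rw [h0, map_zero]))
    have hyS : y ∈ S := by
      refine ⟨?_, (algebraMap R K p)⁻¹ * a, mul_ne_zero (inv_ne_zero hp0) ha, ?_⟩
      · have h2 := congrArg constantCoeff hy
        rw [map_mul, hP0, constantCoeff_C] at h2
        exact (mul_eq_zero.mp h2.symm).resolve_left hp.ne_zero
      · have h2 : C (algebraMap R K p) * io R K y = C a * b0 := by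
          rw [← hPa, hy, map_mul, io_C]
        rw [C_mul, mul_assoc, ← h2, ← mul_assoc, ← C_mul, inv_mul_cancel₀ hp0, C_1, one_mul]
    refine hPmin y hyS ⟨?_, C p, ?_, ?_⟩
    · rintro rfl
      exact hPne (by rw [hy, mul_zero])
    · intro hu
      rw [MvPolynomial.isUnit_iff_eq_C_of_isReduced] at hu
      obtain ⟨r, hr, hr2⟩ := hu
      exact hp.not_isUnit (by rwa [C_injective _ _ hr2])
    · rw [hy, mul_comm]
  -- the automorphism
  obtain ⟨c', hc'⟩ : ∃ c' : K, c' = -(a * constantCoeff b) := ⟨_, rfl⟩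
  obtain ⟨α, hα⟩ : ∃ α : P2 K ≃ₐ[K] P2 K,
    α = swapE K * elemE (Units.mk0 a ha) (Polynomial.C c') * swapE K := ⟨_, rfl⟩
  have hαmem : α ∈ tameGroup K := by
    rw [hα]
    exact mul_mem (mul_mem swapE_mem (elemE_mem _ _)) swapE_mem
  have hα1 : α (X 1) = C a * X 1 + C c' := by
    rw [hα, AlgEquiv.mul_apply, AlgEquiv.mul_apply, swapE_X1, elemE_X0, map_add, map_mul,
      swapE_X0, Polynomial.aeval_C]
    rw [AlgEquiv.commutes]
    congr 2
    exact (swapE K).commutes a
  obtain ⟨φ, hφ⟩ : ∃ φ : P2 K ≃ₐ[K] P2 K, φ = φ0 * α := ⟨_, rfl⟩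
  have hφmem : φ ∈ tameGroup K := by
    rw [hφ]
    exact mul_mem hφ0 hαmem
  have hφC : ∀ (ψ : P2 K ≃ₐ[K] P2 K) (c : K), ψ (C c) = C c := fun ψ c => ψ.commutes c
  have hφ1 : φ (X 1) = io R K P := by
    rw [hφ, AlgEquiv.mul_apply, hα1, map_add, map_mul, hφC, hφC, hPa, hb0, ← hb, hc', C_neg,
      C_mul]
    ring
  have hDφ1 : DK (φ (X 1)) = 0 := by
    have h1 : φ (X 1) = C a * φ0 (X 1) + C c' := by
      rw [hφ, AlgEquiv.mul_apply, hα1, map_add, map_mul, hφC, hφC]
    have h2 : ∀ c : K, DK (C c) = 0 := fun c => DK.map_algebraMap c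
    rw [h1, map_add, Derivation.leibniz, hker, h2, h2, smul_zero, smul_zero, add_zero, add_zero]
  obtain ⟨Δ, hΔ⟩ : ∃ Δ : Derivation K (P2 K) (P2 K), Δ = conj φ (pderiv 0) := ⟨_, rfl⟩
  have hΔapp : ∀ x, Δ x = φ (pderiv 0 (φ.symm x)) := by
    intro x
    rw [hΔ]
    rfl
  obtain ⟨E, hE⟩ : ∃ E : Derivation K (P2 K) (P2 K), E = conj φ.symm DK := ⟨_, rfl⟩
  have hEapp : ∀ x, E x = φ.symm (DK (φ x)) := by
    intro x
    rw [hE]
    rfl
  obtain ⟨v, hv⟩ : ∃ v : P2 K, v = E (X 0) := ⟨_, rfl⟩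
  have hEv : ∀ x, E x = v * pderiv 0 x := by
    have h1 : E = v • (pderiv 0 : Derivation K (P2 K) (P2 K)) := by
      refine MvPolynomial.derivation_ext fun i => ?_
      rw [Derivation.smul_apply]
      fin_cases i
      · show E (X 0) = v • pderiv 0 (X 0)
        rw [pderiv_X_self, smul_eq_mul, mul_one, hv]
      · show E (X 1) = v • pderiv 0 (X 1)
        rw [pderiv_X_of_ne (by decide), smul_zero, hEapp, hDφ1, map_zero]
    intro x
    rw [h1, Derivation.smul_apply, smul_eq_mul]
  have hEln : ∀ x, ∃ n, (⇑E)^[n] x = 0 := by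
    intro x
    obtain ⟨n, hn⟩ := hDKln (φ x)
    refine ⟨n, ?_⟩
    have h1 : ∀ n, φ ((⇑E)^[n] x) = (⇑DK)^[n] (φ x) := by
      intro n
      induction n with
      | zero => rfl
      | succ n ih =>
        rw [Function.iterate_succ_apply', Function.iterate_succ_apply', hEapp, ← ih,
          AlgEquiv.apply_symm_apply]
    apply φ.injective
    rw [h1, hn, map_zero]
  have hv0 : v ≠ 0 := by
    intro h0
    obtain ⟨x, hx⟩ := hDK0
    apply hx
    have h1 := hEapp (φ.symm x)
    rw [AlgEquiv.apply_symm_apply, hEv, h0, zero_mul] at h1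
    exact φ.symm.injective (by rw [← h1, map_zero])
  have hdv : pderiv 0 v = 0 := by
    have h1 : E v = 0 := dvd_ker E hEln v (pderiv 0 v) (by rw [hEv, mul_comm])
    rw [hEv] at h1
    exact (mul_eq_zero.mp h1).resolve_left hv0
  refine ⟨φ, Δ, φ v, P, hφmem, ?_, ?_, hφ1.symm, hprime, ?_, ?_, ?_⟩
  · rw [hΔapp, AlgEquiv.symm_apply_apply, pderiv_X_self, map_one]
  · rw [hΔapp, AlgEquiv.symm_apply_apply, pderiv_X_of_ne (by decide), map_zero]
  · intro h0
    exact hv0 (φ.injective (by rw [h0, map_zero]))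
  · rw [hΔapp, AlgEquiv.symm_apply_apply, hdv, map_zero]
  · intro x
    rw [← hio, hΔapp, ← map_mul, ← hEv, hEapp, AlgEquiv.apply_symm_apply,
      AlgEquiv.apply_symm_apply]

end Pool.Agent.R2F
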