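import Mathlib
import Pool.Agent.R2F.Defs

/-!
# nonconstant residues are transcendental

nc_of_nonconst: reduce coefficients by `res`: `MvPolynomial.map res : P2 R → P2 κ` is surjective with kernel `C p * P2 R`; the residue `b̄` of `b` is not a constant (lift constants by `surj`). If `F̄(b̄) = 0` with `F̄ ≠ 0` in `κ[T]`, then `b̄` is algebraic
over `κ`, hence constant.
top_false: `ε` surjective, `ε (X 0) ≡ l`, so modulo `p` every element of `P2 R` is a polynomial in `b := ε (X 1)`: `X 0 ≡ f(b)`, `X 1 ≡ g(b)` in `P2 κ`; apply `pderiv 0`, `pderiv 1` : `1 = f'(b) ∂_0 b`, `0 = f'(b) ∂_1 b`, `1 = g'(b) ∂_1 b`: contradiction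
in the domain `P2 κ`.
-/

set_option autoImplicit false

open MvPolynomial

namespace Pool.Agent.R2F

namespace NCLAux

variable {R κ : Type*} [CommRing R] [Field κ]

theorem res_p {res : R →+* κ} {p : R} (hR : ResData res p) : res p = 0 :=
  (hR.ker p).2 dvd_rfl

theorem map_zero_iff {res : R →+* κ} {p : R} (hR : ResData res p) (f : P2 R) :
    MvPolynomial.map res f = 0 ↔ C p ∣ f := by
  constructor
  · intro h
    rw [MvPolynomial.C_dvd_iff_dvd_coeff]
    intro m
    rw [← hR.ker, ← MvPolynomial.coeff_map, h, MvPolynomial.coeff_zero]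
  · rintro ⟨g, rfl⟩
    rw [map_mul, MvPolynomial.map_C, res_p hR, C_0, zero_mul]

theorem pmap_zero_iff {res : R →+* κ} {p : R} (hR : ResData res p) (f : Polynomial R) :
    f.map res = 0 ↔ Polynomial.C p ∣ f := by
  constructor
  · intro h
    rw [Polynomial.C_dvd_iff_dvd_coeff]
    intro m
    rw [← hR.ker, ← Polynomial.coeff_map, h, Polynomial.coeff_zero]
  · rintro ⟨g, rfl⟩
    rw [Polynomial.map_mul, Polynomial.map_C, res_p hR, Polynomial.C_0, zero_mul]

theorem map_aeval_res (res : R →+* κ) (b : P2 R) (F : Polynomial R) :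
    MvPolynomial.map res (Polynomial.aeval b F) =
      Polynomial.aeval (MvPolynomial.map res b) (F.map res) := by
  rw [Polynomial.aeval_def, Polynomial.aeval_def, Polynomial.hom_eval₂, Polynomial.eval₂_map]
  congr 1
  ext r : 1
  simp only [RingHom.comp_apply, MvPolynomial.algebraMap_eq, MvPolynomial.map_C]

/-- algebraic elements are constant -/
theorem const_of_alg (b : P2 κ) (F : Polynomial κ) (hF : F ≠ 0)
    (h : Polynomial.aeval b F = 0) : ∃ c : κ, b = C c := by
  have halg : IsAlgebraic κ b := ⟨F, hF, h⟩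
  refine ⟨constantCoeff b, ?_⟩
  by_contra hne
  have hne' : b - C (constantCoeff b) ≠ 0 := fun h0 => hne (sub_eq_zero.1 h0)
  have halg2 : IsAlgebraic κ (b - C (constantCoeff b)) :=
    halg.sub (isAlgebraic_algebraMap (constantCoeff b))
  obtain ⟨r, hr, hdvd⟩ := halg2.exists_nonzero_dvd (mem_nonZeroDivisors_of_ne_zero hne')
  have hunit : IsUnit (b - C (constantCoeff b)) := by
    refine isUnit_of_dvd_unit hdvd ?_
    exact (IsUnit.mk0 r hr).map (algebraMap κ (P2 κ))
  have h2 : IsUnit (constantCoeff (b - C (constantCoeff b))) := hunit.map _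
  rw [map_sub, constantCoeff_C, sub_self] at h2
  exact not_isUnit_zero h2

end NCLAux

open NCLAux

theorem nc_of_nonconst {R κ : Type*} [CommRing R] [IsDomain R] [Field κ] (res : R →+* κ) (p : R)
    (hR : ResData res p) (b : P2 R) (h : ∀ c : R, ¬ C p ∣ b - C c) : NC p b := by
  intro F hF
  rw [← pmap_zero_iff hR]
  by_contra hne
  have h1 : Polynomial.aeval (MvPolynomial.map res b) (F.map res) = 0 := by
    rw [← map_aeval_res, map_zero_iff hR]
    exact hF
  obtain ⟨c, hc⟩ := const_of_alg _ _ hne h1
  obtain ⟨c', rfl⟩ := hR.surj c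
  apply h c'
  rw [← map_zero_iff hR, map_sub, hc, MvPolynomial.map_C, sub_self]

theorem nonconst_of_nc {R κ : Type*} [CommRing R] [IsDomain R] [Field κ] (res : R →+* κ) (p : R)
    (hR : ResData res p) (b : P2 R) (h : NC p b) (c : R) : ¬ C p ∣ b - C c := by
  intro hd
  have h1 := h (Polynomial.X - Polynomial.C c) (by
    rw [map_sub, Polynomial.aeval_X, Polynomial.aeval_C]
    exact hd)
  rw [Polynomial.C_dvd_iff_dvd_coeff] at h1
  have h2 := h1 1
  rw [Polynomial.coeff_sub, Polynomial.coeff_X_one, Polynomial.coeff_C_of_ne_zero one_ne_zero,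
    sub_zero, ← hR.ker, map_one] at h2
  exact one_ne_zero h2

theorem top_false {R κ : Type*} [CommRing R] [IsDomain R] [Field κ] (res : R →+* κ) (p : R)
    (hR : ResData res p) (ε : P2 R →ₐ[R] P2 R) (hε : Function.Surjective ε) (l : R)
    (h : C p ∣ ε (X 0) - C l) : False := by
  set b : P2 κ := MvPolynomial.map res (ε (X 1)) with hb
  have h0 : MvPolynomial.map res (ε (X 0)) = C (res l) := by
    have h1 := (map_zero_iff hR _).2 h
    rw [map_sub, MvPolynomial.map_C] at h1
    exact sub_eq_zero.1 h1
  have hrange : ∀ G : P2 R, MvPolynomial.map res (ε G) ∈ Algebra.adjoin κ {b} := by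
    intro G
    induction G using MvPolynomial.induction_on with
    | C r =>
      have h2 : ε (C r) = C r := ε.commutes r
      rw [h2, MvPolynomial.map_C]
      exact Subalgebra.algebraMap_mem _ (res r)
    | add f g hf hg =>
      rw [map_add, map_add]
      exact Subalgebra.add_mem _ hf hg
    | mul_X f i hf =>
      rw [map_mul, map_mul]
      refine Subalgebra.mul_mem _ hf ?_
      rcases i with ⟨i, hi⟩
      interval_cases i
      · change MvPolynomial.map res (ε (X 0)) ∈ _
        rw [h0]
        exact Subalgebra.algebraMap_mem _ (res l)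
      · change MvPolynomial.map res (ε (X 1)) ∈ _
        exact Algebra.subset_adjoin (Set.mem_singleton _)
  have hX : ∀ i : Fin 2, ∃ f : Polynomial κ, Polynomial.aeval b f = (X i : P2 κ) := by
    intro i
    obtain ⟨G, hG⟩ := hε (X i)
    have h3 := hrange G
    rw [hG, MvPolynomial.map_X, Algebra.adjoin_singleton_eq_range_aeval] at h3
    obtain ⟨f, hf⟩ := h3
    exact ⟨f, hf⟩
  obtain ⟨f, hf⟩ := hX 0
  obtain ⟨g, hg⟩ := hX 1
  have hder : ∀ (i : Fin 2) (F : Polynomial κ), pderiv i (Polynomial.aeval b F) =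
      Polynomial.aeval b (Polynomial.derivative F) * pderiv i b := by
    intro i F
    rw [Derivation.map_aeval, smul_eq_mul]
  have e1 : (1 : P2 κ) = Polynomial.aeval b (Polynomial.derivative f) * pderiv 0 b := by
    rw [← hder, hf, pderiv_X_self]
  have e2 : (0 : P2 κ) = Polynomial.aeval b (Polynomial.derivative f) * pderiv 1 b := by
    rw [← hder, hf, pderiv_X_of_ne (by decide)]
  have e3 : (1 : P2 κ) = Polynomial.aeval b (Polynomial.derivative g) * pderiv 1 b := by
    rw [← hder, hg, pderiv_X_self]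
  have hfne : Polynomial.aeval b (Polynomial.derivative f) ≠ 0 := by
    intro hz
    rw [hz, zero_mul] at e1
    exact one_ne_zero e1
  have hb1 : pderiv 1 b = 0 := by
    rcases mul_eq_zero.1 e2.symm with h4 | h4
    · exact absurd h4 hfne
    · exact h4
  rw [hb1, mul_zero] at e3
  exact one_ne_zero e3

end Pool.Agent.R2F
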