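import Mathlib
import Pool.Agent.R2F.Canon
import Pool.Agent.R2F.NCL
import Pool.Agent.R2F.ElemL

/-!
# towers of dilations

(1) tower_up: if `Good p M ε`, `NC p (ε (X 1))`, then `TT p (ι ε (X 0))`. Induction on `M`. If `NC p (ε (X 0))`: compose with `swapE`. Otherwise (`nc_of_nonconst`) `C p ∣ ε (X 0) - C l`. `M = 0`: `top_false`. `M + 1`: `canon` for `ε ∘ elemE 1 (-l)` gives
 `ε' ∘ dil p = ε ∘ elemE 1 (-l)`, `Good p M ε'`, `ε' (X 1) = ε (X 1)`, `C p * ε' (X 0) = ε (X 0) - C l`; apply the induction hypothesis (`TT p b` depends only on `K^* b + K`).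
(2) tt_step: `TT p b` and `adjoin K {a, b} = ⊤` imply `TT p a`. Take `ε`, `b' = ε (X 1)`, `ι b' = C a0 * b + C c0`. `good_gen`, `exists_equiv`, `elem_form`: `a = C c * ι (ε (X 0)) + h(ι b')`, `c ≠ 0`. Clear denominators, remove the constant term of `h` and divide by
 the largest possible power of `p` (`R` is a discrete valuation ring with uniformiser `p`): `C a1 * a + C c1 = ι (C c' * ε (X 0) + h'(b'))`, `a1 ≠ 0`, `c' ≠ 0` in `R`, `h' ∈ R[T]`, `h'(0) = 0`, not both `p ∣ c'` and `p ∣ h'`.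
 Case `p ∣ c'`: `c' = u p^e`, `u` a unit; `ε ∘ (dil p)^e` is `Good p (M + e)` (`(ε ∘ dil p)(X 1) = b'`), then compose with `elemE u h'` and `swapE`: `ε'' (X 1) = C c' * ε (X 0) + h'(b')`. It satisfies `NC`: `F(ε'' (X 1)) ≡ (F ∘ h')(b')` modulo `p`, so
 `p ∣ F.comp h'`, and `h̄'` is not constant, so `p ∣ F`. Case `c'` a unit: apply (1) to `ε ∘ elemE c' h'`.
(3) tower_tame: `Subgroup.closure_induction_right`-type induction with the statement `TT p (φ (X 0)) ∧ TT p (φ (X 1))`. `φ = 1`: `ε = 1` resp. `swapE`, `M = 0`. `φ * swapE`: swap. `φ * elemE c h`: `X 1 ↦ φ (X 1)`, `X 0 ↦ c φ (X 0) + h(φ (X 1))`: `tt_step` from `φ (X 1)`.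
 (inverses of generators are generators; or use `closure_induction` with left/right multiplication by inverses.)
-/

set_option autoImplicit false

open MvPolynomial

namespace Pool.Agent.R2F

namespace TowerAux

theorem TT_affine {R K : Type*} [CommRing R] [Field K] [Algebra R K] (p : R) {b b' : P2 K}
    (h : TT p b') (u v : K) (hu : u ≠ 0) (hb : b' = C u * b + C v) : TT p b := by
  obtain ⟨M, ε, a, c, h1, h2, h3, h4⟩ := h
  refine ⟨M, ε, a * u, a * v + c, h1, h2, mul_ne_zero h3 hu, ?_⟩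
  rw [h4, hb, C_mul, C_add, C_mul]
  ring

theorem io_C {R K : Type*} [CommRing R] [CommRing K] [Algebra R K] (r : R) :
    io R K (C r) = C (algebraMap R K r) := by
  rw [io, MvPolynomial.map_C]

theorem io_aeval {R K : Type*} [CommRing R] [CommRing K] [Algebra R K] (b : P2 R)
    (F : Polynomial R) :
    io R K (Polynomial.aeval b F) = Polynomial.aeval (io R K b) (F.map (algebraMap R K)) := by
  have h : (io R K).comp (algebraMap R (P2 R)) = (algebraMap K (P2 K)).comp (algebraMap R K) := by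
    ext1 r
    exact io_C r
  rw [Polynomial.aeval_def, Polynomial.hom_eval₂, Polynomial.aeval_def, Polynomial.eval₂_map, h]

theorem comp_swap_X1 {R : Type*} [CommRing R] (ε : P2 R →ₐ[R] P2 R) :
    (ε.comp (swapE R : P2 R →ₐ[R] P2 R)) (X 1) = ε (X 0) := by
  rw [AlgHom.comp_apply, AlgEquiv.coe_toAlgHom, swapE_X1]

theorem comp_elemE_X1 {R : Type*} [CommRing R] (ε : P2 R →ₐ[R] P2 R) (c : Rˣ)
    (h : Polynomial R) : (ε.comp (elemE c h : P2 R →ₐ[R] P2 R)) (X 1) = ε (X 1) := by
  rw [AlgHom.comp_apply, AlgEquiv.coe_toAlgHom, elemE_X1]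

theorem hom_C {R : Type*} [CommRing R] (ε : P2 R →ₐ[R] P2 R) (r : R) : ε (C r) = C r :=
  ε.commutes r

theorem comp_elemE_X0 {R : Type*} [CommRing R] (ε : P2 R →ₐ[R] P2 R) (c : Rˣ)
    (h : Polynomial R) : (ε.comp (elemE c h : P2 R →ₐ[R] P2 R)) (X 0) =
      C (c : R) * ε (X 0) + Polynomial.aeval (ε (X 1)) h := by
  rw [AlgHom.comp_apply, AlgEquiv.coe_toAlgHom, elemE_X0, map_add, map_mul, hom_C,
    Polynomial.aeval_algHom_apply]

/-- going up the tower -/
theorem tower_up {R K κ : Type*} [CommRing R] [IsDomain R] [Field K]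
    [Algebra R K] [IsFractionRing R K] [Field κ] (res : R →+* κ) (p : R) (hR : ResData res p)
    (M : ℕ) : ∀ (ε : P2 R →ₐ[R] P2 R), Good p M ε → NC p (ε (X 1)) →
      TT p (io R K (ε (X 0))) := by
  have hpK : algebraMap R K p ≠ 0 := by
    intro h
    exact hR.ne ((IsFractionRing.injective R K) (by rw [h, map_zero]))
  induction M with
  | zero =>
    intro ε hG hN
    by_cases h0 : NC p (ε (X 0))
    · refine ⟨0, ε.comp (swapE R : P2 R →ₐ[R] P2 R), 1, 0, good_aut _ _ _ hG _, ?_,
        one_ne_zero, ?_⟩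
      · rw [comp_swap_X1]; exact h0
      · rw [comp_swap_X1, C_1, C_0, one_mul, add_zero]
    · exfalso
      obtain ⟨l, hl⟩ : ∃ l, C p ∣ ε (X 0) - C l := by
        by_contra hcon
        push Not at hcon
        exact h0 (nc_of_nonconst res p hR _ hcon)
      cases hG with
      | top _ h => exact top_false res p hR ε h.2 l hl
  | succ M ih =>
    intro ε hG hN
    by_cases h0 : NC p (ε (X 0))
    · refine ⟨M + 1, ε.comp (swapE R : P2 R →ₐ[R] P2 R), 1, 0, good_aut _ _ _ hG _, ?_,
        one_ne_zero, ?_⟩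
      · rw [comp_swap_X1]; exact h0
      · rw [comp_swap_X1, C_1, C_0, one_mul, add_zero]
    · obtain ⟨l, hl⟩ : ∃ l, C p ∣ ε (X 0) - C l := by
        by_contra hcon
        push Not at hcon
        exact h0 (nc_of_nonconst res p hR _ hcon)
      set ε₁ : P2 R →ₐ[R] P2 R :=
        ε.comp (elemE 1 (-(Polynomial.C l)) : P2 R →ₐ[R] P2 R) with hε₁
      have e1 : ε₁ (X 1) = ε (X 1) := comp_elemE_X1 _ _ _
      have e0 : ε₁ (X 0) = ε (X 0) - C l := by
        rw [hε₁, comp_elemE_X0, map_neg, Polynomial.aeval_C, Units.val_one, C_1, one_mul,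
          ← sub_eq_add_neg]
        rfl
      obtain ⟨ε', hG', hε'⟩ := canon p hR.ne M ε₁ (good_aut _ _ _ hG _) (by rw [e0]; exact hl)
        (by rw [e1]; exact hN)
      have f1 : ε' (X 1) = ε (X 1) := by
        rw [← e1, hε', AlgHom.comp_apply, dil_X1]
      have f0 : C p * ε' (X 0) = ε (X 0) - C l := by
        rw [← e0, hε', AlgHom.comp_apply, dil_X0, map_mul, hom_C]
      have hT := ih ε' hG' (by rw [f1]; exact hN)
      refine TT_affine p hT (algebraMap R K p)⁻¹ (-((algebraMap R K p)⁻¹ * algebraMap R K l))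
        (inv_ne_zero hpK) ?_
      have g0 : C (algebraMap R K p) * io R K (ε' (X 0)) =
          io R K (ε (X 0)) - C (algebraMap R K l) := by
        rw [← io_C, ← io_C, ← map_mul, f0, map_sub]
      have g1 : io R K (ε (X 0)) =
          C (algebraMap R K p) * io R K (ε' (X 0)) + C (algebraMap R K l) := by
        rw [g0, sub_add_cancel]
      rw [g1, C_neg, C_mul, mul_add, ← mul_assoc, ← C_mul, inv_mul_cancel₀ hpK, C_1, one_mul]
      ring

/-- dilations -/
theorem good_pow {R : Type*} [CommRing R] (p : R) (M : ℕ) (ε : P2 R →ₐ[R] P2 R) (h : Good p M ε)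
    (hN : NC p (ε (X 1))) (e : ℕ) :
    ∃ ε' : P2 R →ₐ[R] P2 R, Good p (M + e) ε' ∧ ε' (X 1) = ε (X 1) ∧
      ε' (X 0) = C (p ^ e) * ε (X 0) := by
  induction e with
  | zero => exact ⟨ε, h, rfl, by rw [pow_zero, C_1, one_mul]⟩
  | succ e ih =>
    obtain ⟨ε', h1, h2, h3⟩ := ih
    have h4 := Good.step (M + e) ε' (AlgEquiv.refl : P2 R ≃ₐ[R] P2 R) h1 (by rw [h2]; exact hN)
    refine ⟨_, h4, ?_, ?_⟩
    · rw [AlgHom.comp_apply, AlgHom.comp_apply, AlgEquiv.coe_toAlgHom, AlgEquiv.coe_refl, id,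
        dil_X1, h2]
    · rw [AlgHom.comp_apply, AlgHom.comp_apply, AlgEquiv.coe_toAlgHom, AlgEquiv.coe_refl, id,
        dil_X0, map_mul, hom_C, h3, pow_succ, C_mul]
      ring

theorem p_irred {R κ : Type*} [CommRing R] [IsDomain R] [IsDiscreteValuationRing R] [Field κ]
    (res : R →+* κ) (p : R) (hR : ResData res p) : Irreducible p := by
  rw [IsDiscreteValuationRing.irreducible_iff_uniformizer]
  have h1 : RingHom.ker res = Ideal.span {p} := by
    ext a
    rw [RingHom.mem_ker, hR.ker, Ideal.mem_span_singleton]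
  have h2 : (RingHom.ker res).IsMaximal := RingHom.ker_isMaximal_of_surjective res hR.surj
  rw [← h1]
  exact (IsLocalRing.eq_maximalIdeal h2).symm

/-- clearing denominators and powers of `p` -/
theorem normalise {R K κ : Type*} [CommRing R] [IsDomain R] [IsDiscreteValuationRing R] [Field K]
    [Algebra R K] [IsFractionRing R K] [Field κ] (res : R →+* κ) (p : R) (hR : ResData res p)
    (G : Polynomial K) (hG : G ≠ 0) :
    ∃ (a1 : K) (G' : Polynomial R), a1 ≠ 0 ∧
      G'.map (algebraMap R K) = Polynomial.C a1 * G ∧ ¬ Polynomial.C p ∣ G' := by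
  have hinj := IsFractionRing.injective R K
  have hpK : algebraMap R K p ≠ 0 := by
    intro h
    exact hR.ne (hinj (by rw [h, map_zero]))
  obtain ⟨s, hsM, hs⟩ := IsLocalization.integerNormalization_spec (nonZeroDivisors R) G
  set G₁ := IsLocalization.integerNormalization (nonZeroDivisors R) G with hG₁
  have hs0 : algebraMap R K (s : R) ≠ 0 := by
    intro h
    exact nonZeroDivisors.ne_zero hsM (hinj (by rw [h, map_zero]))
  have hs' : G₁.map (algebraMap R K) = Polynomial.C (algebraMap R K (s : R)) * G := by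
    rw [hs, ← Polynomial.smul_eq_C_mul, algebraMap_smul]
  have hG₁0 : G₁ ≠ 0 := by
    intro h
    rw [h, Polynomial.map_zero] at hs'
    exact mul_ne_zero (Polynomial.C_ne_zero.2 hs0) hG hs'.symm
  have hfin : FiniteMultiplicity (Polynomial.C p) G₁ := by
    refine FiniteMultiplicity.of_not_isUnit ?_ hG₁0
    rw [Polynomial.isUnit_C]
    exact (p_irred res p hR).not_isUnit
  obtain ⟨G', h1, h2⟩ := hfin.exists_eq_pow_mul_and_not_dvd
  set n := multiplicity (Polynomial.C p) G₁
  refine ⟨algebraMap R K (s : R) / (algebraMap R K p) ^ n, G', div_ne_zero hs0 (pow_ne_zero _ hpK),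
    ?_, h2⟩
  have h3 : Polynomial.C ((algebraMap R K p) ^ n) ≠ 0 := Polynomial.C_ne_zero.2 (pow_ne_zero _ hpK)
  apply mul_left_cancel₀ h3
  have h4 : G₁.map (algebraMap R K) =
      Polynomial.C ((algebraMap R K p) ^ n) * G'.map (algebraMap R K) := by
    conv_lhs => rw [h1]
    rw [Polynomial.map_mul, Polynomial.map_pow, Polynomial.map_C, Polynomial.C_pow]
  rw [← h4, hs', ← mul_assoc, ← Polynomial.C_mul, mul_div_cancel₀ _ (pow_ne_zero _ hpK)]

theorem adjoin_affine {K : Type*} [Field K] (a b : P2 K) (u v : K) (hu : u ≠ 0)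
    (h : Algebra.adjoin K {a, b} = ⊤) : Algebra.adjoin K {a, C u * b + C v} = ⊤ := by
  rw [← top_le_iff, ← h]
  refine Algebra.adjoin_le ?_
  have h1 : C u * b + C v ∈ Algebra.adjoin K {a, C u * b + C v} :=
    Algebra.subset_adjoin (by simp)
  have hC : ∀ r : K, (C r : P2 K) ∈ Algebra.adjoin K {a, C u * b + C v} := fun r =>
    (Algebra.adjoin K {a, C u * b + C v}).algebraMap_mem r
  rintro y (rfl | hy)
  · exact Algebra.subset_adjoin (by simp)
  · rw [Set.mem_singleton_iff] at hy
    subst hy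
    have h2 : y = C u⁻¹ * ((C u * y + C v) - C v) := by
      rw [add_sub_cancel_right, ← mul_assoc, ← C_mul, inv_mul_cancel₀ hu, C_1, one_mul]
    have h3 := (Algebra.adjoin K {a, C u * y + C v}).mul_mem (hC u⁻¹)
      ((Algebra.adjoin K {a, C u * y + C v}).sub_mem h1 (hC v))
    rw [← h2] at h3
    exact h3

theorem tt_step {R K κ : Type*} [CommRing R] [IsDomain R] [IsDiscreteValuationRing R] [Field K]
    [Algebra R K] [IsFractionRing R K] [Field κ] (res : R →+* κ) (p : R) (hR : ResData res p)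
    (a b : P2 K) (hb : TT p b) (hab : Algebra.adjoin K {a, b} = ⊤) : TT p a := by
  obtain ⟨M, ε, a0, c0, hG, hN, ha0, he⟩ := hb
  have hinj := IsFractionRing.injective R K
  have hpK : algebraMap R K p ≠ 0 := by
    intro h
    exact hR.ne (hinj (by rw [h, map_zero]))
  obtain ⟨φ, hφ0, hφ1⟩ := exists_equiv _ _ (good_gen (K := K) p hpK M ε hG)
  have hadj : Algebra.adjoin K {a, φ (X 1)} = ⊤ := by
    rw [hφ1, he]
    exact adjoin_affine a b a0 c0 ha0 hab
  obtain ⟨c, h, hc, hah⟩ := elem_form φ a hadj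
  rw [hφ0, hφ1] at hah
  have hG0 : h + Polynomial.C (c - h.coeff 0) ≠ 0 := by
    intro h0
    apply hc
    have h1 : (h + Polynomial.C (c - h.coeff 0)).coeff 0 = c := by
      rw [Polynomial.coeff_add, Polynomial.coeff_C_zero]; ring
    rw [← h1, h0, Polynomial.coeff_zero]
  obtain ⟨a1, G', ha1, hG', hnd⟩ := normalise res p hR (h + Polynomial.C (c - h.coeff 0)) hG0
  set c' : R := G'.coeff 0 with hc'
  set h' : Polynomial R := G' - Polynomial.C c' with hh'
  have hcc : algebraMap R K c' = a1 * c := by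
    have h1 : (G'.map (algebraMap R K)).coeff 0 = algebraMap R K c' := by
      rw [Polynomial.coeff_map]
    rw [← h1, hG', Polynomial.coeff_C_mul, Polynomial.coeff_add, Polynomial.coeff_C_zero]
    ring
  have hc'0 : c' ≠ 0 := by
    intro h0
    rw [h0, map_zero] at hcc
    exact mul_ne_zero ha1 hc hcc.symm
  set b'' : P2 R := C c' * ε (X 0) + Polynomial.aeval (ε (X 1)) h' with hb''
  have hio : io R K b'' = C a1 * a + C (-(a1 * h.coeff 0)) := by
    have hh'm : h'.map (algebraMap R K) =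
        Polynomial.C a1 * (h + Polynomial.C (c - h.coeff 0)) - Polynomial.C (a1 * c) := by
      rw [hh', Polynomial.map_sub, Polynomial.map_C, hG', hcc]
    rw [hb'', map_add, map_mul, io_C, io_aeval, hh'm, hcc, hah]
    simp only [map_sub, map_mul, map_add, map_neg, Polynomial.aeval_C,
      MvPolynomial.algebraMap_eq]
    ring
  suffices hsuff : TT p (io R K b'') from
    TT_affine p hsuff a1 (-(a1 * h.coeff 0)) ha1 hio
  have hirr := p_irred res p hR
  by_cases hdvd : p ∣ c'
  · obtain ⟨e, u, hu⟩ := IsDiscreteValuationRing.eq_unit_mul_pow_irreducible hc'0 hirr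
    obtain ⟨ε', hG2, hε1, hε0⟩ := good_pow p M ε hG hN e
    have hfin : (((ε'.comp (elemE u h' : P2 R →ₐ[R] P2 R))).comp
        (swapE R : P2 R →ₐ[R] P2 R)) (X 1) = b'' := by
      rw [comp_swap_X1, comp_elemE_X0, hε0, hε1, hb'', hu, C_mul, mul_assoc]
    refine ⟨M + e, (ε'.comp (elemE u h' : P2 R →ₐ[R] P2 R)).comp (swapE R : P2 R →ₐ[R] P2 R), 1, 0,
      good_aut _ _ _ (good_aut _ _ _ hG2 _) _, ?_, one_ne_zero, ?_⟩
    · rw [hfin]
      refine nc_of_nonconst res p hR _ fun c₂ hc₂ => hnd ?_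
      have h1 : C p ∣ Polynomial.aeval (ε (X 1)) (h' - Polynomial.C c₂) := by
        have h2 : Polynomial.aeval (ε (X 1)) (h' - Polynomial.C c₂) =
            (b'' - C c₂) - C c' * ε (X 0) := by
          rw [hb'', map_sub, Polynomial.aeval_C, MvPolynomial.algebraMap_eq]
          ring
        rw [h2]
        exact dvd_sub hc₂ (Dvd.dvd.mul_right (map_dvd C hdvd) _)
      have h3 := hN _ h1
      rw [Polynomial.C_dvd_iff_dvd_coeff] at h3 ⊢
      intro i
      rcases Nat.eq_zero_or_pos i with rfl | hi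
      · exact hdvd
      · have h4 := h3 i
        rw [hh', Polynomial.coeff_sub, Polynomial.coeff_sub, Polynomial.coeff_C,
          Polynomial.coeff_C, if_neg hi.ne', if_neg hi.ne', sub_zero, sub_zero] at h4
        exact h4
    · rw [hfin, C_1, C_0, one_mul, add_zero]
  · have hunit : IsUnit c' := by
      by_contra hnu
      apply hdvd
      have h1 : c' ∈ IsLocalRing.maximalIdeal R := (IsLocalRing.mem_maximalIdeal _).2 hnu
      rw [(IsDiscreteValuationRing.irreducible_iff_uniformizer p).1 hirr,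
        Ideal.mem_span_singleton] at h1
      exact h1
    obtain ⟨u, hu⟩ := hunit
    have h1 := tower_up (K := K) res p hR M (ε.comp (elemE u h' : P2 R →ₐ[R] P2 R))
      (good_aut _ _ _ hG _) (by rw [comp_elemE_X1]; exact hN)
    rw [comp_elemE_X0, hu] at h1
    exact h1

theorem adjoin_equiv {K : Type*} [Field K] (ψ : P2 K ≃ₐ[K] P2 K) :
    Algebra.adjoin K {ψ (X 0), ψ (X 1)} = ⊤ := by
  have h1 : Algebra.adjoin K (Set.range (X : Fin 2 → P2 K)) = ⊤ := MvPolynomial.adjoin_range_X
  have h2 : ({ψ (X 0), ψ (X 1)} : Set (P2 K)) =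
      (ψ : P2 K →ₐ[K] P2 K) '' Set.range (X : Fin 2 → P2 K) := by
    ext y
    constructor
    · rintro (rfl | hy)
      · exact ⟨X 0, ⟨0, rfl⟩, rfl⟩
      · rw [Set.mem_singleton_iff] at hy
        subst hy
        exact ⟨X 1, ⟨1, rfl⟩, rfl⟩
    · rintro ⟨_, ⟨i, rfl⟩, rfl⟩
      rcases i with ⟨i, hi⟩
      interval_cases i
      · exact Or.inl rfl
      · exact Or.inr rfl
  rw [h2, ← AlgHom.map_adjoin, h1, Algebra.map_top]
  exact (AlgHom.range_eq_top _).2 ψ.surjective

theorem tt_X1 {R K κ : Type*} [CommRing R] [IsDomain R] [Field K]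
    [Algebra R K] [Field κ] (res : R →+* κ) (p : R) (hR : ResData res p) :
    TT p (X 1 : P2 K) := by
  refine ⟨0, AlgHom.id R (P2 R), 1, 0, Good.top _ Function.bijective_id, ?_, one_ne_zero, ?_⟩
  · refine nc_of_nonconst res p hR _ fun c hc => ?_
    rw [AlgHom.id_apply, MvPolynomial.C_dvd_iff_dvd_coeff] at hc
    have h1 := hc (Finsupp.single 1 1)
    have hne : ¬ (0 : Fin 2 →₀ ℕ) = Finsupp.single 1 1 := by
      intro h
      have h2 := DFunLike.congr_fun h (1 : Fin 2)
      simp at h2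
    have h5 : coeff (Finsupp.single 1 1) ((X 1 : P2 R) - C c) = 1 := by
      rw [MvPolynomial.coeff_sub, MvPolynomial.coeff_C, if_neg hne, sub_zero]
      simp [MvPolynomial.coeff_X]
    rw [h5] at h1
    have h2 := (hR.ker 1).2 h1
    rw [map_one] at h2
    exact one_ne_zero h2
  · rw [AlgHom.id_apply, io, MvPolynomial.map_X, C_1, C_0, one_mul, add_zero]

end TowerAux

open TowerAux in
theorem tower_tame {R K κ : Type*} [CommRing R] [IsDomain R] [IsDiscreteValuationRing R] [Field K]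
    [Algebra R K] [IsFractionRing R K] [Field κ] (res : R →+* κ) (p : R) (hR : ResData res p)
    (φ : P2 K ≃ₐ[K] P2 K) (hφ : φ ∈ tameGroup K) : TT p (φ (X 1)) := by
  have key : ∀ ψ : P2 K ≃ₐ[K] P2 K, TT p (ψ (X 1)) → TT p (ψ (X 0)) := fun ψ h =>
    tt_step res p hR _ _ h (adjoin_equiv ψ)
  unfold tameGroup at hφ
  induction hφ using Subgroup.closure_induction_right with
  | one => exact tt_X1 res p hR
  | mul_right x hx y hy ih =>
    rcases hy with rfl | ⟨c, h, rfl⟩
    · rw [AlgEquiv.mul_apply, swapE_X1]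
      exact key x ih
    · rw [AlgEquiv.mul_apply, elemE_X1]
      exact ih
  | mul_inv_cancel x hx y hy ih =>
    rcases hy with rfl | ⟨c, h, rfl⟩
    · have h1 : (swapE K)⁻¹ (X 1) = X 0 := by
        have h2 : (swapE K)⁻¹ (swapE K (X 0)) = X 0 := (swapE K).symm_apply_apply _
        rwa [swapE_X0] at h2
      rw [AlgEquiv.mul_apply, h1]
      exact key x ih
    · have h1 : (elemE c h)⁻¹ (X 1) = X 1 := by
        have h2 : (elemE c h)⁻¹ (elemE c h (X 1)) = X 1 := (elemE c h).symm_apply_apply _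
        rwa [elemE_X1] at h2
      rw [AlgEquiv.mul_apply, h1]
      exact ih

end Pool.Agent.R2F
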