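import Mathlib
import Pool.Agent.R2F.Tower
import Pool.Agent.R2F.ABstep
import Pool.Agent.R2F.ABend

/-!
# local theorem

Proof. `tower_tame`: `ε`, `Good p M ε`, `ι (ε (X 1)) = C a * φ (X 1) + C c = ι-multiple of P`. Both `ε (X 1)` and `P` are `NC`, so `a, c` come from a unit and an element of `R`: replace `ε` by `ε ∘ (affine automorphism)` to get `ε (X 1) = P`. `ab_start`, then induction on `M` with `ab_aut`, `ab_step`, `ab_end`.
-/

set_option autoImplicit false

open MvPolynomial

namespace Pool.Agent.R2F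

namespace LocalMAux

open LNDHom

section DVR

variable {R K κ : Type*} [CommRing R] [Field κ] (res : R →+* κ) (p : R)

theorem not_isUnit (hR : ResData res p) : ¬ IsUnit p := by
  intro h
  have h1 : res p = 0 := (hR.ker p).2 dvd_rfl
  exact (h.map res).ne_zero h1

theorem isUnit_of_not_dvd [IsLocalRing R] (hR : ResData res p) (u : R) (hu : ¬ p ∣ u) :
    IsUnit u := by
  have h1 : res u ≠ 0 := fun h => hu ((hR.ker u).1 h)
  obtain ⟨v, hv⟩ := hR.surj (res u)⁻¹
  obtain ⟨t, ht⟩ := (hR.ker (u * v - 1)).1 (by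
    rw [map_sub, map_mul, hv, mul_inv_cancel₀ h1, map_one, sub_self])
  have h2 : ¬ IsUnit (p * t) := fun h => not_isUnit res p hR (isUnit_of_mul_isUnit_left h)
  have h3 : IsUnit (u * v) := by
    by_contra h4
    have h5 := IsLocalRing.nonunits_add h4 (b := -(p * t)) (by
      rw [mem_nonunits_iff, IsUnit.neg_iff]; exact h2)
    rw [← ht] at h5
    have h6 : u * v + -(u * v - 1) = 1 := by ring
    rw [h6] at h5
    exact h5 isUnit_one
  exact isUnit_of_mul_isUnit_left h3

theorem irreducible [IsDomain R] [IsDiscreteValuationRing R] (hR : ResData res p) :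
    Irreducible p := by
  rw [IsDiscreteValuationRing.irreducible_iff_uniformizer]
  ext u
  rw [Ideal.mem_span_singleton, IsLocalRing.mem_maximalIdeal, mem_nonunits_iff]
  constructor
  · intro h
    by_contra h1
    exact h (isUnit_of_not_dvd res p hR u h1)
  · intro h h1
    exact not_isUnit res p hR (isUnit_of_dvd_unit h h1)

theorem pow_mul_integral [IsDomain R] [IsDiscreteValuationRing R] [Field K] [Algebra R K]
    [IsFractionRing R K] (hR : ResData res p) (x : K) :
    ∃ (e : ℕ) (a : R), algebraMap R K p ^ e * x = algebraMap R K a := by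
  obtain ⟨n, d, hd, rfl⟩ := IsFractionRing.div_surjective (A := R) x
  have hd0 : d ≠ 0 := nonZeroDivisors.ne_zero hd
  obtain ⟨e, u, hu⟩ := IsDiscreteValuationRing.associated_pow_irreducible hd0
    (irreducible res p hR)
  refine ⟨e, (u : R) * n, ?_⟩
  have hd1 : algebraMap R K d ≠ 0 := by
    simpa using hd0
  rw [← map_pow, ← hu, map_mul, map_mul]
  field_simp

end DVR

/-- cancellation of powers of `p` -/
theorem cancel {R : Type*} [CommRing R] [IsDomain R] (p : R) (hp : p ≠ 0) (P b : P2 R)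
    (hNC : NC p P) (e : ℕ) : ∀ a c : R, C (p ^ e) * b = C a * P + C c →
      ∃ a c : R, b = C a * P + C c := by
  induction e with
  | zero =>
    intro a c h
    exact ⟨a, c, by rw [← h, pow_zero, C_1, one_mul]⟩
  | succ e ih =>
    intro a c h
    have h1 : C p ∣ Polynomial.aeval P (Polynomial.C a * Polynomial.X + Polynomial.C c) := by
      rw [map_add, map_mul, Polynomial.aeval_X, Polynomial.aeval_C, Polynomial.aeval_C]
      refine ⟨C (p ^ e) * b, ?_⟩
      rw [← mul_assoc, ← C_mul, ← pow_succ', h]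
      rfl
    have h2 := hNC _ h1
    rw [Polynomial.C_dvd_iff_dvd_coeff] at h2
    obtain ⟨a', ha'⟩ : p ∣ a := by
      have := h2 1
      simpa using this
    obtain ⟨c', hc'⟩ : p ∣ c := by
      have := h2 0
      simpa using this
    refine ih a' c' ?_
    have hp' : (C p : P2 R) ≠ 0 := by
      rw [Ne, C_eq_zero]; exact hp
    apply mul_left_cancel₀ hp'
    rw [← mul_assoc, ← C_mul, ← pow_succ', h, ha', hc', C_mul, C_mul]
    ring

/-- local nilpotency -/
theorem ln {K : Type*} [Field K] (φ : P2 K ≃ₐ[K] P2 K) (Δ : Derivation K (P2 K) (P2 K))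
    (h1 : Δ (φ (X 0)) = 1) (h0 : Δ (φ (X 1)) = 0) (x : P2 K) : ∃ n, (⇑Δ)^[n] x = 0 := by
  obtain ⟨f, rfl⟩ := φ.surjective x
  induction f using MvPolynomial.induction_on with
  | C a =>
    refine ⟨1, ?_⟩
    rw [Function.iterate_one]
    have : φ (C a) = algebraMap K (P2 K) a := φ.commutes a
    rw [this, Derivation.map_algebraMap]
  | add f g hf hg =>
    obtain ⟨n, hn⟩ := hf
    obtain ⟨m, hm⟩ := hg
    refine ⟨max n m, ?_⟩
    rw [map_add, iterate_map_add, iter_zero_of_le Δ hn (le_max_left _ _),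
      iter_zero_of_le Δ hm (le_max_right _ _), add_zero]
  | mul_X f i hf =>
    obtain ⟨n, hn⟩ := hf
    have hi : (⇑Δ)^[1 + 1] (φ (X i)) = 0 := by
      rcases i with ⟨i, hi⟩
      interval_cases i
      · show Δ (Δ (φ (X 0))) = 0
        rw [h1, Derivation.map_one_eq_zero]
      · show Δ (Δ (φ (X 1))) = 0
        rw [h0, map_zero]
    have h2 := iter_mul_top Δ (n + 1) n 1 (φ f) (φ (X i)) rfl
      (iter_zero_of_le Δ hn (Nat.le_succ n)) hi
    exact ⟨n + 1 + 1, by rw [map_mul]; exact h2.2⟩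

end LocalMAux

theorem local_main {R K κ : Type*} [CommRing R] [IsDomain R] [IsDiscreteValuationRing R] [Field K]
    [CharZero K] [Algebra R K] [IsFractionRing R K] [Field κ] [CharZero κ] (res : R →+* κ) (p : R)
    (hR : ResData res p) (φ : P2 K ≃ₐ[K] P2 K) (hφ : φ ∈ tameGroup K)
    (Δ : Derivation K (P2 K) (P2 K)) (hΔ1 : Δ (φ (X 0)) = 1) (hΔ0 : Δ (φ (X 1)) = 0)
    (P : P2 R) (hP : io R K P = φ (X 1)) (hNC : NC p P) (n : ℕ) :
    ∃ (Q : P2 R) (l : K), l ≠ 0 ∧ (⇑Δ)^[n + 1] (io R K Q) = 0 ∧ (⇑Δ)^[n] (io R K Q) = C l ∧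
      ∀ x : P2 R, (⇑Δ)^[n + 1] (io R K x) = 0 →
        ∃ g : Polynomial R, (⇑Δ)^[n] (io R K x) = C l * io R K (Polynomial.aeval P g) := by
  have hinj : Function.Injective (algebraMap R K) := IsFractionRing.injective R K
  have hio : Function.Injective (io R K) := MvPolynomial.map_injective _ hinj
  have hpK : algebraMap R K p ≠ 0 := by
    rw [Ne, map_eq_zero_iff _ hinj]; exact hR.ne
  have hioC : ∀ a : R, io R K (C a) = C (algebraMap R K a) := fun a => MvPolynomial.map_C _ a
  obtain ⟨M, ε, a, c, hG, hnc, ha0, hb⟩ := tower_tame res p hR φ hφ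
  -- the constants are integral
  obtain ⟨e1, a1, ha1⟩ := LocalMAux.pow_mul_integral res p hR a
  obtain ⟨e2, c2, hc2⟩ := LocalMAux.pow_mul_integral res p hR c
  obtain ⟨u, v, huv⟩ := LocalMAux.cancel p hR.ne P (ε (X 1)) hNC (e1 + e2) (p ^ e2 * a1)
    (p ^ e1 * c2) (by
      apply hio
      have h1 : algebraMap R K (p ^ (e1 + e2)) * a = algebraMap R K (p ^ e2 * a1) := by
        rw [map_mul, ← ha1, map_pow, map_pow]; ring
      have h2 : algebraMap R K (p ^ (e1 + e2)) * c = algebraMap R K (p ^ e1 * c2) := by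
        rw [map_mul, ← hc2, map_pow, map_pow]; ring
      rw [map_add, map_mul, map_mul, hioC, hioC, hioC, hb, hP, ← h1, ← h2, C_mul, C_mul]
      ring)
  have hu : IsUnit u := by
    apply LocalMAux.isUnit_of_not_dvd res p hR
    rintro ⟨w, rfl⟩
    refine nonconst_of_nc res p hR (ε (X 1)) hnc v ⟨C w * P, ?_⟩
    rw [huv, C_mul]; ring
  obtain ⟨u, rfl⟩ := hu
  -- normalise
  set α : P2 R ≃ₐ[R] P2 R := ((swapE R).trans (elemE u⁻¹
    (Polynomial.C (-((u⁻¹ : Rˣ) : R) * v)))).trans (swapE R) with hα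
  have hα1 : α (X 1) = C ((u⁻¹ : Rˣ) : R) * X 1 + C (-((u⁻¹ : Rˣ) : R) * v) := by
    have hC : ∀ r : R, swapE R (C r) = C r := fun r => (swapE R).commutes r
    rw [hα, AlgEquiv.trans_apply, AlgEquiv.trans_apply, swapE_X1, elemE_X0, map_add, map_mul,
      swapE_X0, hC, Polynomial.aeval_C]
    congr 1
    exact hC _
  have hεC : ∀ r : R, ε (C r) = C r := fun r => ε.commutes r
  set ε' : P2 R →ₐ[R] P2 R := ε.comp (α : P2 R →ₐ[R] P2 R) with hε'
  have hε1 : ε' (X 1) = P := by
    have h1 : ε' (X 1) = ε (α (X 1)) := rfl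
    rw [h1, hα1, map_add, map_mul, hεC, hεC, huv, mul_add, ← mul_assoc, ← C_mul, ← C_mul,
      Units.inv_mul, C_1, one_mul, neg_mul, C_neg, add_assoc, add_neg_cancel, add_zero]
  have hG' : Good p M ε' := good_aut p M ε hG α
  have hgen := good_gen (K := K) p hpK M ε' hG'
  rw [hε1, hP] at hgen
  obtain ⟨l, g, hl, hlg⟩ := elem_form φ (io R K (ε' (X 0))) hgen
  have hker0 : ∀ g : Polynomial K, Δ (Polynomial.aeval (φ (X 1)) g) = 0 := by
    intro g
    induction g using Polynomial.induction_on' with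
    | add f g hf hg => rw [map_add, map_add, hf, hg, add_zero]
    | monomial n a =>
      rw [Polynomial.aeval_monomial, Derivation.leibniz, Derivation.map_algebraMap,
        Derivation.leibniz_pow, hΔ0]
      simp
  have hΔl : Δ (io R K (ε' (X 0))) = C l := by
    have h1 : (C l : P2 K) = algebraMap K (P2 K) l := rfl
    rw [hlg, map_add, hker0, Derivation.leibniz, hΔ1, h1, Derivation.map_algebraMap]
    simp
  have hΔP : Δ (io R K P) = 0 := by rw [hP, hΔ0]
  have hAB := ab_start res p hR P Δ ε' hε1 l hl hΔl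
  -- the induction
  have key : ∀ (M : ℕ) (ε : P2 R →ₐ[R] P2 R), Good p M ε → Nonempty (AB res p P Δ ε) →
      ∃ (Q : P2 R) (l : K), l ≠ 0 ∧ (⇑Δ)^[n + 1] (io R K Q) = 0 ∧ (⇑Δ)^[n] (io R K Q) = C l ∧
        ∀ x : P2 R, (⇑Δ)^[n + 1] (io R K x) = 0 →
          ∃ g : Polynomial R, (⇑Δ)^[n] (io R K x) = C l * io R K (Polynomial.aeval P g) := by
    intro M ε h
    induction h with
    | top ε h =>
      intro hAB
      exact ab_end res p hR hinj (LocalMAux.pow_mul_integral res p hR) P Δ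
        (LocalMAux.ln φ Δ hΔ1 hΔ0) (fun y hy => by
          obtain ⟨g, hg⟩ := ker_form φ Δ hΔ1 hΔ0 y hy
          exact ⟨g, by rw [hP]; exact hg⟩) ε h hAB n
    | step M ε α h h1 ih =>
      intro hAB
      exact ih (ab_step res p hR hpK P hNC Δ hΔP ε (ab_aut res p P Δ (ε.comp (dil p)) α hAB))
  exact key M ε' hG' hAB

end Pool.Agent.R2F
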