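import Mathlib
import Pool.Agent.R2F.GlobA
import Pool.Agent.R2F.LocalM

/-!
# global theorem over a principal ideal domain

Proof. `glob_a`. `ι (D^[n] x) = u^n Δ^[n] (ι x)`. The leading coefficients `l` of the elements
`Q : P2 R` with `Δ^[n] (ι Q) = C l` form a fractional ideal (bounded by a coefficient of `u ^ n`), so
they are the multiples of one of them, `l0`. For `x` with `Δ^[n+1] (ι x) = 0`, `Δ^[n] (ι x) = F(ι P)`;
if a coefficient `f` of `F` is not in `R l0` then the ideal `{a | a f ∈ R l0}` is contained in a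
maximal ideal `(p)`, and `local_main` over the localisation at `(p)` gives a contradiction.
-/

set_option autoImplicit false

open MvPolynomial

namespace Pool.Agent.R2F

namespace GlobBAux

theorem io_C (R K : Type*) [CommRing R] [CommRing K] [Algebra R K] (a : R) :
    io R K (C a) = C (algebraMap R K a) := map_C _ _

theorem io_aeval (R K : Type*) [CommRing R] [CommRing K] [Algebra R K] (P : P2 R)
    (g : Polynomial R) :
    io R K (Polynomial.aeval P g) =
      Polynomial.aeval (io R K P) (g.map (algebraMap R K)) := by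
  rw [Polynomial.aeval_def, Polynomial.hom_eval₂, Polynomial.aeval_def, Polynomial.eval₂_map]
  congr 1
  ext a
  simp [io, MvPolynomial.algebraMap_eq]

/-- clearing denominators -/
theorem clear_den {R V : Type*} [CommRing R] [CommRing V] [Algebra R V] (S : Submonoid R)
    [IsLocalization S V] (f : P2 V) :
    ∃ (s : R) (g : P2 R), s ∈ S ∧ io R V g = C (algebraMap R V s) * f := by
  classical
  obtain ⟨b, hb⟩ := IsLocalization.exist_integer_multiples_of_finset S f.coeffs
  have h : C (algebraMap R V b) * f ∈ Set.range (MvPolynomial.map (σ := Fin 2)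
      (algebraMap R V)) := by
    rw [mem_range_map_iff_coeffs_subset]
    intro c hc
    rw [Finset.mem_coe, mem_coeffs_iff] at hc
    obtain ⟨m, hm, rfl⟩ := hc
    rw [coeff_C_mul]
    have hm' : coeff m f ≠ 0 := by
      intro h0
      rw [mem_support_iff, coeff_C_mul, h0, mul_zero] at hm
      exact hm rfl
    obtain ⟨a, ha⟩ := hb (coeff m f) (mem_coeffs_iff.2 ⟨m, mem_support_iff.2 hm', rfl⟩)
    refine ⟨a, ?_⟩
    rw [ha, Algebra.smul_def]
  obtain ⟨g, hg⟩ := h
  exact ⟨b, g, b.2, hg⟩

variable {R K : Type*} [CommRing R] [IsDomain R] [Field K] [Algebra R K]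

theorem der_C (Δ : Derivation K (P2 K) (P2 K)) (a : K) : Δ (C a) = 0 := Δ.map_algebraMap a

theorem iter_C_mul (Δ : Derivation K (P2 K) (P2 K)) (n : ℕ) (a : K) (x : P2 K) :
    (⇑Δ)^[n] (C a * x) = C a * (⇑Δ)^[n] x := by
  induction n generalizing x with
  | zero => rfl
  | succ n ih =>
    rw [Function.iterate_succ_apply, Function.iterate_succ_apply, Derivation.leibniz, der_C,
      smul_zero, add_zero, smul_eq_mul, ih]

theorem iter_io (D : Derivation R (P2 R) (P2 R)) (Δ : Derivation K (P2 K) (P2 K)) (u : P2 K)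
    (hu : Δ u = 0) (h : ∀ x : P2 R, io R K (D x) = u * Δ (io R K x)) (n : ℕ) (x : P2 R) :
    io R K ((⇑D)^[n] x) = u ^ n * (⇑Δ)^[n] (io R K x) := by
  induction n with
  | zero => simp
  | succ n ih =>
    have h1 : Δ (u ^ n) = 0 := by rw [Derivation.leibniz_pow, hu]; simp
    rw [Function.iterate_succ_apply', Function.iterate_succ_apply', h, ih, Derivation.leibniz, h1,
      smul_zero, add_zero, smul_eq_mul, pow_succ]
    ring

theorem iter_pow (Δ : Derivation K (P2 K) (P2 K)) (x : P2 K) (hx : Δ x = 1) (n : ℕ) :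
    (⇑Δ)^[n] (x ^ n) = C ((n.factorial : ℕ) : K) := by
  induction n with
  | zero => simp
  | succ n ih =>
    rw [Function.iterate_succ_apply, Derivation.leibniz_pow, hx]
    have e : (n + 1) • x ^ (n + 1 - 1) • (1 : P2 K) = C ((n + 1 : ℕ) : K) * x ^ n := by
      rw [Nat.add_sub_cancel, smul_eq_mul, mul_one, nsmul_eq_mul]
      congr 1
    rw [e, iter_C_mul, ih, ← C_mul, Nat.factorial_succ, Nat.cast_mul]

theorem aeval_inj (φ : P2 K ≃ₐ[K] P2 K) {F G : Polynomial K}
    (h : Polynomial.aeval (φ (X 1)) F = Polynomial.aeval (φ (X 1)) G) : F = G := by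
  have h1 : Polynomial.aeval (X 1 : P2 K) F = Polynomial.aeval (X 1 : P2 K) G := by
    apply φ.injective
    have e : ∀ H : Polynomial K, φ (Polynomial.aeval (X 1 : P2 K) H) =
        Polynomial.aeval (φ (X 1)) H := fun H =>
      (Polynomial.aeval_algHom_apply (φ : P2 K →ₐ[K] P2 K) (X 1) H).symm
    rw [e, e, h]
  exact transcendental_iff_injective.1 (transcendental_X K (1 : Fin 2)) h1

/-- the fractional ideal of leading coefficients is principal -/
theorem exists_gen [IsPrincipalIdealRing R] [IsFractionRing R K]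
    (Δ : Derivation K (P2 K) (P2 K)) (n : ℕ) (v : K) (hv : v ≠ 0)
    (h : ∀ (Q : P2 R) (l : K), (⇑Δ)^[n] (io R K Q) = C l → ∃ r : R, algebraMap R K r = v * l)
    (hex : ∃ (Q : P2 R) (l : K), l ≠ 0 ∧ (⇑Δ)^[n] (io R K Q) = C l) :
    ∃ (Q0 : P2 R) (l0 : K), l0 ≠ 0 ∧ (⇑Δ)^[n] (io R K Q0) = C l0 ∧
      ∀ (Q : P2 R) (l : K), (⇑Δ)^[n] (io R K Q) = C l → ∃ a : R, l = algebraMap R K a * l0 := by
  classical
  let I : Ideal R :=
    { carrier := {r | ∃ (Q : P2 R) (l : K), (⇑Δ)^[n] (io R K Q) = C l ∧ algebraMap R K r = v * l}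
      add_mem' := by
        rintro r s ⟨Q, l, hQ, hr⟩ ⟨Q', l', hQ', hs⟩
        refine ⟨Q + Q', l + l', ?_, ?_⟩
        · rw [map_add, iterate_map_add, hQ, hQ', C_add]
        · rw [map_add, hr, hs, mul_add]
      zero_mem' := ⟨0, 0, by rw [map_zero, iterate_map_zero, C_0], by simp⟩
      smul_mem' := by
        rintro a r ⟨Q, l, hQ, hr⟩
        refine ⟨C a * Q, algebraMap R K a * l, ?_, ?_⟩
        · rw [map_mul, io_C, iter_C_mul, hQ, C_mul]
        · rw [smul_eq_mul, map_mul, hr]
          ring }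
  obtain ⟨g, hg⟩ := (IsPrincipalIdealRing.principal I).principal
  have hgI : g ∈ I := by rw [hg]; exact Submodule.mem_span_singleton_self g
  obtain ⟨Q0, l0, hQ0, hg0⟩ := hgI
  have key : ∀ (Q : P2 R) (l : K), (⇑Δ)^[n] (io R K Q) = C l →
      ∃ a : R, l = algebraMap R K a * l0 := by
    intro Q l hQ
    obtain ⟨r, hr⟩ := h Q l hQ
    have hrI : r ∈ I := ⟨Q, l, hQ, hr⟩
    rw [hg, Submodule.mem_span_singleton] at hrI
    obtain ⟨a, ha⟩ := hrI
    refine ⟨a, ?_⟩
    rw [smul_eq_mul] at ha
    have h1 : v * l = v * (algebraMap R K a * l0) := by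
      rw [← hr, ← ha, map_mul, hg0]
      ring
    exact mul_left_cancel₀ hv h1
  refine ⟨Q0, l0, ?_, hQ0, key⟩
  intro h0
  obtain ⟨Q, l, hl, hQ⟩ := hex
  obtain ⟨a, ha⟩ := key Q l hQ
  rw [h0, mul_zero] at ha
  exact hl ha

/-- the local argument -/
theorem local_claim [IsPrincipalIdealRing R] [IsFractionRing R K] [CharZero K] [Algebra ℚ R]
    (φ : P2 K ≃ₐ[K] P2 K) (hφ : φ ∈ tameGroup K)
    (Δ : Derivation K (P2 K) (P2 K)) (hΔ1 : Δ (φ (X 0)) = 1) (hΔ0 : Δ (φ (X 1)) = 0)
    (P : P2 R) (hP : io R K P = φ (X 1)) (hpp : ∀ p c : R, Prime p → ¬ C p ∣ P - C c) (n : ℕ)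
    (l0 : K) (hl0 : l0 ≠ 0)
    (hgen : ∀ (Q : P2 R) (l : K), (⇑Δ)^[n] (io R K Q) = C l → ∃ a : R, l = algebraMap R K a * l0)
    (x : P2 R) (hx : (⇑Δ)^[n + 1] (io R K x) = 0) (F : Polynomial K)
    (hF : (⇑Δ)^[n] (io R K x) = Polynomial.aeval (φ (X 1)) F) (i : ℕ) :
    ∃ a : R, F.coeff i = algebraMap R K a * l0 := by
  classical
  by_contra hcon
  let J : Ideal R :=
    { carrier := {r | ∃ b : R, algebraMap R K r * F.coeff i = algebraMap R K b * l0}
      add_mem' := by
        rintro r s ⟨b, hb⟩ ⟨b', hb'⟩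
        exact ⟨b + b', by rw [map_add, map_add, add_mul, add_mul, hb, hb']⟩
      zero_mem' := ⟨0, by simp⟩
      smul_mem' := by
        rintro a r ⟨b, hb⟩
        exact ⟨a * b, by rw [smul_eq_mul, map_mul, map_mul, mul_assoc, hb, mul_assoc]⟩ }
  have hJ1 : J ≠ ⊤ := by
    intro h
    rw [Ideal.eq_top_iff_one] at h
    obtain ⟨b, hb⟩ := h
    rw [map_one, one_mul] at hb
    exact hcon ⟨b, hb⟩
  obtain ⟨m, hm, hJm⟩ := Ideal.exists_le_maximal J hJ1
  have hprime : m.IsPrime := hm.isPrime
  obtain ⟨p, hp⟩ := (IsPrincipalIdealRing.principal m).principal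
  have hp' : m = Ideal.span {p} := hp
  have hp0 : p ≠ 0 := by
    rintro rfl
    obtain ⟨a, b, hb, hab⟩ := IsFractionRing.div_surjective (A := R) (F.coeff i / l0)
    have hb0 : b ≠ 0 := nonZeroDivisors.ne_zero hb
    have hbK : algebraMap R K b ≠ 0 := by
      rw [Ne, IsFractionRing.to_map_eq_zero_iff]
      exact hb0
    have hbJ : b ∈ J := by
      refine ⟨a, ?_⟩
      have h1 : algebraMap R K a * l0 = algebraMap R K b * F.coeff i := by
        field_simp at hab
        linear_combination hab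
      exact h1.symm
    have := hJm hbJ
    rw [hp', Ideal.mem_span_singleton, zero_dvd_iff] at this
    exact hb0 this
  have hpprime : Prime p := by
    rw [← Ideal.span_singleton_prime hp0, ← hp']
    exact hprime
  have hmbot : m ≠ ⊥ := by
    rw [hp', Ne, Ideal.span_singleton_eq_bot]
    exact hp0
  have hle : m.primeCompl ≤ nonZeroDivisors R := Ideal.primeCompl_le_nonZeroDivisors m
  let V : Subalgebra R K := Localization.subalgebra.ofField K m.primeCompl hle
  have : IsLocalization m.primeCompl V :=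
    Localization.subalgebra.isLocalization_ofField K m.primeCompl hle
  have : IsLocalization.AtPrime V m := ‹IsLocalization m.primeCompl V›
  have : IsFractionRing V K := Localization.subalgebra.isFractionRing_ofField K m.primeCompl hle
  have : IsDiscreteValuationRing V :=
    IsLocalization.AtPrime.isDiscreteValuationRing_of_dedekind_domain R hmbot V
  have hmax : IsLocalRing.maximalIdeal V = Ideal.span {algebraMap R V p} := by
    rw [← IsLocalization.AtPrime.map_eq_maximalIdeal m V, hp', Ideal.map_span,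
      Set.image_singleton]
  have : CharZero (IsLocalRing.ResidueField V) := by
    let f : ℚ →+* IsLocalRing.ResidueField V :=
      ((IsLocalRing.residue V).comp (algebraMap R V)).comp (algebraMap ℚ R)
    exact charZero_of_injective_ringHom f.injective
  have hRes : ResData (IsLocalRing.residue V) (algebraMap R V p) := by
    refine ⟨IsLocalRing.residue_surjective, fun a => ?_, ?_⟩
    · rw [IsLocalRing.residue_eq_zero_iff, hmax, Ideal.mem_span_singleton]
    · intro h0
      apply hp0
      have h1 : algebraMap R K p = 0 := by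
        rw [IsScalarTower.algebraMap_apply R V K, h0, map_zero]
      exact (IsFractionRing.to_map_eq_zero_iff (K := K)).1 h1
  have hio : ∀ Q : P2 R, io V K (io R V Q) = io R K Q := by
    intro Q
    unfold io
    rw [MvPolynomial.map_map, ← IsScalarTower.algebraMap_eq]
  have hNC : NC (algebraMap R V p) (io R V P) := by
    refine nc_of_nonconst _ _ hRes _ fun c hc => ?_
    apply hpp p (coeff 0 P) hpprime
    rw [C_dvd_iff_dvd_coeff] at hc ⊢
    intro j
    by_cases hj : j = 0
    · rw [hj, coeff_sub, coeff_C, if_pos rfl, sub_self]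
      exact dvd_zero p
    · have h1 := hc j
      rw [coeff_sub, coeff_C, if_neg (Ne.symm hj), sub_zero] at h1
      rw [coeff_sub, coeff_C, if_neg (Ne.symm hj), sub_zero]
      have h2 : coeff j (io R V P) = algebraMap R V (coeff j P) := coeff_map _ _ _
      rw [h2, ← Ideal.mem_span_singleton, ← hmax] at h1
      rw [← Ideal.mem_span_singleton, ← hp']
      exact (IsLocalization.AtPrime.to_map_mem_maximal_iff V m _).1 h1
  obtain ⟨Q', l', hl', hQ1, hQ2, hQ3⟩ := local_main (IsLocalRing.residue V) (algebraMap R V p) hRes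
    φ hφ Δ hΔ1 hΔ0 (io R V P) (by rw [hio, hP]) hNC n
  obtain ⟨t, Q'', ht, hQ''⟩ := clear_den m.primeCompl Q'
  have h1 : (⇑Δ)^[n] (io R K Q'') = C (algebraMap R K t * l') := by
    rw [← hio, hQ'', map_mul, io_C, iter_C_mul, hQ2, C_mul, ← IsScalarTower.algebraMap_apply]
  obtain ⟨α, hα⟩ := hgen Q'' _ h1
  obtain ⟨g, hg⟩ := hQ3 (io R V x) (by rw [hio]; exact hx)
  rw [hio, hF, io_aeval, hio, hP] at hg
  have h2 : F = Polynomial.C l' * g.map (algebraMap V K) := by
    apply aeval_inj φ
    rw [hg, map_mul, Polynomial.aeval_C]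
    rfl
  have h3 : F.coeff i = l' * algebraMap V K (g.coeff i) := by
    rw [h2, Polynomial.coeff_C_mul, Polynomial.coeff_map]
  obtain ⟨⟨b, s⟩, hbs⟩ := IsLocalization.surj m.primeCompl (g.coeff i)
  simp only at hbs
  have h4 : algebraMap V K (g.coeff i) * algebraMap R K s = algebraMap R K b := by
    have := congrArg (algebraMap V K) hbs
    rw [map_mul, ← IsScalarTower.algebraMap_apply, ← IsScalarTower.algebraMap_apply] at this
    exact this
  have h5 : t * (s : R) ∈ J := by
    refine ⟨α * b, ?_⟩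
    rw [h3, map_mul, map_mul, ← h4]
    linear_combination (algebraMap V K (g.coeff i) * algebraMap R K s) * hα
  have h6 := hJm h5
  rcases hprime.mem_or_mem h6 with h7 | h7
  · exact ht h7
  · exact s.2 h7

end GlobBAux

open GlobBAux

theorem pid_main {R : Type*} [CommRing R] [IsDomain R] [IsPrincipalIdealRing R] [Algebra ℚ R]
    (D : Derivation R (P2 R) (P2 R)) (hln : ∀ x, ∃ n, (⇑D)^[n] x = 0) (hD0 : ∃ x, D x ≠ 0) (n : ℕ) :
    ∃ Q c : P2 R, (⇑D)^[n] Q = c ∧ c ≠ 0 ∧ D c = 0 ∧
      ∀ x, (⇑D)^[n + 1] x = 0 → c ∣ (⇑D)^[n] x := by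
  classical
  have : CharZero (FractionRing R) := by
    let f : ℚ →+* FractionRing R := (algebraMap R (FractionRing R)).comp (algebraMap ℚ R)
    exact charZero_of_injective_ringHom f.injective
  obtain ⟨φ, Δ, u, P, hφ, hΔ1, hΔ0, hP, hpp, hu, hDu, hDio⟩ :=
    glob_a (K := FractionRing R) D hln hD0
  have hinj : Function.Injective (io R (FractionRing R)) :=
    MvPolynomial.map_injective _ (IsFractionRing.injective R (FractionRing R))
  have hiter := iter_io D Δ u hDu hDio
  have hun : u ^ n ≠ 0 := pow_ne_zero n hu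
  obtain ⟨w, hw⟩ := MvPolynomial.ne_zero_iff.1 hun
  obtain ⟨Q0, l0, hl0, hQ0, hgen⟩ := exists_gen (R := R) Δ n (coeff w (u ^ n)) hw (by
    intro Q l hQ
    refine ⟨coeff w ((⇑D)^[n] Q), ?_⟩
    have h1 := congrArg (coeff w) (hiter n Q)
    rw [hQ, mul_comm (u ^ n), coeff_C_mul, mul_comm l] at h1
    rw [← h1]
    exact (coeff_map _ _ _).symm) (by
    obtain ⟨s, Q, hs, hQ⟩ := clear_den (nonZeroDivisors R) (φ (X 0) ^ n)
    refine ⟨Q, algebraMap R (FractionRing R) s * ((n.factorial : ℕ) : FractionRing R), ?_, ?_⟩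
    · refine mul_ne_zero ?_ (Nat.cast_ne_zero.2 n.factorial_ne_zero)
      rw [Ne, IsFractionRing.to_map_eq_zero_iff]
      exact nonZeroDivisors.ne_zero hs
    · rw [hQ, iter_C_mul, iter_pow Δ _ hΔ1, C_mul])
  refine ⟨Q0, (⇑D)^[n] Q0, rfl, ?_, ?_, ?_⟩
  · intro h0
    have h1 := hiter n Q0
    rw [h0, map_zero, hQ0] at h1
    rcases mul_eq_zero.1 h1.symm with h2 | h2
    · exact hun h2
    · rw [C_eq_zero] at h2
      exact hl0 h2
  · apply hinj
    rw [map_zero, ← Function.iterate_succ_apply' (⇑D), hiter, Function.iterate_succ_apply', hQ0,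
      der_C, mul_zero]
  · intro x hx
    have hx' : (⇑Δ)^[n + 1] (io R (FractionRing R) x) = 0 := by
      have h1 := hiter (n + 1) x
      rw [hx, map_zero] at h1
      rcases mul_eq_zero.1 h1.symm with h2 | h2
      · exact absurd h2 (pow_ne_zero _ hu)
      · exact h2
    obtain ⟨F, hF⟩ := ker_form φ Δ hΔ1 hΔ0 ((⇑Δ)^[n] (io R (FractionRing R) x)) (by
      rw [← Function.iterate_succ_apply' (⇑Δ)]
      exact hx')
    have hco := local_claim φ hφ Δ hΔ1 hΔ0 P hP hpp n l0 hl0 hgen x hx' F hF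
    choose a ha using hco
    -- the polynomial over `R`
    have hlift : ∃ g : Polynomial R, F = Polynomial.C l0 * g.map (algebraMap R (FractionRing R)) := by
      refine ⟨∑ i ∈ Finset.range (F.natDegree + 1), Polynomial.monomial i (a i), ?_⟩
      ext i
      rw [Polynomial.coeff_C_mul, Polynomial.coeff_map, Polynomial.finsetSum_coeff]
      simp only [Polynomial.coeff_monomial]
      rw [Finset.sum_ite_eq' (Finset.range (F.natDegree + 1)) i]
      split_ifs with hi
      · rw [ha i, mul_comm]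
      · rw [map_zero, mul_zero]
        apply Polynomial.coeff_eq_zero_of_natDegree_lt
        rw [Finset.mem_range] at hi
        omega
    obtain ⟨g, hg⟩ := hlift
    refine ⟨Polynomial.aeval P g, ?_⟩
    apply hinj
    rw [map_mul, hiter, hiter, hQ0, hF, io_aeval, hP, hg, map_mul, Polynomial.aeval_C, mul_assoc]
    rfl

end Pool.Agent.R2F
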