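import Mathlib
import Pool.Agent.R2F.GlobB

/-!
# three variables, rank at most two

Proof. Conjugating `D` with `φ` we may assume `D (X 0) = 0` (transport `Q`, `c` by `φ`). `MvPolynomial (Fin 3) k ≃ₐ[k] P2 (Polynomial k)` (via `Fin 3 ≃ Option (Fin 2)`, `MvPolynomial.optionEquivRight`, `X 0 ↦ C X`, `X (i+1) ↦ X i`) turns `D` into a derivation killing `Polynomial k`, i.e. a
`Polynomial k`-derivation: `pid_main`.
-/

set_option autoImplicit false

open MvPolynomial

namespace Pool.Agent.R2F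

namespace Fin3Aux

variable {k : Type*} [Field k]

/-- three variables as two variables over polynomials in one variable -/
noncomputable def psi (k : Type*) [Field k] :
    MvPolynomial (Fin 3) k ≃ₐ[k] P2 (Polynomial k) :=
  (renameEquiv k (finSuccEquiv 2)).trans (optionEquivRight k (Fin 2))

theorem psi_X0 : psi k (X 0) = C Polynomial.X := by
  unfold psi
  rw [AlgEquiv.trans_apply, renameEquiv_apply, rename_X, finSuccEquiv_zero,
    optionEquivRight_X_none]

/-- the coordinates in which the derivation kills the coefficients -/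
noncomputable def Psi (φ : MvPolynomial (Fin 3) k ≃ₐ[k] MvPolynomial (Fin 3) k) :
    P2 (Polynomial k) ≃ₐ[k] MvPolynomial (Fin 3) k :=
  (psi k).symm.trans φ

theorem Psi_C (φ : MvPolynomial (Fin 3) k ≃ₐ[k] MvPolynomial (Fin 3) k) (r : Polynomial k) :
    Psi φ (C r) = Polynomial.aeval (φ (X 0)) r := by
  have h : ((Psi φ : P2 (Polynomial k) →ₐ[k] MvPolynomial (Fin 3) k).comp
      (IsScalarTower.toAlgHom k (Polynomial k) (P2 (Polynomial k)))) =
      Polynomial.aeval (φ (X 0)) := by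
    refine Polynomial.algHom_ext ?_
    rw [Polynomial.aeval_X]
    change φ ((psi k).symm (C Polynomial.X)) = φ (X 0)
    rw [← psi_X0, AlgEquiv.symm_apply_apply]
  exact DFunLike.congr_fun h r

theorem D_Psi_C (D : Derivation k (MvPolynomial (Fin 3) k) (MvPolynomial (Fin 3) k))
    (φ : MvPolynomial (Fin 3) k ≃ₐ[k] MvPolynomial (Fin 3) k) (hφ : D (φ (X 0)) = 0)
    (r : Polynomial k) : D (Psi φ (C r)) = 0 := by
  rw [Psi_C, Derivation.map_aeval, hφ, smul_zero]

/-- the transported derivation -/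
noncomputable def DR (D : Derivation k (MvPolynomial (Fin 3) k) (MvPolynomial (Fin 3) k))
    (φ : MvPolynomial (Fin 3) k ≃ₐ[k] MvPolynomial (Fin 3) k) (hφ : D (φ (X 0)) = 0) :
    Derivation (Polynomial k) (P2 (Polynomial k)) (P2 (Polynomial k)) :=
  Derivation.mk'
    { toFun := fun f => (Psi φ).symm (D (Psi φ f))
      map_add' := fun f g => by simp only [map_add]
      map_smul' := fun r f => by
        rw [RingHom.id_apply, MvPolynomial.smul_eq_C_mul, MvPolynomial.smul_eq_C_mul, map_mul,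
          Derivation.leibniz, D_Psi_C D φ hφ, smul_zero, add_zero, smul_eq_mul, map_mul,
          AlgEquiv.symm_apply_apply] }
    (fun f g => by
      change (Psi φ).symm (D (Psi φ (f * g))) =
        f • (Psi φ).symm (D (Psi φ g)) + g • (Psi φ).symm (D (Psi φ f))
      rw [map_mul, Derivation.leibniz, map_add, smul_eq_mul, smul_eq_mul, map_mul, map_mul,
        AlgEquiv.symm_apply_apply, AlgEquiv.symm_apply_apply, smul_eq_mul, smul_eq_mul])

theorem DR_apply (D : Derivation k (MvPolynomial (Fin 3) k) (MvPolynomial (Fin 3) k))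
    (φ : MvPolynomial (Fin 3) k ≃ₐ[k] MvPolynomial (Fin 3) k) (hφ : D (φ (X 0)) = 0)
    (f : P2 (Polynomial k)) : Psi φ (DR D φ hφ f) = D (Psi φ f) := by
  change Psi φ ((Psi φ).symm (D (Psi φ f))) = D (Psi φ f)
  rw [AlgEquiv.apply_symm_apply]

theorem DR_iter (D : Derivation k (MvPolynomial (Fin 3) k) (MvPolynomial (Fin 3) k))
    (φ : MvPolynomial (Fin 3) k ≃ₐ[k] MvPolynomial (Fin 3) k) (hφ : D (φ (X 0)) = 0)
    (n : ℕ) (f : P2 (Polynomial k)) :
    Psi φ ((⇑(DR D φ hφ))^[n] f) = (⇑D)^[n] (Psi φ f) := by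
  induction n generalizing f with
  | zero => rfl
  | succ n ih => rw [Function.iterate_succ_apply, Function.iterate_succ_apply, ih, DR_apply]

end Fin3Aux

open Fin3Aux in
theorem rank_two {k : Type*} [Field k] [CharZero k]
    (D : Derivation k (MvPolynomial (Fin 3) k) (MvPolynomial (Fin 3) k)) (hD : ∃ x, D x ≠ 0)
    (hln : ∀ x, ∃ n, (⇑D)^[n] x = 0) (φ : MvPolynomial (Fin 3) k ≃ₐ[k] MvPolynomial (Fin 3) k)
    (hφ : D (φ (X 0)) = 0) (n : ℕ) :
    ∃ Q c : MvPolynomial (Fin 3) k, (⇑D)^[n] Q = c ∧ c ≠ 0 ∧ D c = 0 ∧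
      ∀ x, (⇑D)^[n + 1] x = 0 → c ∣ (⇑D)^[n] x := by
  have hinj : Function.Injective (Psi φ) := (Psi φ).injective
  obtain ⟨Q, c, h1, h2, h3, h4⟩ := pid_main (DR D φ hφ) (fun x => by
      obtain ⟨m, hm⟩ := hln (Psi φ x)
      refine ⟨m, hinj ?_⟩
      rw [DR_iter, hm, map_zero]) (by
      obtain ⟨x, hx⟩ := hD
      refine ⟨(Psi φ).symm x, fun h => hx ?_⟩
      rw [← AlgEquiv.apply_symm_apply (Psi φ) x, ← DR_apply D φ hφ, h, map_zero]) n
  refine ⟨Psi φ Q, Psi φ c, ?_, ?_, ?_, ?_⟩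
  · rw [← DR_iter D φ hφ, h1]
  · intro h
    exact h2 (hinj (by rw [h, map_zero]))
  · rw [← DR_apply D φ hφ, h3, map_zero]
  · intro x hx
    have h5 := h4 ((Psi φ).symm x) (hinj (by
      rw [DR_iter, AlgEquiv.apply_symm_apply, hx, map_zero]))
    have h6 := map_dvd (Psi φ) h5
    rwa [DR_iter, AlgEquiv.apply_symm_apply] at h6

end Pool.Agent.R2F
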